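import Pool.Agent.H951R4.OD.Defs
import Pool.Agent.Helper919.NonRes

/-!
# Orders of difference sets: the real characters `ch D`
-/

set_option autoImplicit false

namespace Pool.Agent.H951R4.OD

open Finset

theorem ch_mul_left (a b : ℤ) (n : ℕ) : ch (a * b) n = ch a n * ch b n := by
  unfold ch
  split_ifs with h
  · rw [jacobiSym.mul_left]
    push_cast
    rfl
  · rw [zero_mul]

theorem ch_prod_left (ps : Finset ℕ) (n : ℕ) (hn : n % 2 = 1) :
    ch (((∏ p ∈ ps, p : ℕ) : ℕ) : ℤ) n = ∏ p ∈ ps, ch (p : ℤ) n := by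
  classical
  induction ps using Finset.induction_on with
  | empty =>
    rw [Finset.prod_empty, Finset.prod_empty]
    unfold ch
    rw [if_pos hn, Nat.cast_one, jacobiSym.one_left]
    norm_num
  | insert a s ha ih =>
    rw [Finset.prod_insert ha, Finset.prod_insert ha, Nat.cast_mul, ch_mul_left, ih]

theorem ch_val (D : ℤ) (n : ℕ) : ch D n = 0 ∨ ch D n = 1 ∨ ch D n = -1 := by
  unfold ch
  split_ifs with h
  · rcases jacobiSym.trichotomy D n with h1 | h1 | h1 <;> rw [h1]
    · left; norm_num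
    · right; left; norm_num
    · right; right; norm_num
  · left; rfl

theorem ch_prime_ne_zero (p q : ℕ) (hp : p.Prime) (hq : q.Prime) (hq2 : q ≠ 2) (hpq : p ≠ q) :
    ch (p : ℤ) q ≠ 0 := by
  unfold ch
  have hodd : q % 2 = 1 := by
    rcases hq.eq_two_or_odd with h | h
    · exact absurd h hq2
    · exact h
  rw [if_pos hodd]
  have hg : (p : ℤ).gcd q = 1 := by
    rw [Int.gcd_natCast_natCast]
    exact (Nat.coprime_primes hp hq).2 hpq
  exact_mod_cast jacobiSym.ne_zero hg

theorem ch_eq_neg_one_iff (p q : ℕ) (hq : q.Prime) (hq2 : q ≠ 2) :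
    ch (p : ℤ) q = -1 ↔ (p : ZMod q) ^ ((q - 1) / 2) = -1 := by
  have : Fact q.Prime := ⟨hq⟩
  have hodd : q % 2 = 1 := by
    rcases hq.eq_two_or_odd with h | h
    · exact absurd h hq2
    · exact h
  have hq3 : 2 < q := lt_of_le_of_ne hq.two_le (Ne.symm hq2)
  have : Fact (2 < q) := ⟨hq3⟩
  have h2 : (q - 1) / 2 = q / 2 := by omega
  have hpow : ((legendreSym q (p : ℤ) : ℤ) : ZMod q) = (p : ZMod q) ^ (q / 2) := by
    have := legendreSym.eq_pow q (p : ℤ)
    rw [Int.cast_natCast] at this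
    exact this
  have hch : ch (p : ℤ) q = ((legendreSym q (p : ℤ) : ℤ) : ℝ) := by
    unfold ch
    rw [if_pos hodd, jacobiSym.legendreSym.to_jacobiSym]
  rw [h2, ← hpow, hch]
  have htri : legendreSym q (p : ℤ) = 0 ∨ legendreSym q (p : ℤ) = 1 ∨
      legendreSym q (p : ℤ) = -1 := by
    rw [jacobiSym.legendreSym.to_jacobiSym]
    exact jacobiSym.trichotomy _ _
  rcases htri with h | h | h <;> rw [h]
  · constructor
    · intro h1; norm_num at h1
    · intro h1
      rw [Int.cast_zero] at h1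
      have : (1 : ZMod q) = 0 := by rw [← neg_eq_zero, ← h1]
      exact absurd this one_ne_zero
  · constructor
    · intro h1; norm_num at h1
    · intro h1
      rw [Int.cast_one] at h1
      exact absurd h1.symm (ZMod.neg_one_ne_one)
  · constructor
    · intro _; push_cast; rfl
    · intro _; norm_num

namespace A1aux

theorem ch_mod (D : ℤ) (n : ℕ) : ch D (n % (4 * D.natAbs)) = ch D n := by
  have hpar : n % (4 * D.natAbs) % 2 = n % 2 :=
    Nat.mod_mod_of_dvd n (Dvd.dvd.mul_right (by norm_num) _)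
  unfold ch
  rw [hpar]
  split_ifs with h
  · rw [← jacobiSym.mod_right D (Nat.odd_iff.2 h)]
  · rfl

theorem ch_mul_right (D : ℤ) (m n : ℕ) : ch D (m * n) = ch D m * ch D n := by
  unfold ch
  by_cases hm : m % 2 = 1
  · by_cases hn : n % 2 = 1
    · have hmn : m * n % 2 = 1 := by rw [Nat.mul_mod, hm, hn]
      rw [if_pos hm, if_pos hn, if_pos hmn, jacobiSym.mul_right' D (by omega) (by omega)]
      push_cast
      rfl
    · have hn0 : n % 2 = 0 := by omega
      have hmn : ¬ m * n % 2 = 1 := by rw [Nat.mul_mod, hm, hn0]; norm_num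
      rw [if_neg hn, if_neg hmn, mul_zero]
  · have hm0 : m % 2 = 0 := by omega
    have hmn : ¬ m * n % 2 = 1 := by rw [Nat.mul_mod, hm0]; norm_num
    rw [if_neg hm, if_neg hmn, zero_mul]

theorem sum_full (D : ℤ) (hD : ¬ IsSquare D) : ∑ n ∈ range (4 * D.natAbs), ch D n = 0 := by
  have hD0 : D ≠ 0 := by rintro rfl; exact hD IsSquare.zero
  obtain ⟨d, hdo, hd⟩ := Pool.Agent.Helper919.exists_jacobi_neg_one D hD
  obtain ⟨T, hT⟩ : ∃ T : ℕ, T = 4 * D.natAbs := ⟨_, rfl⟩
  have hT0 : 0 < T := by have := Int.natAbs_pos.2 hD0; omega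
  have hchd : ch D d = -1 := by
    unfold ch
    rw [if_pos (Nat.odd_iff.1 hdo), hd]
    norm_num
  have hcop : Nat.Coprime T d := by
    rw [hT]
    apply Nat.Coprime.mul_left
    · have : Nat.Coprime 2 d := Nat.coprime_two_left.2 hdo
      exact Nat.Coprime.pow_left 2 this
    · have h1 : jacobiSym D d ≠ 0 := by rw [hd]; norm_num
      by_contra h2
      exact h1 (jacobiSym.eq_zero_iff.2 ⟨(Nat.odd_iff.1 hdo |> fun h => by omega), h2⟩)
  rw [← hT]
  have hmod : ∀ n, ch D (n % T) = ch D n := by intro n; rw [hT]; exact ch_mod D n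
  have hinj : Set.InjOn (fun n => (d * n) % T) (range T : Finset ℕ) := by
    intro n hn m hm hnm
    have h1 : d * n ≡ d * m [MOD T] := hnm
    have h2 : n ≡ m [MOD T] := Nat.ModEq.cancel_left_of_coprime hcop h1
    rw [Finset.coe_range] at hn hm
    exact Nat.ModEq.eq_of_lt_of_lt h2 hn hm
  have himg : (range T).image (fun n => (d * n) % T) = range T := by
    apply Finset.eq_of_subset_of_card_le
    · intro m hm
      obtain ⟨n, -, rfl⟩ := Finset.mem_image.1 hm
      exact Finset.mem_range.2 (Nat.mod_lt _ hT0)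
    · rw [Finset.card_image_of_injOn hinj]
  have h3 : ∑ n ∈ range T, ch D n = ∑ n ∈ range T, ch D ((d * n) % T) := by
    conv_lhs => rw [← himg]
    rw [Finset.sum_image hinj]
  have h4 : ∑ n ∈ range T, ch D ((d * n) % T) = -∑ n ∈ range T, ch D n := by
    rw [← Finset.sum_neg_distrib]
    refine Finset.sum_congr rfl (fun n _ => ?_)
    rw [hmod, ch_mul_right, hchd]
    ring
  linarith

theorem abs_ch_le (D : ℤ) (n : ℕ) : |ch D n| ≤ 1 := by
  rcases ch_val D n with h | h | h <;> rw [h] <;> norm_num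

theorem abs_sum_le (D : ℤ) (hD : ¬ IsSquare D) (N : ℕ) :
    |∑ n ∈ range N, ch D n| ≤ ((4 * D.natAbs : ℕ) : ℝ) := by
  have hD0 : D ≠ 0 := by rintro rfl; exact hD IsSquare.zero
  induction N using Nat.strong_induction_on with
  | _ N ih =>
    obtain ⟨T, hT⟩ : ∃ T : ℕ, T = 4 * D.natAbs := ⟨_, rfl⟩
    have hT0 : 0 < T := by have := Int.natAbs_pos.2 hD0; omega
    have hfull := sum_full D hD
    rw [← hT] at ih hfull ⊢
    rcases lt_or_ge N T with h | h
    · calc |∑ n ∈ range N, ch D n| ≤ ∑ n ∈ range N, |ch D n| := Finset.abs_sum_le_sum_abs _ _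
        _ ≤ ∑ _n ∈ range N, (1 : ℝ) := Finset.sum_le_sum (fun n _ => abs_ch_le D n)
        _ = N := by simp
        _ ≤ T := by exact_mod_cast h.le
    · obtain ⟨m, rfl⟩ := Nat.exists_eq_add_of_le h
      have h1 : ∑ n ∈ range (T + m), ch D n = ∑ n ∈ range m, ch D n := by
        rw [Finset.sum_range_add, hfull, zero_add]
        refine Finset.sum_congr rfl (fun n _ => ?_)
        rw [← ch_mod D (T + n), ← ch_mod D n, ← hT, Nat.add_mod_left]
      rw [h1]
      exact ih m (by omega)

end A1aux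

theorem ch_chi (D : ℤ) (hD : ¬ IsSquare D) : Chi (ch D) (4 * |(D : ℝ)|) where
  zero := by unfold ch; norm_num
  one := by unfold ch; rw [if_pos (by norm_num), jacobiSym.one_right]; norm_num
  mul := A1aux.ch_mul_right D
  val := ch_val D
  one_le := by
    have hD0 : D ≠ 0 := by rintro rfl; exact hD IsSquare.zero
    have h1 : (1 : ℤ) ≤ |D| := Int.one_le_abs hD0
    have h2 : (1 : ℝ) ≤ |(D : ℝ)| := by exact_mod_cast h1
    linarith
  sum := fun N => by
    have h := A1aux.abs_sum_le D hD N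
    have e : ((4 * D.natAbs : ℕ) : ℝ) = 4 * |(D : ℝ)| := by
      rw [Nat.cast_mul, Nat.cast_natAbs, Int.cast_abs]
      norm_num
    rwa [e] at h

end Pool.Agent.H951R4.OD
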