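import Pool.Agent.H951R4.OD.Defs

/-!
# Orders of difference sets: non-squares
-/

set_option autoImplicit false

namespace Pool.Agent.H951R4.OD

open Finset

theorem prod_not_square (ps : Finset ℕ) (hps : ∀ p ∈ ps, p.Prime) (hne : ps.Nonempty) :
    ¬ IsSquare (((∏ p ∈ ps, p : ℕ) : ℕ) : ℤ) := by
  rintro ⟨a, ha⟩
  obtain ⟨b, hb⟩ : ∃ b : ℕ, b = a.natAbs := ⟨_, rfl⟩
  have hn : ∏ p ∈ ps, p = b * b := by
    have := congrArg Int.natAbs ha
    rw [Int.natAbs_natCast, Int.natAbs_mul, ← hb] at this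
    exact this
  have hsf : Squarefree (∏ p ∈ ps, p) := by
    apply Finset.squarefree_prod_of_pairwise_isCoprime
    · intro p hp q hq hpq
      have h1 : Nat.Coprime p q := (Nat.coprime_primes (hps p hp) (hps q hq)).2 hpq
      exact Nat.coprime_iff_isRelPrime.1 h1
    · intro p hp
      exact (hps p hp).prime.squarefree
  have hb1 : b = 1 := Nat.isUnit_iff.1 (hsf b (by rw [hn]))
  obtain ⟨p, hp⟩ := hne
  have h1 : p ∣ ∏ p ∈ ps, p := Finset.dvd_prod_of_mem _ hp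
  rw [hn, hb1, mul_one, Nat.dvd_one] at h1
  exact (hps p hp).one_lt.ne' h1

theorem neg_not_square (d : ℕ) (Δ : ℤ) (hd : 0 < d) (hΔ : Δ < 0) :
    ¬ IsSquare ((d : ℤ) * Δ) := by
  rintro ⟨a, ha⟩
  have h1 : (d : ℤ) * Δ < 0 := mul_neg_of_pos_of_neg (by exact_mod_cast hd) hΔ
  have h2 : 0 ≤ a * a := mul_self_nonneg a
  omega

end Pool.Agent.H951R4.OD
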