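import Pool.Agent.H951R4.OD.Defs

/-!
# B1: the function `1 * χ`
-/

set_option autoImplicit false

namespace Pool.Agent.H951R4.OD

open Finset

theorem B1_abs_le {χ : ℕ → ℝ} {M : ℝ} (h : Chi χ M) (n : ℕ) : |χ n| ≤ 1 := by
  rcases h.val n with h1 | h1 | h1 <;> rw [h1] <;> norm_num

theorem rr_one {χ : ℕ → ℝ} {M : ℝ} (h : Chi χ M) : rr χ 1 = 1 := by
  unfold rr
  rw [Nat.divisors_one, Finset.sum_singleton, h.one]

theorem rr_le {χ : ℕ → ℝ} {M : ℝ} (h : Chi χ M) (n : ℕ) : rr χ n ≤ n.divisors.card := by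
  unfold rr
  calc ∑ b ∈ n.divisors, χ b ≤ ∑ _b ∈ n.divisors, (1 : ℝ) :=
        Finset.sum_le_sum (fun b _ => (le_abs_self _).trans (B1_abs_le h b))
    _ = n.divisors.card := by simp

/-- `χ` as an arithmetic function -/
noncomputable def B1af {χ : ℕ → ℝ} {M : ℝ} (h : Chi χ M) : ArithmeticFunction ℝ := ⟨χ, h.zero⟩

theorem B1_mult {χ : ℕ → ℝ} {M : ℝ} (h : Chi χ M) :
    ((ArithmeticFunction.zeta : ArithmeticFunction ℝ) * B1af h).IsMultiplicative :=
  ArithmeticFunction.isMultiplicative_zeta.natCast.mul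
    (show (B1af h).IsMultiplicative from ⟨h.one, fun {m n} _ => h.mul m n⟩)

theorem B1_rr {χ : ℕ → ℝ} {M : ℝ} (h : Chi χ M) (n : ℕ) :
    rr χ n = ((ArithmeticFunction.zeta : ArithmeticFunction ℝ) * B1af h) n := by
  rw [ArithmeticFunction.coe_zeta_mul_apply]
  rfl

theorem B1_pow {χ : ℕ → ℝ} {M : ℝ} (h : Chi χ M) (p k : ℕ) : χ (p ^ k) = χ p ^ k := by
  induction k with
  | zero => simp [h.one]
  | succ k ih => rw [pow_succ, h.mul, ih, pow_succ]

theorem B1_geom (x : ℝ) (hx : x = 0 ∨ x = 1 ∨ x = -1) (k : ℕ) :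
    0 ≤ ∑ j ∈ range (k + 1), x ^ j := by
  rcases hx with h | h | h
  · subst h
    exact Finset.sum_nonneg (fun j _ => pow_nonneg le_rfl j)
  · subst h
    exact Finset.sum_nonneg (fun j _ => pow_nonneg zero_le_one j)
  · subst h
    rw [neg_one_geom_sum]
    split_ifs
    · exact le_rfl
    · exact zero_le_one

theorem rr_nonneg {χ : ℕ → ℝ} {M : ℝ} (h : Chi χ M) (n : ℕ) : 0 ≤ rr χ n := by
  rcases Nat.eq_zero_or_pos n with h0 | h0
  · subst h0
    simp [rr]
  · rw [B1_rr h, (B1_mult h).multiplicative_factorization _ h0.ne']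
    apply Finset.prod_nonneg
    intro p hp
    have hp' : p.Prime := Nat.prime_of_mem_primeFactors hp
    show 0 ≤ ((ArithmeticFunction.zeta : ArithmeticFunction ℝ) * B1af h)
      (p ^ n.factorization p)
    rw [← B1_rr h]
    unfold rr
    rw [Nat.sum_divisors_prime_pow hp']
    rw [Finset.sum_congr rfl (fun j _ => B1_pow h p j)]
    exact B1_geom _ (h.val p) _

theorem FF_summable {χ : ℕ → ℝ} {M : ℝ} (h : Chi χ M) (σ : ℝ) (hσ : 1 < σ) :
    Summable (fun n : ℕ => rr χ n * (n : ℝ) ^ (-σ)) := by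
  have h1 : LSeriesSummable (fun n => ((ArithmeticFunction.zeta : ArithmeticFunction ℂ) n))
      (σ : ℂ) := by
    have := (ArithmeticFunction.LSeriesSummable_zeta_iff (s := (σ : ℂ))).2 (by simpa using hσ)
    simpa using this
  have h2 := ArithmeticFunction.LSeriesSummable_mul h1 h1
  have h3 := h2.norm
  refine Summable.of_nonneg_of_le (fun n => mul_nonneg (rr_nonneg h n)
    (Real.rpow_nonneg (Nat.cast_nonneg n) _)) (fun n => ?_) h3
  rcases Nat.eq_zero_or_pos n with h0 | h0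
  · subst h0
    simp [rr]
  · rw [LSeries.norm_term_eq, if_neg h0.ne', ArithmeticFunction.coe_zeta_mul_apply]
    have h4 : ∑ i ∈ n.divisors, ((ArithmeticFunction.zeta : ArithmeticFunction ℂ) i) =
        (n.divisors.card : ℂ) := by
      rw [Finset.sum_congr rfl (g := fun _ => (1 : ℂ))]
      · simp
      · intro i hi
        have hi0 : i ≠ 0 := (Nat.pos_of_mem_divisors hi).ne'
        simp [hi0]
    rw [h4, Complex.norm_natCast, Complex.ofReal_re, Real.rpow_neg (Nat.cast_nonneg n),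
      ← div_eq_mul_inv]
    exact div_le_div_of_nonneg_right (rr_le h n) (Real.rpow_nonneg (Nat.cast_nonneg n) _)

end Pool.Agent.H951R4.OD
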