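import Pool.Agent.H951R4.OD.Defs
import Pool.Agent.H951R4.OD.B1

/-!
# Orders of difference sets: the hyperbola method
-/

set_option autoImplicit false

namespace Pool.Agent.H951R4.OD

open Finset

/-- Abel summation with nonincreasing nonnegative weights -/
theorem b2_abel {χ : ℕ → ℝ} {M : ℝ} (h : Chi χ M) (w : ℕ → ℝ) (B : ℕ)
    (hw0 : ∀ b, 0 ≤ w b) (hw : ∀ b, B + 1 ≤ b → w (b + 1) ≤ w b) (B' : ℕ) :
    |∑ b ∈ Ioc B B', χ b * w b| ≤ 2 * M * w (B + 1) := by
  have hM : 1 ≤ M := h.one_le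
  have hS : ∀ N N' : ℕ, |∑ n ∈ range N, χ n - ∑ n ∈ range N', χ n| ≤ 2 * M := by
    intro N N'
    have h1 := h.sum N
    have h2 := h.sum N'
    rw [abs_le] at *
    constructor <;> linarith [h1.1, h1.2, h2.1, h2.2]
  rcases Nat.lt_or_ge B B' with hB | hB
  · have key : ∀ k : ℕ, |∑ b ∈ Ioc B (B + 1 + k), χ b * w b -
        (∑ n ∈ range (B + 1 + k + 1), χ n - ∑ n ∈ range (B + 1), χ n) * w (B + 1 + k)| ≤
        2 * M * (w (B + 1) - w (B + 1 + k)) := by
      intro k
      induction k with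
      | zero =>
        simp [Finset.sum_range_succ]
      | succ k ih =>
        have e1 : ∑ b ∈ Ioc B (B + 1 + (k + 1)), χ b * w b =
            ∑ b ∈ Ioc B (B + 1 + k), χ b * w b + χ (B + 1 + (k + 1)) * w (B + 1 + (k + 1)) := by
          have : B + 1 + (k + 1) = (B + 1 + k) + 1 := by ring
          rw [this, Finset.sum_Ioc_succ_top (by omega)]
        have e2 : ∑ n ∈ range (B + 1 + (k + 1) + 1), χ n =
            ∑ n ∈ range (B + 1 + k + 1), χ n + χ (B + 1 + (k + 1)) := by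
          rw [Finset.sum_range_succ]; rfl
        have hw1 := hw (B + 1 + k) (by omega)
        have e3 : w (B + 1 + k + 1) = w (B + 1 + (k + 1)) := rfl
        rw [e3] at hw1
        rw [e1, e2]
        have e4 : ∑ b ∈ Ioc B (B + 1 + k), χ b * w b +
              χ (B + 1 + (k + 1)) * w (B + 1 + (k + 1)) -
            (∑ n ∈ range (B + 1 + k + 1), χ n + χ (B + 1 + (k + 1)) -
              ∑ n ∈ range (B + 1), χ n) * w (B + 1 + (k + 1)) =
            (∑ b ∈ Ioc B (B + 1 + k), χ b * w b -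
              (∑ n ∈ range (B + 1 + k + 1), χ n - ∑ n ∈ range (B + 1), χ n) * w (B + 1 + k)) +
            (∑ n ∈ range (B + 1 + k + 1), χ n - ∑ n ∈ range (B + 1), χ n) *
              (w (B + 1 + k) - w (B + 1 + (k + 1))) := by ring
        rw [e4]
        refine (abs_add_le _ _).trans ?_
        have e5 : |(∑ n ∈ range (B + 1 + k + 1), χ n - ∑ n ∈ range (B + 1), χ n) *
              (w (B + 1 + k) - w (B + 1 + (k + 1)))| ≤
            2 * M * (w (B + 1 + k) - w (B + 1 + (k + 1))) := by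
          rw [abs_mul, abs_of_nonneg (sub_nonneg.mpr hw1)]
          exact mul_le_mul_of_nonneg_right (hS _ _) (sub_nonneg.mpr hw1)
        linarith
    obtain ⟨k, rfl⟩ : ∃ k, B' = B + 1 + k := ⟨B' - (B + 1), by omega⟩
    have h1 := key k
    have h2 : |(∑ n ∈ range (B + 1 + k + 1), χ n - ∑ n ∈ range (B + 1), χ n) * w (B + 1 + k)| ≤
        2 * M * w (B + 1 + k) := by
      rw [abs_mul, abs_of_nonneg (hw0 _)]
      exact mul_le_mul_of_nonneg_right (hS _ _) (hw0 _)
    rw [abs_le] at h1 h2 ⊢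
    constructor <;> linarith [h1.1, h1.2, h2.1, h2.2]
  · rw [Finset.Ioc_eq_empty (by omega)]
    simp only [Finset.sum_empty, abs_zero]
    have := hw0 (B + 1)
    positivity

theorem b2_sum_rr {χ : ℕ → ℝ} {M : ℝ} (h : Chi χ M) (N : ℕ) :
    ∑ n ∈ Icc 1 N, rr χ n = ∑ b ∈ Ioc 0 N, χ b * ((N / b : ℕ) : ℝ) := by
  let f : ArithmeticFunction ℝ := ⟨χ, h.zero⟩
  have h1 := ArithmeticFunction.sum_Ioc_mul_zeta_eq_sum f N
  have h2 : ∀ n, (f * (ArithmeticFunction.zeta : ArithmeticFunction ℝ)) n = rr χ n := by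
    intro n
    rw [ArithmeticFunction.coe_mul_zeta_apply]
    rfl
  simp only [h2] at h1
  have h3 : Icc 1 N = Ioc 0 N := by
    ext a; simp [Finset.mem_Icc, Finset.mem_Ioc, Nat.lt_iff_add_one_le]
  rw [h3]
  exact h1

/-- the partial sums of `∑ χ b / b` converge -/
theorem b2_lim {χ : ℕ → ℝ} {M : ℝ} (h : Chi χ M) : ∃ lam : ℝ, ∀ N : ℕ,
    |lam - ∑ b ∈ Ioc 0 N, χ b * (1 / (b : ℝ))| ≤ 2 * M * (1 / ((N : ℝ) + 1)) := by
  have hM : 1 ≤ M := h.one_le
  set u : ℕ → ℝ := fun N => ∑ b ∈ Ioc 0 N, χ b * (1 / (b : ℝ)) with hu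
  have hdiff : ∀ N N' : ℕ, N ≤ N' → |u N' - u N| ≤ 2 * M * (1 / ((N : ℝ) + 1)) := by
    intro N N' hN
    have hsp : u N' = u N + ∑ b ∈ Ioc N N', χ b * (1 / (b : ℝ)) := by
      rw [hu]
      simp only
      rw [Finset.sum_Ioc_consecutive _ (Nat.zero_le N) hN]
    have := b2_abel h (fun b => 1 / (b : ℝ)) N (fun b => by positivity)
      (fun b hb => by
        have hb0 : (0 : ℝ) < b := by exact_mod_cast (by omega : 0 < b)
        push_cast
        apply one_div_le_one_div_of_le hb0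
        linarith) N'
    rw [hsp]
    simp only [add_sub_cancel_left]
    push_cast at this
    exact this
  have hC : CauchySeq u := by
    apply cauchySeq_of_le_tendsto_0 (fun N : ℕ => 2 * M * (1 / ((N : ℝ) + 1)))
    · intro n m N hn hm
      rw [Real.dist_eq]
      rcases le_total n m with hnm | hnm
      · rw [abs_sub_comm]
        refine (hdiff n m hnm).trans ?_
        have : (N : ℝ) ≤ n := by exact_mod_cast hn
        gcongr
      · refine (hdiff m n hnm).trans ?_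
        have : (N : ℝ) ≤ m := by exact_mod_cast hm
        gcongr
    · have := (tendsto_one_div_add_atTop_nhds_zero_nat (𝕜 := ℝ)).const_mul (2 * M)
      simpa using this
  obtain ⟨lam, hlam⟩ := cauchySeq_tendsto_of_complete hC
  refine ⟨lam, fun N => ?_⟩
  have ht : Filter.Tendsto (fun N' => |u N' - u N|) Filter.atTop (nhds |lam - u N|) :=
    (hlam.sub_const (u N)).abs
  exact le_of_tendsto ht (Filter.eventually_atTop.mpr ⟨N, fun N' hN' => hdiff N N' hN'⟩)

theorem hyper : ∃ C : ℝ, 1 ≤ C ∧ ∀ (χ : ℕ → ℝ) (M : ℝ), Chi χ M →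
    ∃ lam : ℝ, 0 ≤ lam ∧ ∀ N : ℕ, M ≤ N →
      |∑ n ∈ Icc 1 N, rr χ n - lam * N| ≤ C * Real.sqrt (M * N) := by
  refine ⟨5, by norm_num, ?_⟩
  intro χ M h
  have hM : 1 ≤ M := h.one_le
  obtain ⟨lam, hlam⟩ := b2_lim h
  have main : ∀ N : ℕ, M ≤ N →
      |∑ n ∈ Icc 1 N, rr χ n - lam * N| ≤ 5 * Real.sqrt (M * N) := by
    intro N hN
    have hN0 : (1 : ℝ) ≤ N := hM.trans hN
    set s := Real.sqrt (M * N) with hs
    have hs1 : 1 ≤ s := by
      rw [hs]; apply Real.one_le_sqrt.mpr; nlinarith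
    have hs0 : 0 < s := by linarith
    have hss : s * s = M * N := Real.mul_self_sqrt (by positivity)
    set B := ⌊s⌋₊ with hB
    have hBs : (B : ℝ) ≤ s := Nat.floor_le hs0.le
    have hBs' : s < (B : ℝ) + 1 := Nat.lt_floor_add_one s
    have hsN : s ≤ N := by
      rw [hs]; apply Real.sqrt_le_iff.mpr; constructor <;> nlinarith
    have hBN : B ≤ N := by exact_mod_cast hBs.trans hsN
    rw [b2_sum_rr h N]
    have hsplit : ∑ b ∈ Ioc 0 N, χ b * ((N / b : ℕ) : ℝ) =
        ∑ b ∈ Ioc 0 B, χ b * ((N / b : ℕ) : ℝ) + ∑ b ∈ Ioc B N, χ b * ((N / b : ℕ) : ℝ) := by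
      rw [Finset.sum_Ioc_consecutive _ (Nat.zero_le B) hBN]
    -- second part
    have h2 : |∑ b ∈ Ioc B N, χ b * ((N / b : ℕ) : ℝ)| ≤ 2 * M * ((N / (B + 1) : ℕ) : ℝ) :=
      b2_abel h (fun b => ((N / b : ℕ) : ℝ)) B (fun b => by positivity)
        (fun b hb => by
          have : N / (b + 1) ≤ N / b := Nat.div_le_div_left (by omega) (by omega)
          exact_mod_cast this) N
    have h2' : 2 * M * ((N / (B + 1) : ℕ) : ℝ) ≤ 2 * s := by
      have hdiv : ((N / (B + 1) : ℕ) : ℝ) ≤ N / ((B : ℝ) + 1) := by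
        have := @Nat.cast_div_le ℝ _ _ _ N (B + 1)
        push_cast at this
        exact this
      have hdiv2 : (N : ℝ) / ((B : ℝ) + 1) ≤ N / s := by
        apply div_le_div_of_nonneg_left (by positivity) hs0 hBs'.le
      have : M * ((N : ℝ) / s) = s := by
        rw [mul_div_assoc', ← hss, mul_self_div_self]
      have h3 : M * ((N / (B + 1) : ℕ) : ℝ) ≤ M * ((N : ℝ) / s) :=
        mul_le_mul_of_nonneg_left (hdiv.trans hdiv2) (by linarith)
      rw [this] at h3
      linarith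
    -- first part
    have h1 : |∑ b ∈ Ioc 0 B, χ b * ((N / b : ℕ) : ℝ) -
        N * ∑ b ∈ Ioc 0 B, χ b * (1 / (b : ℝ))| ≤ B := by
      rw [Finset.mul_sum, ← Finset.sum_sub_distrib]
      refine (Finset.abs_sum_le_sum_abs _ _).trans ?_
      have : ∀ b ∈ Ioc 0 B, |χ b * ((N / b : ℕ) : ℝ) - N * (χ b * (1 / (b : ℝ)))| ≤ 1 := by
        intro b hb
        rw [Finset.mem_Ioc] at hb
        have hb0 : (0 : ℝ) < b := by exact_mod_cast hb.1
        have e1 : χ b * ((N / b : ℕ) : ℝ) - N * (χ b * (1 / (b : ℝ))) =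
            χ b * (((N / b : ℕ) : ℝ) - N / b) := by ring
        rw [e1, abs_mul]
        have hc1 : |χ b| ≤ 1 := by
          rcases h.val b with h0 | h0 | h0 <;> rw [h0] <;> norm_num
        have hc2 : |((N / b : ℕ) : ℝ) - N / b| ≤ 1 := by
          have g1 : ((N / b : ℕ) : ℝ) ≤ N / b := Nat.cast_div_le
          have g2 : (N : ℝ) / b < ((N / b : ℕ) : ℝ) + 1 := by
            rw [div_lt_iff₀ hb0]
            have := Nat.lt_div_mul_add (a := N) (b := b) hb.1
            have hcast : (N : ℝ) < ((N / b : ℕ) : ℝ) * b + b := by exact_mod_cast this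
            linarith
          rw [abs_le]; constructor <;> linarith
        calc |χ b| * |((N / b : ℕ) : ℝ) - N / b| ≤ 1 * 1 :=
              mul_le_mul hc1 hc2 (abs_nonneg _) zero_le_one
          _ = 1 := one_mul 1
      refine (Finset.sum_le_sum this).trans ?_
      simp
    have h3 : |lam * N - N * ∑ b ∈ Ioc 0 B, χ b * (1 / (b : ℝ))| ≤ 2 * s := by
      have e1 : lam * N - N * ∑ b ∈ Ioc 0 B, χ b * (1 / (b : ℝ)) =
          (lam - ∑ b ∈ Ioc 0 B, χ b * (1 / (b : ℝ))) * N := by ring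
      rw [e1, abs_mul, abs_of_nonneg (by linarith : (0 : ℝ) ≤ N)]
      have hl := hlam B
      have hdiv2 : 1 / ((B : ℝ) + 1) ≤ 1 / s := by
        apply one_div_le_one_div_of_le hs0 hBs'.le
      have : M * (1 / s) * N = s := by
        field_simp
        rw [sq, hss]
      calc |lam - ∑ b ∈ Ioc 0 B, χ b * (1 / (b : ℝ))| * N ≤ 2 * M * (1 / ((B : ℝ) + 1)) * N :=
            mul_le_mul_of_nonneg_right hl (by linarith)
        _ ≤ 2 * M * (1 / s) * N := by gcongr
        _ = 2 * s := by rw [mul_assoc 2, mul_assoc 2, this]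
    rw [hsplit]
    have h2'' := h2.trans h2'
    rw [abs_le] at h1 h2'' h3 ⊢
    constructor <;> linarith [h1.1, h1.2, h2''.1, h2''.2, h3.1, h3.2]
  refine ⟨lam, ?_, main⟩
  by_contra hneg
  push Not at hneg
  obtain ⟨N, hN⟩ := exists_nat_gt (max M (25 * M / lam ^ 2))
  have hNM : M ≤ N := (le_max_left _ _).trans hN.le
  have hN2 : 25 * M / lam ^ 2 < N := lt_of_le_of_lt (le_max_right _ _) hN
  have hl2 : 0 < lam ^ 2 := by nlinarith [mul_pos_of_neg_of_neg hneg hneg]
  rw [div_lt_iff₀ hl2] at hN2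
  have hm := main N hNM
  have hnn : 0 ≤ ∑ n ∈ Icc 1 N, rr χ n := Finset.sum_nonneg fun n _ => rr_nonneg h n
  have hN0 : (1 : ℝ) ≤ N := hM.trans hNM
  have h1 : -lam * N ≤ 5 * Real.sqrt (M * N) := by
    rw [abs_le] at hm; linarith [hm.2]
  have hsq : Real.sqrt (M * N) ^ 2 = M * N := Real.sq_sqrt (by positivity)
  have hl0 : 0 ≤ -lam * N := mul_nonneg (by linarith) (by linarith)
  have h3 : (-lam * N) ^ 2 ≤ (5 * Real.sqrt (M * N)) ^ 2 := pow_le_pow_left₀ hl0 h1 2
  rw [mul_pow, mul_pow, hsq] at h3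
  have h4 : lam ^ 2 * N ≤ 25 * M := by
    have : (lam ^ 2 * N) * N ≤ (25 * M) * N := by nlinarith
    exact le_of_mul_le_mul_right this (by linarith)
  linarith

end Pool.Agent.H951R4.OD
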