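import Pool.Agent.H951R4.OD.Defs
import Pool.Agent.H951R4.OD.B1

/-!
# B3a: a lower bound for `∑ rr n / n`
-/

set_option autoImplicit false

namespace Pool.Agent.H951R4.OD

open Finset

namespace B3a

variable {a : ℕ → ℝ}

theorem S_mono (ha : ∀ n, 0 ≤ a n) {x y : ℕ} (h : x ≤ y) :
    ∑ n ∈ Icc 1 x, a n / n ≤ ∑ n ∈ Icc 1 y, a n / n := by
  apply sum_le_sum_of_subset_of_nonneg
  · intro n hn
    rw [mem_Icc] at hn ⊢
    omega
  · intro n _ _
    have := ha n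
    positivity

theorem S_one (ha : ∀ n, 0 ≤ a n) (h1 : a 1 = 1) {y : ℕ} (hy : 1 ≤ y) :
    1 ≤ ∑ n ∈ Icc 1 y, a n / n := by
  have := S_mono ha hy
  simpa [h1] using this

theorem A_le (ha : ∀ n, 0 ≤ a n) (y : ℕ) :
    ∑ n ∈ Icc 1 y, a n ≤ y * ∑ n ∈ Icc 1 y, a n / n := by
  rw [mul_sum]
  apply sum_le_sum
  intro n hn
  rw [mem_Icc] at hn
  have hn0 : (0 : ℝ) < n := by
    have : 0 < n := by omega
    exact_mod_cast this
  have hny : (n : ℝ) ≤ y := by exact_mod_cast hn.2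
  have := ha n
  rw [mul_div_assoc', le_div_iff₀ hn0]
  nlinarith

theorem block (ha : ∀ n, 0 ≤ a n) {M lam C1 : ℝ} (hM : 1 ≤ M) (hC1 : 1 ≤ C1)
    (hA : ∀ N : ℕ, M ≤ N → |∑ n ∈ Icc 1 N, a n - lam * N| ≤ C1 * Real.sqrt (M * N))
    (t : ℕ) (ht : M ≤ t) :
    ∑ n ∈ Icc 1 t, a n / n + (lam / 2 - 5 / 4 * C1 * Real.sqrt (M / t)) ≤
      ∑ n ∈ Icc 1 (2 * t), a n / n := by
  have ht0 : (0 : ℝ) < t := by linarith
  have ht1 : 0 < t := by exact_mod_cast ht0
  have e1 := hA t ht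
  have e2 := hA (2 * t) (by push_cast; linarith)
  rw [abs_le] at e1 e2
  have hsplit : ∑ n ∈ Icc 1 (2 * t), a n = ∑ n ∈ Icc 1 t, a n + ∑ n ∈ Ioc t (2 * t), a n := by
    have := (sum_Ioc_consecutive (fun n => a n) (Nat.zero_le t) (show t ≤ 2 * t by omega)).symm
    simpa [← Finset.Icc_add_one_left_eq_Ioc] using this
  have hsplit' : ∑ n ∈ Icc 1 (2 * t), a n / n =
      ∑ n ∈ Icc 1 t, a n / n + ∑ n ∈ Ioc t (2 * t), a n / n := by
    have := (sum_Ioc_consecutive (fun n => a n / n) (Nat.zero_le t) (show t ≤ 2 * t by omega)).symm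
    simpa [← Finset.Icc_add_one_left_eq_Ioc] using this
  have e3 : (∑ n ∈ Ioc t (2 * t), a n) / (2 * t) ≤ ∑ n ∈ Ioc t (2 * t), a n / n := by
    rw [sum_div]
    apply sum_le_sum
    intro n hn
    rw [mem_Ioc] at hn
    have hn0 : (0 : ℝ) < n := by
      have : 0 < n := by omega
      exact_mod_cast this
    have hn2 : (n : ℝ) ≤ 2 * t := by exact_mod_cast hn.2
    have := ha n
    gcongr
  have hs1 : Real.sqrt (M * ((2 * t : ℕ) : ℝ)) ≤ 3 / 2 * Real.sqrt (M * t) := by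
    have h1 : Real.sqrt (M * ((2 * t : ℕ) : ℝ)) = Real.sqrt 2 * Real.sqrt (M * t) := by
      rw [← Real.sqrt_mul (by norm_num)]
      congr 1
      push_cast
      ring
    rw [h1]
    have h2 : Real.sqrt 2 ≤ 3 / 2 := by
      rw [Real.sqrt_le_left (by norm_num)]
      norm_num
    exact mul_le_mul_of_nonneg_right h2 (Real.sqrt_nonneg _)
  have hs2 : Real.sqrt (M * t) = t * Real.sqrt (M / t) := by
    have h1 : M * t = (t : ℝ) ^ 2 * (M / t) := by
      field_simp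
    rw [h1, Real.sqrt_mul (by positivity), Real.sqrt_sq ht0.le]
  set s := Real.sqrt (M / t) with hs
  have hs0 : 0 ≤ s := Real.sqrt_nonneg _
  rw [hs2] at hs1 e1
  push_cast at e1 e2 hs1
  have e4 : lam * t - 5 / 2 * C1 * (t * s) ≤ ∑ n ∈ Ioc t (2 * t), a n := by
    have h5 : C1 * Real.sqrt (M * (2 * t)) ≤ C1 * (3 / 2 * (t * s)) :=
      mul_le_mul_of_nonneg_left hs1 (by linarith)
    have h6 := e2.1
    have h7 := e1.2
    rw [hsplit] at h6
    linarith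
  have e5 : lam / 2 - 5 / 4 * C1 * s ≤ (∑ n ∈ Ioc t (2 * t), a n) / (2 * t) := by
    rw [le_div_iff₀ (by positivity)]
    linarith
  rw [hsplit']
  linarith

theorem main (ha : ∀ n, 0 ≤ a n) {M lam C1 : ℝ} (hM : 1 ≤ M) (hC1 : 1 ≤ C1)
    (hA : ∀ N : ℕ, M ≤ N → |∑ n ∈ Icc 1 N, a n - lam * N| ≤ C1 * Real.sqrt (M * N))
    (t0 : ℕ) (hMt : 1 ≤ t0) (hy : M ≤ t0) (j : ℕ) :
    j * (lam / 2) - 5 * C1 * (1 - (3 / 4) ^ j) ≤ ∑ n ∈ Icc 1 (2 ^ j * t0), a n / n := by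
  induction j with
  | zero =>
    simp only [Nat.cast_zero, zero_mul, pow_zero, sub_self, mul_zero, one_mul]
    apply sum_nonneg
    intro n _
    have := ha n
    positivity
  | succ j ih =>
    have ht : M ≤ ((2 ^ j * t0 : ℕ) : ℝ) := by
      push_cast
      have h1 : (1 : ℝ) ≤ 2 ^ j := one_le_pow₀ (by norm_num)
      have h2 : (0 : ℝ) ≤ t0 := Nat.cast_nonneg _
      nlinarith
    have hb := block ha hM hC1 hA (2 ^ j * t0) ht
    have hs : Real.sqrt (M / ((2 ^ j * t0 : ℕ) : ℝ)) ≤ (3 / 4) ^ j := by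
      rw [Real.sqrt_le_left (by positivity)]
      have ht0' : (0 : ℝ) < t0 := by
        have : 0 < t0 := by omega
        exact_mod_cast this
      push_cast
      rw [div_le_iff₀ (by positivity), ← pow_mul, mul_comm j 2, pow_mul]
      have h3 : (1 : ℝ) ≤ ((3 / 4 : ℝ) ^ 2) ^ j * 2 ^ j := by
        rw [← mul_pow]
        apply one_le_pow₀
        norm_num
      have h4 : (0 : ℝ) ≤ t0 := ht0'.le
      calc M ≤ t0 := hy
        _ = 1 * t0 := (one_mul _).symm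
        _ ≤ (((3 / 4 : ℝ) ^ 2) ^ j * 2 ^ j) * t0 := mul_le_mul_of_nonneg_right h3 h4
        _ = _ := by ring
    have e : 2 ^ (j + 1) * t0 = 2 * (2 ^ j * t0) := by ring
    rw [e]
    refine le_trans ?_ hb
    have h5 : 5 / 4 * C1 * Real.sqrt (M / ((2 ^ j * t0 : ℕ) : ℝ)) ≤ 5 / 4 * C1 * (3 / 4) ^ j :=
      mul_le_mul_of_nonneg_left hs (by linarith)
    rw [pow_succ]
    push_cast at ih ⊢
    push_cast at h5
    linarith

end B3a

/-- `S(y) = ∑_{n ≤ y} rr n / n` against the residue -/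
theorem S_lower : ∃ C : ℝ, 1 ≤ C ∧ ∀ (χ : ℕ → ℝ) (M : ℝ), Chi χ M → ∀ lam : ℝ, 0 ≤ lam →
    ∀ C1 : ℝ, 1 ≤ C1 →
    (∀ N : ℕ, M ≤ N → |∑ n ∈ Icc 1 N, rr χ n - lam * N| ≤ C1 * Real.sqrt (M * N)) →
    ∀ y : ℕ, 3 ≤ y → M ^ 2 ≤ y →
      lam * Real.log y ≤ C * C1 * ∑ n ∈ Icc 1 y, rr χ n / n := by
  refine ⟨23, by norm_num, fun χ M hχ lam hlam C1 hC1 hA y hy hMy => ?_⟩
  have hM := hχ.one_le
  have ha : ∀ n, 0 ≤ rr χ n := rr_nonneg hχ
  have h1 : rr χ 1 = 1 := rr_one hχ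
  set S := ∑ n ∈ Icc 1 y, rr χ n / n with hS
  have hS1 : 1 ≤ S := B3a.S_one ha h1 (by omega)
  have hy0 : (0 : ℝ) < y := by
    have : 0 < y := by omega
    exact_mod_cast this
  have hy3 : (3 : ℝ) ≤ y := by exact_mod_cast hy
  have hMy' : M ≤ y := by nlinarith
  -- (i)
  have hi : lam ≤ 2 * C1 * S := by
    have e1 := (abs_le.1 (hA y hMy')).1
    have e2 := B3a.A_le ha y
    have e3 : Real.sqrt (M * y) ≤ y := by
      rw [Real.sqrt_le_left hy0.le]
      nlinarith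
    have e4 : C1 * Real.sqrt (M * y) ≤ C1 * y := mul_le_mul_of_nonneg_left e3 (by linarith)
    have e5 : lam * y ≤ (S + C1) * y := by
      rw [← hS] at e2
      linarith
    have e6 : lam ≤ S + C1 := le_of_mul_le_mul_right e5 hy0
    nlinarith
  -- blocks
  set t0 := ⌈Real.sqrt y⌉₊ with ht0
  have hsq : Real.sqrt y ≤ t0 := Nat.le_ceil _
  have hsq0 : 1 ≤ Real.sqrt y := by
    rw [Real.one_le_sqrt]
    linarith
  have ht01 : (1 : ℝ) ≤ t0 := hsq0.trans hsq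
  have ht0n : 1 ≤ t0 := by exact_mod_cast ht01
  have hMt : M ≤ t0 := by
    refine le_trans ?_ hsq
    exact Real.le_sqrt_of_sq_le hMy
  have ht0up : (t0 : ℝ) ≤ 2 * Real.sqrt y := by
    have := Nat.ceil_lt_add_one (Real.sqrt_nonneg (y : ℝ))
    linarith
  have ht0y : t0 ≤ y := by
    apply Nat.ceil_le.2
    rw [Real.sqrt_le_left hy0.le]
    nlinarith
  set j := Nat.log 2 (y / t0) with hj
  have hq0 : y / t0 ≠ 0 := by
    rw [Nat.div_ne_zero_iff]
    omega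
  have hj1 : 2 ^ j * t0 ≤ y := by
    have := Nat.pow_log_le_self 2 hq0
    exact (Nat.mul_le_mul_right _ this).trans (Nat.div_mul_le_self _ _)
  have hj2 : y < 2 ^ (j + 1) * t0 := by
    have := Nat.lt_pow_succ_log_self (b := 2) (by norm_num) (y / t0)
    exact (Nat.div_lt_iff_lt_mul (by omega)).1 this
  have hm := B3a.main ha hM hC1 hA t0 ht0n hMt j
  have hm2 := B3a.S_mono ha hj1
  have hm3 : j * (lam / 2) ≤ S + 5 * C1 := by
    have : 0 ≤ 5 * C1 * (3 / 4 : ℝ) ^ j := by positivity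
    rw [← hS] at hm2
    linarith
  have hlog : Real.log y ≤ 1.4 * (j + 2) := by
    have e1 : Real.log y ≤ Real.log ((2 : ℝ) ^ (j + 1) * t0) := by
      apply Real.log_le_log hy0
      exact_mod_cast hj2.le
    have e2 : Real.log t0 ≤ Real.log 2 + 1 / 2 * Real.log y := by
      have : Real.log t0 ≤ Real.log (2 * Real.sqrt y) := Real.log_le_log (by linarith) ht0up
      rw [Real.log_mul (by norm_num) (by positivity), Real.log_sqrt hy0.le] at this
      linarith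
    rw [Real.log_mul (by positivity) (by positivity), Real.log_pow] at e1
    push_cast at e1
    have e3 := Real.log_two_lt_d9
    have e4 : (0 : ℝ) ≤ j := Nat.cast_nonneg j
    nlinarith
  have hC1S : C1 ≤ C1 * S := by nlinarith
  have hSC : S ≤ C1 * S := by nlinarith
  calc lam * Real.log y ≤ lam * (1.4 * (j + 2)) := mul_le_mul_of_nonneg_left hlog hlam
    _ = 2.8 * (j * (lam / 2)) + 2.8 * lam := by ring
    _ ≤ 2.8 * (S + 5 * C1) + 2.8 * (2 * C1 * S) := by linarith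
    _ ≤ 2.8 * (C1 * S + 5 * (C1 * S)) + 2.8 * (2 * C1 * S) := by linarith
    _ ≤ 23 * C1 * S := by nlinarith

end Pool.Agent.H951R4.OD
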