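import Pool.Agent.H951R4.OD.Defs
import Pool.Agent.H951R4.OD.B1

/-!
# The tail of the Dirichlet series
-/

set_option autoImplicit false

namespace Pool.Agent.H951R4.OD

open Finset

theorem b3b_block {a : ℕ → ℝ} (ha : ∀ n, 0 ≤ a n) {M lam C1 : ℝ} (hM : 1 ≤ M) (hlam : 0 ≤ lam)
    (hC1 : 1 ≤ C1)
    (hA : ∀ N : ℕ, M ≤ N → |∑ n ∈ Icc 1 N, a n - lam * N| ≤ C1 * Real.sqrt (M * N))
    {y X : ℕ} (hy : 1 ≤ y) (hMy : M ≤ y) (hyX : y ≤ X) {t : ℝ} (ht : 0 ≤ t) :
    ∑ n ∈ Ioc X (2 * X), a n * (n : ℝ) ^ (-(1 + t)) ≤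
      (X : ℝ) ^ (-t) * (3 * C1 * (lam + Real.sqrt (M / y))) := by
  have hX1 : 1 ≤ X := hy.trans hyX
  have hXr : (1 : ℝ) ≤ X := by exact_mod_cast hX1
  have hyr : (1 : ℝ) ≤ y := by exact_mod_cast hy
  have hyXr : (y : ℝ) ≤ X := by exact_mod_cast hyX
  have hX0 : (0 : ℝ) < X := by linarith
  have hy0 : (0 : ℝ) < y := by linarith
  -- the difference of the partial sums
  have hdiff : ∑ n ∈ Ioc X (2 * X), a n =
      ∑ n ∈ Icc 1 (2 * X), a n - ∑ n ∈ Icc 1 X, a n := by
    have h1 : Icc 1 (2 * X) = Icc 1 X ∪ Ioc X (2 * X) := by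
      ext n
      simp only [mem_Icc, mem_union, mem_Ioc]
      omega
    have h2 : Disjoint (Icc 1 X) (Ioc X (2 * X)) := by
      rw [Finset.disjoint_left]
      intro n h3 h4
      rw [mem_Icc] at h3
      rw [mem_Ioc] at h4
      omega
    rw [h1, Finset.sum_union h2]
    ring
  have h1 := hA (2 * X) (by push_cast; linarith)
  have h2 := hA X (by linarith)
  rw [abs_le] at h1 h2
  push_cast at h1
  have hs1 : Real.sqrt (M * (2 * X)) ≤ 3 / 2 * Real.sqrt (M * X) := by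
    rw [show M * (2 * (X : ℝ)) = 2 * (M * X) by ring,
      Real.sqrt_mul (by norm_num) (M * (X : ℝ))]
    apply mul_le_mul_of_nonneg_right _ (Real.sqrt_nonneg _)
    rw [Real.sqrt_le_left (by norm_num)]
    norm_num
  have hs2 : Real.sqrt (M * X) ≤ X * Real.sqrt (M / y) := by
    have h3 : M * (X : ℝ) ≤ (X : ℝ) ^ 2 * (M / y) := by
      rw [mul_div_assoc', le_div_iff₀ hy0]
      have : M * (X : ℝ) * y ≤ M * X * X := mul_le_mul_of_nonneg_left hyXr (by positivity)
      nlinarith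
    calc Real.sqrt (M * X) ≤ Real.sqrt ((X : ℝ) ^ 2 * (M / y)) := Real.sqrt_le_sqrt h3
      _ = X * Real.sqrt (M / y) := by
        rw [Real.sqrt_mul (by positivity), Real.sqrt_sq hX0.le]
  have hsum : ∑ n ∈ Ioc X (2 * X), a n ≤ X * (3 * C1 * (lam + Real.sqrt (M / y))) := by
    rw [hdiff]
    have h3 : ∑ n ∈ Icc 1 (2 * X), a n - ∑ n ∈ Icc 1 X, a n ≤
        lam * X + C1 * (Real.sqrt (M * (2 * X)) + Real.sqrt (M * X)) := by
      linarith [h1.2, h2.1]
    have h4 : C1 * (Real.sqrt (M * (2 * X)) + Real.sqrt (M * X)) ≤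
        C1 * (3 * (X * Real.sqrt (M / y))) := by
      apply mul_le_mul_of_nonneg_left _ (by linarith)
      linarith [Real.sqrt_nonneg (M * (X : ℝ))]
    have h5 : lam * X ≤ 3 * C1 * lam * X := by
      have : 0 ≤ lam * X := by positivity
      nlinarith
    calc _ ≤ lam * X + C1 * (3 * (X * Real.sqrt (M / y))) := by linarith
      _ ≤ 3 * C1 * lam * X + C1 * (3 * (X * Real.sqrt (M / y))) := by linarith
      _ = _ := by ring
  calc ∑ n ∈ Ioc X (2 * X), a n * (n : ℝ) ^ (-(1 + t))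
      ≤ ∑ n ∈ Ioc X (2 * X), a n * (X : ℝ) ^ (-(1 + t)) := by
        refine Finset.sum_le_sum fun n hn => mul_le_mul_of_nonneg_left ?_ (ha n)
        rw [mem_Ioc] at hn
        have h6 : (X : ℝ) ≤ n := by exact_mod_cast hn.1.le
        exact Real.rpow_le_rpow_of_nonpos hX0 h6 (by linarith)
    _ = (X : ℝ) ^ (-(1 + t)) * ∑ n ∈ Ioc X (2 * X), a n := by
        rw [← Finset.sum_mul, mul_comm]
    _ ≤ (X : ℝ) ^ (-(1 + t)) * (X * (3 * C1 * (lam + Real.sqrt (M / y)))) :=
        mul_le_mul_of_nonneg_left hsum (by positivity)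
    _ = _ := by
        have h7 : (X : ℝ) ^ (-(1 + t)) * X = (X : ℝ) ^ (-t) := by
          rw [← Real.rpow_add_one hX0.ne']
          congr 1
          ring
        rw [← mul_assoc, h7]

theorem b3b_geom {x : ℝ} (h0 : 0 < x) (h1 : x ≤ 1) (J : ℕ) :
    ∑ j ∈ range J, Real.exp (-x) ^ j ≤ 2 / x := by
  have he : Real.exp (-x) ≤ 1 / (1 + x) := by
    rw [Real.exp_neg, one_div]
    apply inv_anti₀ (by linarith)
    linarith [Real.add_one_le_exp x]
  have h2 : x / 2 ≤ 1 - Real.exp (-x) := by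
    have h3 : 1 / (1 + x) ≤ 1 - x / 2 := by
      rw [div_le_iff₀ (by linarith)]
      nlinarith
    linarith
  have h3 : Real.exp (-x) < 1 := by
    rw [Real.exp_lt_one_iff]
    linarith
  rw [geom_sum_eq h3.ne]
  have h4 : (Real.exp (-x) ^ J - 1) / (Real.exp (-x) - 1) =
      (1 - Real.exp (-x) ^ J) / (1 - Real.exp (-x)) := by
    rw [← neg_sub 1 (Real.exp (-x) ^ J), ← neg_sub 1 (Real.exp (-x)), neg_div_neg_eq]
  rw [h4, div_le_div_iff₀ (by linarith) h0]
  have h5 : 0 ≤ Real.exp (-x) ^ J := by positivity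
  nlinarith

/-- the tail of the Dirichlet series -/
theorem FF_tail : ∃ C : ℝ, 1 ≤ C ∧ ∀ (χ : ℕ → ℝ) (M : ℝ), Chi χ M → ∀ lam : ℝ, 0 ≤ lam →
    ∀ C1 : ℝ, 1 ≤ C1 →
    (∀ N : ℕ, M ≤ N → |∑ n ∈ Icc 1 N, rr χ n - lam * N| ≤ C1 * Real.sqrt (M * N)) →
    ∀ y z : ℕ, 3 ≤ y → M ^ 2 ≤ y → y ≤ z →
      FF χ (sg z) ≤ ∑ n ∈ Icc 1 y, rr χ n / n +
        C * C1 * (lam + Real.sqrt (M / y)) * Real.log z := by
  refine ⟨9, by norm_num, ?_⟩
  intro χ M hχ lam hlam C1 hC1 hA y z hy hMy hyz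
  have hM := hχ.one_le
  have hMy' : M ≤ y := by nlinarith
  have hz3 : (3 : ℝ) ≤ z := by exact_mod_cast hy.trans hyz
  have hl2 : 0 < Real.log 2 := Real.log_pos (by norm_num)
  have hlz : Real.log 2 ≤ Real.log z := Real.log_le_log (by norm_num) (by linarith)
  have hlz0 : 0 < Real.log z := by linarith
  set t : ℝ := 1 / Real.log z with ht
  have ht0 : 0 < t := by positivity
  have ha : ∀ n, 0 ≤ rr χ n := fun n => rr_nonneg hχ n
  set B : ℝ := 3 * C1 * (lam + Real.sqrt (M / y)) with hB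
  have hB0 : 0 ≤ B := by positivity
  set f : ℕ → ℝ := fun n => rr χ n * (n : ℝ) ^ (-(1 + t)) with hf
  have hf0 : ∀ n, 0 ≤ f n := fun n => mul_nonneg (ha n) (by positivity)
  set ρ : ℝ := Real.exp (-(Real.log 2 * t)) with hρ
  -- induction on the number of the blocks
  have key : ∀ J : ℕ, ∑ n ∈ Icc 1 (2 ^ J * y), f n ≤
      ∑ n ∈ Icc 1 y, rr χ n / n + B * ∑ j ∈ range J, ρ ^ j := by
    intro J
    induction J with
    | zero =>
      rw [pow_zero, one_mul, Finset.sum_range_zero, mul_zero, add_zero]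
      refine Finset.sum_le_sum fun n hn => ?_
      rw [mem_Icc] at hn
      have h1 : (1 : ℝ) ≤ n := by exact_mod_cast hn.1
      rw [hf, div_eq_mul_inv, ← Real.rpow_neg_one (n : ℝ)]
      exact mul_le_mul_of_nonneg_left
        (Real.rpow_le_rpow_of_exponent_le h1 (by linarith)) (ha n)
    | succ J ih =>
      have hX1 : 1 ≤ 2 ^ J * y := Nat.mul_pos (by positivity) (by omega)
      have e1 : 2 ^ (J + 1) * y = 2 * (2 ^ J * y) := by ring
      have e2 : Icc 1 (2 * (2 ^ J * y)) = Icc 1 (2 ^ J * y) ∪ Ioc (2 ^ J * y) (2 * (2 ^ J * y)) := by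
        ext n
        simp only [mem_Icc, mem_union, mem_Ioc]
        omega
      have e3 : Disjoint (Icc 1 (2 ^ J * y)) (Ioc (2 ^ J * y) (2 * (2 ^ J * y))) := by
        rw [Finset.disjoint_left]
        intro n h3 h4
        rw [mem_Icc] at h3
        rw [mem_Ioc] at h4
        omega
      rw [e1, e2, Finset.sum_union e3, Finset.sum_range_succ, mul_add]
      have h1 := b3b_block ha hM hlam hC1 hA (y := y) (X := 2 ^ J * y) (by omega) hMy'
        (Nat.le_mul_of_pos_left y (by positivity)) ht0.le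
      have h2 : (((2 ^ J * y : ℕ) : ℝ)) ^ (-t) ≤ ρ ^ J := by
        push_cast
        rw [Real.mul_rpow (by positivity) (by positivity)]
        have h3 : ((2 : ℝ) ^ J) ^ (-t) = ρ ^ J := by
          rw [hρ, ← Real.exp_nat_mul, ← Real.rpow_natCast 2 J, ← Real.rpow_mul (by norm_num),
            Real.rpow_def_of_pos (by norm_num)]
          congr 1
          ring
        have h4 : (y : ℝ) ^ (-t) ≤ 1 := by
          have hy1 : (1 : ℝ) ≤ y := by exact_mod_cast (by omega : 1 ≤ y)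
          exact Real.rpow_le_one_of_one_le_of_nonpos hy1 (by linarith)
        rw [h3]
        exact mul_le_of_le_one_right (by positivity) h4
      have h5 := mul_le_mul_of_nonneg_right h2 hB0
      have h6 : ∑ n ∈ Ioc (2 ^ J * y) (2 * (2 ^ J * y)), f n ≤ B * ρ ^ J := by
        rw [mul_comm B]
        exact h1.trans h5
      linarith
  have hx0 : 0 < Real.log 2 * t := by positivity
  have hx1 : Real.log 2 * t ≤ 1 := by
    rw [ht, mul_one_div, div_le_one hlz0]
    exact hlz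
  have hgeo : ∀ J : ℕ, ∑ j ∈ range J, ρ ^ j ≤ 3 * Real.log z := by
    intro J
    refine (b3b_geom hx0 hx1 J).trans ?_
    have h3 : 2 / (Real.log 2 * t) = 2 / Real.log 2 * Real.log z := by
      rw [ht]
      field_simp
    rw [h3]
    apply mul_le_mul_of_nonneg_right _ hlz0.le
    rw [div_le_iff₀ hl2]
    linarith [Real.log_two_gt_d9]
  have hfin : ∀ N : ℕ, ∑ n ∈ range N, f n ≤ ∑ n ∈ Icc 1 y, rr χ n / n +
        9 * C1 * (lam + Real.sqrt (M / y)) * Real.log z := by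
    intro N
    have hf00 : f 0 = 0 := by
      rw [hf]
      simp [rr]
    have h1 : ∑ n ∈ range N, f n ≤ ∑ n ∈ Icc 1 (2 ^ N * y), f n := by
      have h0 : (0 : ℕ) ∉ Icc 1 (2 ^ N * y) := by simp
      have h2 : ∑ n ∈ Icc 1 (2 ^ N * y), f n = ∑ n ∈ insert 0 (Icc 1 (2 ^ N * y)), f n := by
        rw [Finset.sum_insert h0, hf00, zero_add]
      rw [h2]
      refine Finset.sum_le_sum_of_subset_of_nonneg ?_ fun n _ _ => hf0 n
      intro n hn
      rw [mem_range] at hn
      rw [mem_insert, mem_Icc]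
      have h3 : N < 2 ^ N := Nat.lt_two_pow_self
      have h4 : 2 ^ N ≤ 2 ^ N * y := Nat.le_mul_of_pos_right _ (by omega)
      omega
    refine h1.trans ((key N).trans ?_)
    have h5 := mul_le_mul_of_nonneg_left (hgeo N) hB0
    have h6 : B * (3 * Real.log z) = 9 * C1 * (lam + Real.sqrt (M / y)) * Real.log z := by
      rw [hB]
      ring
    linarith
  unfold FF sg
  exact Real.tsum_le_of_sum_range_le hf0 hfin

end Pool.Agent.H951R4.OD
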