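import Pool.Agent.H951R4.OD.Defs
import Pool.Agent.H951R4.OD.B1
import Pool.Agent.H951R4.OD.B2
import Pool.Agent.H951R4.OD.B3a
import Pool.Agent.H951R4.OD.B3b

/-! Task B3 (helper311): comparison of the Dirichlet series at two points. -/

set_option autoImplicit false

namespace Pool.Agent.H951R4.OD

open Finset

theorem B3_term (y n : ℕ) (hy : 3 ≤ y) (hn : 1 ≤ n) (hny : n ≤ y) :
    1 / (n : ℝ) ≤ 3 * (n : ℝ) ^ (-(sg y)) := by
  have hn0 : (0 : ℝ) < n := by exact_mod_cast hn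
  have hy1 : (1 : ℝ) < y := by exact_mod_cast (by omega : 1 < y)
  have hly : 0 < Real.log y := Real.log_pos hy1
  have h1 : (n : ℝ) ^ (-(sg y)) = (1 / (n : ℝ)) * Real.exp (-(Real.log n / Real.log y)) := by
    unfold sg
    rw [show -(1 + 1 / Real.log (y : ℝ)) = -1 + -(1 / Real.log (y : ℝ)) by ring,
      Real.rpow_add hn0, Real.rpow_neg_one, Real.rpow_def_of_pos hn0 (-(1 / Real.log (y : ℝ))),
      show Real.log (n : ℝ) * -(1 / Real.log (y : ℝ)) = -(Real.log n / Real.log y) by ring, one_div]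
  rw [h1]
  have h2 : Real.log n / Real.log y ≤ 1 := by
    rw [div_le_one hly]
    exact Real.log_le_log hn0 (by exact_mod_cast hny)
  have h3 : Real.exp (-1) ≤ Real.exp (-(Real.log n / Real.log y)) := by
    apply Real.exp_le_exp.2; linarith
  have h4 : 1 ≤ 3 * Real.exp (-1) := by
    have h5 : Real.exp 1 < 3 := lt_trans Real.exp_one_lt_d9 (by norm_num)
    have h6 : Real.exp (-1) * Real.exp 1 = 1 := by rw [← Real.exp_add]; simp
    have h7 : 0 < Real.exp (-1) := Real.exp_pos _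
    nlinarith
  have h8 : 0 < 1 / (n : ℝ) := by positivity
  nlinarith [mul_le_mul_of_nonneg_left (le_trans h4 (mul_le_mul_of_nonneg_left h3 (by norm_num : (0:ℝ) ≤ 3))) h8.le]

theorem B3_sqrt (M : ℝ) (y : ℕ) (hy : 3 ≤ y) (hM : 1 ≤ M) (hMy : M ^ 2 ≤ y) :
    Real.sqrt (M / y) * Real.log y ≤ 4 := by
  have hy0 : (0 : ℝ) < y := by exact_mod_cast (by omega : 0 < y)
  set r := Real.sqrt y with hr
  set s := Real.sqrt r with hs
  have hr0 : 0 < r := Real.sqrt_pos.2 hy0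
  have hs0 : 0 < s := Real.sqrt_pos.2 hr0
  have hr2 : r ^ 2 = y := Real.sq_sqrt hy0.le
  have hs2 : s ^ 2 = r := Real.sq_sqrt hr0.le
  have hMr : M ≤ r := by
    rw [← hr2] at hMy
    exact le_of_sq_le_sq hMy hr0.le
  have h1 : M / y ≤ (1 / s) ^ 2 := by
    rw [div_pow, one_pow, hs2, ← hr2, div_le_div_iff₀ (by positivity) hr0]
    nlinarith
  have h2 : Real.sqrt (M / y) ≤ 1 / s := by
    rw [← Real.sqrt_sq (by positivity : (0:ℝ) ≤ 1 / s)]
    exact Real.sqrt_le_sqrt h1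
  have h3 : Real.log y = 4 * Real.log s := by
    rw [← hr2, ← hs2, ← pow_mul, Real.log_pow]; norm_num
  have h4 : Real.log s ≤ s := by
    have := Real.log_le_sub_one_of_pos hs0; linarith
  have h5 : 0 ≤ Real.log y := Real.log_nonneg (by exact_mod_cast (by omega : 1 ≤ y))
  calc Real.sqrt (M / y) * Real.log y ≤ (1 / s) * Real.log y := mul_le_mul_of_nonneg_right h2 h5
    _ = (1 / s) * (4 * Real.log s) := by rw [h3]
    _ ≤ (1 / s) * (4 * s) := by
        apply mul_le_mul_of_nonneg_left _ (by positivity); linarith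
    _ = 4 := by field_simp
where
  le_of_sq_le_sq {a b : ℝ} (h : a ^ 2 ≤ b ^ 2) (hb : 0 ≤ b) : a ≤ b := abs_le_of_sq_le_sq' h hb |>.2

theorem comp : ∃ C : ℝ, 3 ≤ C ∧ ∀ (χ : ℕ → ℝ) (M : ℝ), Chi χ M → ∀ y z : ℕ, C * M ^ 2 ≤ y →
    y ≤ z → FF χ (sg z) ≤ C * (Real.log z / Real.log y) * FF χ (sg y) := by
  obtain ⟨C1, hC1, H1⟩ := hyper
  obtain ⟨C2, hC2, H2⟩ := FF_tail
  obtain ⟨C3, hC3, H3⟩ := S_lower
  have hP : 0 ≤ C2 * C1 * (C3 * C1 + 4) := by positivity
  refine ⟨3 * (1 + C2 * C1 * (C3 * C1 + 4)), by linarith, ?_⟩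
  intro χ M h y z hy hyz
  obtain ⟨lam, hlam, Hlam⟩ := H1 χ M h
  have hM := h.one_le
  have hM2 : 1 ≤ M ^ 2 := by nlinarith
  have hy3r : (3 : ℝ) ≤ y := by nlinarith
  have hy3 : 3 ≤ y := by exact_mod_cast hy3r
  have hMy : M ^ 2 ≤ y := by nlinarith
  have hz3 : 3 ≤ z := le_trans hy3 hyz
  have hly : 0 < Real.log y := Real.log_pos (by linarith)
  have hlyz : Real.log y ≤ Real.log z :=
    Real.log_le_log (by linarith) (by exact_mod_cast hyz)
  have hlz : 0 < Real.log z := lt_of_lt_of_le hly hlyz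
  set S := ∑ n ∈ Icc 1 y, rr χ n / n with hS
  have hnn : ∀ n : ℕ, 0 ≤ rr χ n / (n : ℝ) := fun n => div_nonneg (rr_nonneg h n) (Nat.cast_nonneg n)
  have hS1 : 1 ≤ S := by
    have h1 : rr χ 1 / ((1 : ℕ) : ℝ) ≤ S :=
      Finset.single_le_sum (f := fun n : ℕ => rr χ n / (n : ℝ)) (fun n _ => hnn n)
        (Finset.mem_Icc.2 ⟨le_refl 1, by omega⟩)
    rw [rr_one h] at h1
    simpa using h1
  have hsg : 1 < sg y := by
    unfold sg
    have : 0 < 1 / Real.log (y : ℝ) := by positivity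
    linarith
  have hSF : S ≤ 3 * FF χ (sg y) := by
    have h1 : S ≤ ∑ n ∈ Icc 1 y, 3 * (rr χ n * (n : ℝ) ^ (-(sg y))) := by
      apply Finset.sum_le_sum
      intro n hn
      rw [Finset.mem_Icc] at hn
      have h2 := mul_le_mul_of_nonneg_left (B3_term y n hy3 hn.1 hn.2) (rr_nonneg h n)
      calc rr χ n / n = rr χ n * (1 / n) := by ring
        _ ≤ rr χ n * (3 * (n : ℝ) ^ (-(sg y))) := h2
        _ = _ := by ring
    rw [← Finset.mul_sum] at h1
    refine h1.trans (mul_le_mul_of_nonneg_left ?_ (by norm_num))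
    exact (FF_summable h (sg y) hsg).sum_le_tsum (Icc 1 y)
      (fun n _ => mul_nonneg (rr_nonneg h n) (Real.rpow_nonneg (Nat.cast_nonneg n) _))
  have h2 := H2 χ M h lam hlam C1 hC1 Hlam y z hy3 hMy hyz
  have h3 := H3 χ M h lam hlam C1 hC1 Hlam y hy3 hMy
  have h4 := B3_sqrt M y hy3 hM hMy
  set q := Real.log z / Real.log y with hq
  have hq1 : 1 ≤ q := by rw [hq, one_le_div hly]; exact hlyz
  have hzq : Real.log z = q * Real.log y := by rw [hq]; field_simp
  have h5 : lam * Real.log z ≤ q * (C3 * C1 * S) := by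
    rw [hzq]; nlinarith
  have h6 : Real.sqrt (M / y) * Real.log z ≤ q * (4 * S) := by
    rw [hzq]
    have : Real.sqrt (M / y) * Real.log y ≤ 4 * S := by linarith
    nlinarith
  have h7 : FF χ (sg z) ≤ q * (S * (1 + C2 * C1 * (C3 * C1 + 4))) := by
    have h8 : C2 * C1 * (lam + Real.sqrt (M / y)) * Real.log z ≤
        C2 * C1 * (q * (C3 * C1 * S) + q * (4 * S)) := by
      have : C2 * C1 * (lam + Real.sqrt (M / y)) * Real.log z =
          C2 * C1 * (lam * Real.log z + Real.sqrt (M / y) * Real.log z) := by ring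
      rw [this]
      exact mul_le_mul_of_nonneg_left (add_le_add h5 h6) (by positivity)
    have h9 : S ≤ q * S := by nlinarith
    calc FF χ (sg z) ≤ S + C2 * C1 * (lam + Real.sqrt (M / y)) * Real.log z := h2
      _ ≤ q * S + C2 * C1 * (q * (C3 * C1 * S) + q * (4 * S)) := add_le_add h9 h8
      _ = _ := by ring
  refine h7.trans ?_
  have h10 : S * (1 + C2 * C1 * (C3 * C1 + 4)) ≤
      (3 * FF χ (sg y)) * (1 + C2 * C1 * (C3 * C1 + 4)) :=
    mul_le_mul_of_nonneg_right hSF (by linarith)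
  calc q * (S * (1 + C2 * C1 * (C3 * C1 + 4)))
      ≤ q * ((3 * FF χ (sg y)) * (1 + C2 * C1 * (C3 * C1 + 4))) :=
        mul_le_mul_of_nonneg_left h10 (by linarith)
    _ = _ := by ring

end Pool.Agent.H951R4.OD
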