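import Pool.Agent.H951R4.OD.Defs

/-!
# Orders of difference sets: the Euler product of `FF` (task B4a)
-/

set_option autoImplicit false

namespace Pool.Agent.H951R4.OD

open Finset

namespace B4a

/-- the completely multiplicative function `χ(n) n^(-σ)` -/
noncomputable def hom (χ : ℕ → ℝ) (σ : ℝ) (h0 : χ 0 = 0) (h1 : χ 1 = 1)
    (hm : ∀ m n : ℕ, χ (m * n) = χ m * χ n) : ℕ →*₀ ℝ where
  toFun n := χ n * (n : ℝ) ^ (-σ)
  map_zero' := by simp [h0]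
  map_one' := by simp [h1]
  map_mul' m n := by
    rw [hm, Nat.cast_mul, Real.mul_rpow (Nat.cast_nonneg m) (Nat.cast_nonneg n)]
    ring

theorem summ (χ : ℕ → ℝ) (hχ : ∀ n, |χ n| ≤ 1) (σ : ℝ) (hσ : 1 < σ) :
    Summable (fun n : ℕ => ‖χ n * (n : ℝ) ^ (-σ)‖) := by
  have h : Summable (fun n : ℕ => (n : ℝ) ^ (-σ)) := Real.summable_nat_rpow.mpr (by linarith)
  refine Summable.of_nonneg_of_le (fun n => norm_nonneg _) (fun n => ?_) h
  have h0 : (0 : ℝ) ≤ (n : ℝ) ^ (-σ) := Real.rpow_nonneg (Nat.cast_nonneg n) _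
  rw [norm_mul, Real.norm_eq_abs, Real.norm_eq_abs, abs_of_nonneg h0]
  calc |χ n| * (n : ℝ) ^ (-σ) ≤ 1 * (n : ℝ) ^ (-σ) := mul_le_mul_of_nonneg_right (hχ n) h0
    _ = _ := one_mul _

theorem exp_eq (χ : ℕ → ℝ) (σ : ℝ) (hσ : 1 < σ) (h0 : χ 0 = 0) (h1 : χ 1 = 1)
    (hm : ∀ m n : ℕ, χ (m * n) = χ m * χ n) (hχ : ∀ n, |χ n| ≤ 1) :
    Real.exp (∑' q : Nat.Primes, -Real.log (1 - χ q * ((q : ℕ) : ℝ) ^ (-σ))) =
      ∑' n : ℕ, χ n * (n : ℝ) ^ (-σ) := by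
  have hs := summ χ hχ σ hσ
  have hprod := EulerProduct.eulerProduct_completely_multiplicative_hasProd
    (f := hom χ σ h0 h1 hm) hs
  have heq : ∀ q : Nat.Primes, (hom χ σ h0 h1 hm) q = χ q * ((q : ℕ) : ℝ) ^ (-σ) := fun _ => rfl
  have hlt : ∀ q : Nat.Primes, |χ q * ((q : ℕ) : ℝ) ^ (-σ)| < 1 := by
    intro q
    have hq : (2 : ℝ) ≤ ((q : ℕ) : ℝ) := by exact_mod_cast q.2.two_le
    have h2 : ((q : ℕ) : ℝ) ^ (-σ) < 1 :=
      Real.rpow_lt_one_of_one_lt_of_neg (by linarith) (by linarith)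
    have h3 : (0 : ℝ) ≤ ((q : ℕ) : ℝ) ^ (-σ) := Real.rpow_nonneg (by linarith) _
    rw [abs_mul, abs_of_nonneg h3]
    calc |χ q| * ((q : ℕ) : ℝ) ^ (-σ) ≤ 1 * ((q : ℕ) : ℝ) ^ (-σ) :=
          mul_le_mul_of_nonneg_right (hχ _) h3
      _ < 1 := by rw [one_mul]; exact h2
  have hsp : Summable (fun q : Nat.Primes => χ q * ((q : ℕ) : ℝ) ^ (-σ)) := by
    have := (Summable.of_norm hs).comp_injective
      (i := fun q : Nat.Primes => (q : ℕ)) Nat.Primes.coe_nat_injective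
    exact this
  have hsl : Summable (fun q : Nat.Primes => Real.log (1 - χ q * ((q : ℕ) : ℝ) ^ (-σ))) := by
    have := Real.summable_log_one_add_of_summable hsp.neg
    refine this.congr (fun q => ?_)
    rw [← sub_eq_add_neg]
  have hpos : ∀ q : Nat.Primes, 0 < (1 - χ q * ((q : ℕ) : ℝ) ^ (-σ))⁻¹ := by
    intro q
    have := (abs_lt.mp (hlt q)).2
    exact inv_pos.mpr (by linarith)
  have hlog : ∀ q : Nat.Primes, Real.log ((1 - χ q * ((q : ℕ) : ℝ) ^ (-σ))⁻¹) =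
      -Real.log (1 - χ q * ((q : ℕ) : ℝ) ^ (-σ)) := fun q => Real.log_inv _
  have h4 := Real.rexp_tsum_eq_tprod hpos (by
    refine hsl.neg.congr (fun q => ?_)
    rw [hlog])
  simp only [hlog] at h4
  rw [h4]
  exact hprod.tprod_eq

theorem conv_fib {χ : ℕ → ℝ} {M : ℝ} (h : Chi χ M) (σ : ℝ) (hσ : 1 < σ) (n : ℕ) :
    rr χ n * (n : ℝ) ^ (-σ) = ∑' b : (fun p : ℕ × ℕ => p.1 * p.2) ⁻¹' {n},
        χ b.val.1 * (b.val.1 : ℝ) ^ (-σ) * (b.val.2 : ℝ) ^ (-σ) := by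
  rcases eq_or_ne n 0 with rfl | hn
  · have hz : ∀ b : (fun p : ℕ × ℕ => p.1 * p.2) ⁻¹' {0},
        χ b.val.1 * (b.val.1 : ℝ) ^ (-σ) * (b.val.2 : ℝ) ^ (-σ) = 0 := by
      rintro ⟨⟨a, b⟩, hp⟩
      have hab : a * b = 0 := hp
      rcases Nat.mul_eq_zero.mp hab with h0 | h0
      · subst h0
        simp [h.zero]
      · subst h0
        simp [Real.zero_rpow (show -σ ≠ 0 by linarith)]
    simp only [hz, tsum_zero]
    simp [rr]
  · rw [show (fun p : ℕ × ℕ => p.1 * p.2) ⁻¹' {n} = (n.divisorsAntidiagonal : Set (ℕ × ℕ)) by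
        ext; simp [hn],
      Finset.tsum_subtype' n.divisorsAntidiagonal
        (fun p : ℕ × ℕ => χ p.1 * (p.1 : ℝ) ^ (-σ) * (p.2 : ℝ) ^ (-σ))]
    have e1 : ∀ p ∈ n.divisorsAntidiagonal,
        χ p.1 * (p.1 : ℝ) ^ (-σ) * (p.2 : ℝ) ^ (-σ) = χ p.1 * (n : ℝ) ^ (-σ) := by
      intro p hp
      have hpn := (Nat.mem_divisorsAntidiagonal.mp hp).1
      rw [← hpn, Nat.cast_mul, Real.mul_rpow (Nat.cast_nonneg _) (Nat.cast_nonneg _)]
      ring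
    rw [Finset.sum_congr rfl e1, ← Finset.sum_mul, rr]
    congr 1
    rw [Nat.sum_divisorsAntidiagonal (fun x _ => χ x)]

theorem conv {χ : ℕ → ℝ} {M : ℝ} (h : Chi χ M) (σ : ℝ) (hσ : 1 < σ)
    (hχ : ∀ n, |χ n| ≤ 1) :
    HasSum (fun n : ℕ => rr χ n * (n : ℝ) ^ (-σ))
      ((∑' n : ℕ, χ n * (n : ℝ) ^ (-σ)) * (∑' n : ℕ, (n : ℝ) ^ (-σ))) := by
  have ha := summ χ hχ σ hσ
  have hb : Summable (fun n : ℕ => (n : ℝ) ^ (-σ)) := Real.summable_nat_rpow.mpr (by linarith)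
  have hbn : Summable (fun n : ℕ => ‖(n : ℝ) ^ (-σ)‖) := hb.norm
  have hsum := summable_mul_of_summable_norm ha hbn
  have key := ((Summable.of_norm ha).hasSum.mul hb.hasSum hsum).tsum_fiberwise
    (fun p : ℕ × ℕ => p.1 * p.2)
  have hfun : (fun n : ℕ => rr χ n * (n : ℝ) ^ (-σ)) = fun n : ℕ =>
      ∑' b : (fun p : ℕ × ℕ => p.1 * p.2) ⁻¹' {n},
        χ b.val.1 * (b.val.1 : ℝ) ^ (-σ) * (b.val.2 : ℝ) ^ (-σ) := by
    funext n
    exact conv_fib h σ hσ n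
  rw [hfun]
  exact key

end B4a

theorem FF_exp {χ : ℕ → ℝ} {M : ℝ} (h : Chi χ M) (σ : ℝ) (hσ : 1 < σ) :
    FF χ σ = Real.exp (∑' q : Nat.Primes, -Real.log (1 - ((q : ℕ) : ℝ) ^ (-σ))) *
      Real.exp (∑' q : Nat.Primes, -Real.log (1 - χ q * ((q : ℕ) : ℝ) ^ (-σ))) := by
  have hχ : ∀ n, |χ n| ≤ 1 := by
    intro n
    rcases h.val n with h1 | h1 | h1 <;> rw [h1] <;> norm_num
  have e2 := B4a.exp_eq χ σ hσ h.zero h.one h.mul hχ
  have e1 : Real.exp (∑' q : Nat.Primes, -Real.log (1 - ((q : ℕ) : ℝ) ^ (-σ))) =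
      ∑' n : ℕ, (n : ℝ) ^ (-σ) := by
    have e3 := B4a.exp_eq (fun n => if n = 0 then 0 else 1) σ hσ (by simp) (by simp)
      (by
        intro m n
        by_cases hm : m = 0 <;> by_cases hn : n = 0 <;> simp [hm, hn])
      (by intro n; by_cases hn : n = 0 <;> simp [hn])
    have e4 : ∀ q : Nat.Primes, (if (q : ℕ) = 0 then (0 : ℝ) else 1) * ((q : ℕ) : ℝ) ^ (-σ) =
        ((q : ℕ) : ℝ) ^ (-σ) := by
      intro q
      rw [if_neg q.2.ne_zero, one_mul]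
    have e5 : ∀ n : ℕ, (if n = 0 then (0 : ℝ) else 1) * (n : ℝ) ^ (-σ) = (n : ℝ) ^ (-σ) := by
      intro n
      by_cases hn : n = 0
      · subst hn
        rw [if_pos rfl, zero_mul, Nat.cast_zero, Real.zero_rpow (by linarith)]
      · rw [if_neg hn, one_mul]
    simp only [e4, e5] at e3
    exact e3
  rw [e1, e2, mul_comm]
  exact (B4a.conv h σ hσ hχ).tsum_eq

end Pool.Agent.H951R4.OD
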