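import Pool.Agent.H951R4.OD.Defs
import Pool.Agent.Helper256.KM.Mertens

set_option autoImplicit false

namespace Pool.Agent.H951R4.OD

open Finset

lemma PI_zero (z : ℕ) : PI 0 z = (Finset.Icc 1 z).filter Nat.Prime := by
  unfold PI
  congr 1

lemma sum_PI_split (f : ℕ → ℝ) (y z : ℕ) (hyz : y ≤ z) :
    ∑ q ∈ PI 0 z, f q = ∑ q ∈ PI 0 y, f q + ∑ q ∈ PI y z, f q := by
  rw [← Finset.sum_union]
  · congr 1
    ext q
    simp only [PI, mem_union, mem_filter, mem_Ioc]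
    constructor
    · rintro ⟨⟨h1, h2⟩, h3⟩
      rcases Nat.lt_or_ge y q with h | h
      · exact Or.inr ⟨⟨h, h2⟩, h3⟩
      · exact Or.inl ⟨⟨h1, h⟩, h3⟩
    · rintro (⟨⟨h1, h2⟩, h3⟩ | ⟨⟨h1, h2⟩, h3⟩)
      · exact ⟨⟨h1, by omega⟩, h3⟩
      · exact ⟨⟨by omega, h2⟩, h3⟩
  · rw [Finset.disjoint_left]
    intro q h1 h2
    simp only [PI, mem_filter, mem_Ioc] at h1 h2
    omega

theorem mert_le : ∃ C : ℝ, 0 ≤ C ∧ ∀ z : ℕ, 3 ≤ z →
    |∑ q ∈ PI 0 z, (1 : ℝ) / q - Real.log (Real.log z)| ≤ C := by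
  obtain ⟨C, hC⟩ := Pool.Agent.Helper256.KM.mertens_inv
  refine ⟨C, (abs_nonneg _).trans (hC 3 le_rfl), fun z hz => ?_⟩
  rw [PI_zero]
  exact hC z hz

theorem mert_int : ∃ C : ℝ, 0 ≤ C ∧ ∀ y z : ℕ, 2 ≤ y → y ≤ z →
    |∑ q ∈ PI y z, (1 : ℝ) / q - Real.log (Real.log z / Real.log y)| ≤ C := by
  obtain ⟨C, hC0, hC⟩ := mert_le
  refine ⟨2 * C + 1 / 2 + |Real.log (Real.log 2)|, by positivity, fun y z hy hyz => ?_⟩
  have hly : Real.log y ≠ 0 := by
    have : (1 : ℝ) < y := by exact_mod_cast (by omega : 1 < y)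
    exact (Real.log_pos this).ne'
  have hlz : Real.log z ≠ 0 := by
    have : (1 : ℝ) < z := by exact_mod_cast (by omega : 1 < z)
    exact (Real.log_pos this).ne'
  rw [Real.log_div hlz hly]
  have hs := sum_PI_split (fun q => (1 : ℝ) / q) y z hyz
  have habs := abs_nonneg (Real.log (Real.log 2))
  rcases Nat.lt_or_ge 2 y with h2 | h2
  · have h3 := hC y (by omega)
    have h4 := hC z (by omega)
    rw [abs_le] at h3 h4 ⊢
    constructor <;> linarith
  · have hy2 : y = 2 := by omega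
    subst hy2
    have h5 : ∑ q ∈ PI 0 2, (1 : ℝ) / q = 1 / 2 := by
      have : PI 0 2 = {2} := by decide
      rw [this]
      simp
    rcases Nat.lt_or_ge 2 z with h6 | h6
    · have h4 := hC z (by omega)
      have h7 := neg_abs_le (Real.log (Real.log 2))
      have h8 := le_abs_self (Real.log (Real.log 2))
      rw [abs_le] at h4 ⊢
      push_cast
      constructor <;> linarith
    · have hz2 : z = 2 := by omega
      subst hz2
      have h9 : ∑ q ∈ PI 2 2, (1 : ℝ) / q = 0 := by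
        have : PI 2 2 = ∅ := by decide
        rw [this]
        simp
      rw [h9]
      simp only [sub_self, abs_zero]
      positivity

theorem mert_log : ∃ C : ℝ, 0 ≤ C ∧ ∀ z : ℕ, 2 ≤ z →
    ∑ q ∈ PI 0 z, Real.log q / q ≤ C * Real.log z := by
  obtain ⟨C, hC⟩ := Pool.Agent.Helper256.KM.mertens_log
  have hC0 : 0 ≤ C := (abs_nonneg _).trans (hC 1 le_rfl)
  have hl2 : 0 < Real.log 2 := Real.log_pos (by norm_num)
  refine ⟨1 + C / Real.log 2, by positivity, fun z hz => ?_⟩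
  have h1 := hC z (by omega)
  rw [PI_zero]
  have h2 : Real.log 2 ≤ Real.log z := Real.log_le_log (by norm_num) (by exact_mod_cast hz)
  have h3 : C ≤ C / Real.log 2 * Real.log z := by
    calc C = C / Real.log 2 * Real.log 2 := by field_simp
      _ ≤ _ := mul_le_mul_of_nonneg_left h2 (by positivity)
  rw [abs_le] at h1
  linarith [h1.2]

theorem sum_sq_inv : ∃ C : ℝ, 0 ≤ C ∧ ∀ S : Finset ℕ, ∑ q ∈ S, (1 : ℝ) / (q : ℝ) ^ 2 ≤ C := by
  have hs : Summable (fun n : ℕ => 1 / (n : ℝ) ^ 2) := Real.summable_one_div_nat_pow.2 (by norm_num)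
  exact ⟨∑' n : ℕ, 1 / (n : ℝ) ^ 2, tsum_nonneg fun n => by positivity,
    fun S => hs.sum_le_tsum S fun n _ => by positivity⟩

end Pool.Agent.H951R4.OD
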