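import Pool.Agent.H951R4.OD.Defs
import Pool.Agent.H951R4.OD.M

/-!
# B4b: the logarithm of the Euler factors against the sum over the primes
-/

set_option autoImplicit false

namespace Pool.Agent.H951R4.OD

open Finset

theorem B4b_log {t : ℝ} (ht : |t| ≤ 1 / 2) : |-Real.log (1 - t) - t| ≤ 2 * t ^ 2 := by
  have h := Real.abs_log_sub_add_sum_range_le (x := t) (by linarith) 1
  simp only [Finset.range_one, Finset.sum_singleton, zero_add, pow_one, Nat.cast_zero, div_one] at h
  have e : |-Real.log (1 - t) - t| = |t + Real.log (1 - t)| := by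
    rw [← abs_neg]; congr 1; ring
  rw [e]
  refine h.trans ?_
  rw [div_le_iff₀ (by linarith)]
  have h2 : |t| ^ (1 + 1) = t ^ 2 := by norm_num
  rw [h2]
  nlinarith [sq_nonneg t]

theorem B4b_exp (J : ℕ) : Real.exp (-(2 : ℝ) ^ J) ≤ (1 / 2) ^ J := by
  have h1 : ((1 / 2 : ℝ)) ^ J = Real.exp (-(J * Real.log 2)) := by
    rw [Real.exp_neg, Real.exp_nat_mul, Real.exp_log (by norm_num), one_div, inv_pow]
  rw [h1]
  apply Real.exp_le_exp.mpr
  have h2 : (J : ℝ) ≤ 2 ^ J := by exact_mod_cast (Nat.lt_two_pow_self (n := J)).le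
  have h3 : Real.log 2 ≤ 1 := by linarith [Real.log_two_lt_d9]
  have h4 : (J : ℝ) * Real.log 2 ≤ J * 1 := by gcongr
  linarith

theorem B4b_rpow {q : ℕ} (hq : 0 < q) (L : ℝ) :
    (q : ℝ) ^ (-(1 + 1 / L)) = 1 / q * Real.exp (-(Real.log q / L)) := by
  have hq' : (0 : ℝ) < q := by exact_mod_cast hq
  rw [Real.rpow_def_of_pos hq']
  have : Real.log q * -(1 + 1 / L) = -Real.log q + -(Real.log q / L) := by ring
  rw [this, Real.exp_add, Real.exp_neg, Real.exp_log hq', one_div]

theorem B4b_far {C : ℝ} (h : ∀ y z : ℕ, 2 ≤ y → y ≤ z →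
    |∑ q ∈ PI y z, (1 : ℝ) / q - Real.log (Real.log z / Real.log y)| ≤ C) {x : ℕ} (hx : 3 ≤ x)
    (J : ℕ) : ∑ q ∈ PI x (x ^ 2 ^ J), (q : ℝ) ^ (-(sg x)) ≤
      (Real.log 2 + C) * ∑ j ∈ range J, (1 / 2 : ℝ) ^ j := by
  have hxr : (1 : ℝ) < x := by exact_mod_cast (by omega : 1 < x)
  have hL : 0 < Real.log x := Real.log_pos hxr
  induction J with
  | zero => simp [PI]
  | succ J ih =>
    have hle : x ^ 2 ^ J ≤ x ^ 2 ^ (J + 1) :=
      Nat.pow_le_pow_right (by omega) (Nat.pow_le_pow_right (by omega) (by omega))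
    have hlex : x ≤ x ^ 2 ^ J := Nat.le_self_pow (by positivity) x
    have hsplit : PI x (x ^ 2 ^ (J + 1)) = PI x (x ^ 2 ^ J) ∪ PI (x ^ 2 ^ J) (x ^ 2 ^ (J + 1)) := by
      unfold PI
      rw [← Finset.filter_union, Finset.Ioc_union_Ioc_eq_Ioc hlex hle]
    have hdisj : Disjoint (PI x (x ^ 2 ^ J)) (PI (x ^ 2 ^ J) (x ^ 2 ^ (J + 1))) := by
      rw [Finset.disjoint_left]
      intro q h1 h2
      unfold PI at h1 h2
      rw [Finset.mem_filter, Finset.mem_Ioc] at h1 h2
      omega
    rw [hsplit, Finset.sum_union hdisj, Finset.sum_range_succ, mul_add]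
    refine add_le_add ih ?_
    have hm := h (x ^ 2 ^ J) (x ^ 2 ^ (J + 1)) (by omega) hle
    have hlog : Real.log ((x ^ 2 ^ (J + 1) : ℕ) : ℝ) / Real.log ((x ^ 2 ^ J : ℕ) : ℝ) = 2 := by
      push_cast
      rw [Real.log_pow, Real.log_pow]
      push_cast
      have : (2 : ℝ) ^ J ≠ 0 := by positivity
      field_simp
      ring
    rw [hlog] at hm
    have hm2 : ∑ q ∈ PI (x ^ 2 ^ J) (x ^ 2 ^ (J + 1)), (1 : ℝ) / q ≤ Real.log 2 + C := by
      have := (abs_le.mp hm).2
      linarith
    have hterm : ∀ q ∈ PI (x ^ 2 ^ J) (x ^ 2 ^ (J + 1)),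
        (q : ℝ) ^ (-(sg x)) ≤ (1 / 2) ^ J * (1 / q) := by
      intro q hq
      unfold PI at hq
      rw [Finset.mem_filter, Finset.mem_Ioc] at hq
      have hq0 : 0 < q := hq.2.pos
      have hq0' : (0 : ℝ) < q := by exact_mod_cast hq0
      rw [sg, B4b_rpow hq0, mul_comm]
      refine mul_le_mul_of_nonneg_right ?_ (by positivity)
      refine le_trans ?_ (B4b_exp J)
      apply Real.exp_le_exp.mpr
      apply neg_le_neg
      rw [le_div_iff₀ hL]
      have h3 : ((x ^ 2 ^ J : ℕ) : ℝ) < q := by exact_mod_cast hq.1.1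
      have h4 := Real.log_le_log (by positivity) h3.le
      push_cast at h4
      rw [Real.log_pow] at h4
      push_cast at h4
      exact h4
    calc ∑ q ∈ PI (x ^ 2 ^ J) (x ^ 2 ^ (J + 1)), (q : ℝ) ^ (-(sg x))
        ≤ ∑ q ∈ PI (x ^ 2 ^ J) (x ^ 2 ^ (J + 1)), (1 / 2) ^ J * (1 / (q : ℝ)) :=
          Finset.sum_le_sum hterm
      _ = (1 / 2) ^ J * ∑ q ∈ PI (x ^ 2 ^ J) (x ^ 2 ^ (J + 1)), (1 / (q : ℝ)) := by
          rw [Finset.mul_sum]
      _ ≤ (1 / 2) ^ J * (Real.log 2 + C) := by gcongr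
      _ = _ := by ring

theorem log_primes : ∃ C : ℝ, 0 ≤ C ∧ ∀ χ : ℕ → ℝ, (∀ n, |χ n| ≤ 1) → ∀ x : ℕ, 3 ≤ x →
    |∑' q : Nat.Primes, -Real.log (1 - χ q * ((q : ℕ) : ℝ) ^ (-(sg x))) -
      ∑ q ∈ PI 0 x, χ q / q| ≤ C := by
  classical
  obtain ⟨C1, hC1, h1⟩ := mert_int
  obtain ⟨C2, hC2, h2⟩ := mert_log
  obtain ⟨C3, hC3, h3⟩ := sum_sq_inv
  refine ⟨2 * C3 + C2 + 2 * (Real.log 2 + C1), by positivity, ?_⟩
  intro χ hχ x hx
  have hxr : (1 : ℝ) < x := by exact_mod_cast (by omega : 1 < x)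
  have hL : 0 < Real.log x := Real.log_pos hxr
  set C : ℝ := 2 * C3 + C2 + 2 * (Real.log 2 + C1) with hC
  set f : ℕ → ℝ := fun q => -Real.log (1 - χ q * (q : ℝ) ^ (-(sg x))) with hf
  set g : ℕ → ℝ := fun q => if q ∈ PI 0 x then χ q / q else 0 with hg
  -- pointwise bound
  have hpt : ∀ q : ℕ, q.Prime → |f q - g q| ≤ 2 * (1 / (q : ℝ) ^ 2) +
      ((if q ∈ PI 0 x then Real.log q / q / Real.log x else 0) +
        (if q ∈ PI 0 x then 0 else (q : ℝ) ^ (-(sg x)))) := by
    intro q hq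
    have hq2 : (2 : ℝ) ≤ q := by exact_mod_cast hq.two_le
    have hq0 : (0 : ℝ) < q := by linarith
    have hlq : 0 ≤ Real.log q := Real.log_nonneg (by linarith)
    have hpow : (q : ℝ) ^ (-(sg x)) = 1 / q * Real.exp (-(Real.log q / Real.log x)) :=
      B4b_rpow hq.pos _
    have he1 : Real.exp (-(Real.log q / Real.log x)) ≤ 1 := by
      rw [Real.exp_le_one_iff]
      have : 0 ≤ Real.log q / Real.log x := by positivity
      linarith
    have hpow0 : 0 ≤ (q : ℝ) ^ (-(sg x)) := by positivity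
    have hpow1 : (q : ℝ) ^ (-(sg x)) ≤ 1 / q := by
      rw [hpow]
      exact mul_le_of_le_one_right (by positivity) he1
    set t : ℝ := χ q * (q : ℝ) ^ (-(sg x)) with ht
    have htabs : |t| ≤ (q : ℝ) ^ (-(sg x)) := by
      rw [ht, abs_mul, abs_of_nonneg hpow0]
      exact mul_le_of_le_one_left hpow0 (hχ q)
    have hq12 : (1 : ℝ) / q ≤ 1 / 2 := by
      apply one_div_le_one_div_of_le (by norm_num) hq2
    have hl := B4b_log (t := t) (by linarith)
    have ht2 : t ^ 2 ≤ 1 / (q : ℝ) ^ 2 := by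
      have : |t| ^ 2 ≤ (1 / (q : ℝ)) ^ 2 := pow_le_pow_left₀ (abs_nonneg _) (htabs.trans hpow1) 2
      rw [sq_abs] at this
      calc t ^ 2 ≤ (1 / (q : ℝ)) ^ 2 := this
        _ = _ := by rw [div_pow, one_pow]
    have hfq : f q - g q = (-Real.log (1 - t) - t) + (t - g q) := by
      simp only [hf, ht]
      ring
    rw [hfq]
    refine (abs_add_le _ _).trans (add_le_add (hl.trans (by linarith)) ?_)
    by_cases hm : q ∈ PI 0 x
    · simp only [hg, if_pos hm, add_zero]
      have e1 : t - χ q / q = χ q * ((q : ℝ) ^ (-(sg x)) - 1 / q) := by rw [ht]; ring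
      rw [e1, abs_mul, hpow]
      have e2 : |1 / (q : ℝ) * Real.exp (-(Real.log q / Real.log x)) - 1 / q| =
          1 / q * (1 - Real.exp (-(Real.log q / Real.log x))) := by
        rw [abs_of_nonpos]
        · ring
        · have : 1 / (q : ℝ) * Real.exp (-(Real.log q / Real.log x)) ≤ 1 / q :=
            mul_le_of_le_one_right (by positivity) he1
          linarith
      rw [e2]
      have e3 : 1 - Real.exp (-(Real.log q / Real.log x)) ≤ Real.log q / Real.log x := by
        have := Real.add_one_le_exp (-(Real.log q / Real.log x))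
        linarith
      calc |χ q| * (1 / q * (1 - Real.exp (-(Real.log q / Real.log x))))
          ≤ 1 * (1 / q * (Real.log q / Real.log x)) := by
            apply mul_le_mul (hχ q) _ _ zero_le_one
            · gcongr
            · apply mul_nonneg (by positivity)
              linarith
        _ = _ := by ring
    · simp only [hg, if_neg hm, sub_zero, zero_add]
      exact htabs
  -- sums over finite sets of primes
  have hsum : ∀ T : Finset Nat.Primes, ∑ q ∈ T, |f q - g q| ≤ C := by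
    intro T
    set S : Finset ℕ := T.map ⟨fun q : Nat.Primes => (q : ℕ), Subtype.val_injective⟩ with hS
    have hSp : ∀ q ∈ S, q.Prime := by
      intro q hq
      rw [hS, Finset.mem_map] at hq
      obtain ⟨p, _, rfl⟩ := hq
      exact p.2
    have e1 : ∑ q ∈ T, |f q - g q| = ∑ q ∈ S, |f q - g q| := by
      rw [hS, Finset.sum_map]
      rfl
    rw [e1]
    refine (Finset.sum_le_sum (fun q hq => hpt q (hSp q hq))).trans ?_
    rw [Finset.sum_add_distrib, Finset.sum_add_distrib, ← Finset.mul_sum]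
    have s1 : 2 * ∑ q ∈ S, 1 / (q : ℝ) ^ 2 ≤ 2 * C3 := by
      have := h3 S
      linarith
    have s2 : ∑ q ∈ S, (if q ∈ PI 0 x then Real.log q / q / Real.log x else 0) ≤ C2 := by
      have hle : ∑ q ∈ S, (if q ∈ PI 0 x then Real.log q / q / Real.log x else 0) ≤
          ∑ q ∈ PI 0 x, Real.log q / q / Real.log x := by
        rw [← Finset.sum_filter]
        apply Finset.sum_le_sum_of_subset_of_nonneg
        · intro q hq
          exact (Finset.mem_filter.mp hq).2
        · intro q hq _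
          unfold PI at hq
          rw [Finset.mem_filter] at hq
          have : (1 : ℝ) ≤ q := by exact_mod_cast hq.2.one_lt.le
          have := Real.log_nonneg this
          positivity
      refine hle.trans ?_
      rw [← Finset.sum_div, div_le_iff₀ hL]
      exact h2 x (by omega)
    have s3 : ∑ q ∈ S, (if q ∈ PI 0 x then 0 else (q : ℝ) ^ (-(sg x))) ≤ 2 * (Real.log 2 + C1) := by
      obtain ⟨J, hJ⟩ : ∃ J : ℕ, ∀ q ∈ S, q ≤ x ^ 2 ^ J := by
        refine ⟨S.sup id, fun q hq => ?_⟩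
        have hle : q ≤ S.sup id := Finset.le_sup (f := id) hq
        have h5 : q < 2 ^ q := Nat.lt_two_pow_self
        have h6 : 2 ^ q ≤ 2 ^ 2 ^ q := Nat.pow_le_pow_right (by omega) h5.le
        have h7 : 2 ^ 2 ^ q ≤ x ^ 2 ^ q := Nat.pow_le_pow_left (by omega) _
        have h8 : x ^ 2 ^ q ≤ x ^ 2 ^ (S.sup id) :=
          Nat.pow_le_pow_right (by omega) (Nat.pow_le_pow_right (by omega) hle)
        omega
      have hle : ∑ q ∈ S, (if q ∈ PI 0 x then 0 else (q : ℝ) ^ (-(sg x))) ≤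
          ∑ q ∈ PI x (x ^ 2 ^ J), (q : ℝ) ^ (-(sg x)) := by
        have e2 : ∑ q ∈ S, (if q ∈ PI 0 x then 0 else (q : ℝ) ^ (-(sg x))) =
            ∑ q ∈ S.filter (fun q => q ∉ PI 0 x), (q : ℝ) ^ (-(sg x)) := by
          rw [Finset.sum_filter]
          apply Finset.sum_congr rfl
          intro q _
          by_cases hm : q ∈ PI 0 x
          · rw [if_pos hm, if_neg (by simpa using hm)]
          · rw [if_neg hm, if_pos hm]
        rw [e2]
        apply Finset.sum_le_sum_of_subset_of_nonneg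
        · intro q hq
          rw [Finset.mem_filter] at hq
          obtain ⟨hq1, hq2⟩ := hq
          have hp := hSp q hq1
          unfold PI at hq2 ⊢
          rw [Finset.mem_filter, Finset.mem_Ioc] at hq2 ⊢
          refine ⟨⟨?_, hJ q hq1⟩, hp⟩
          by_contra h9
          exact hq2 ⟨⟨hp.pos, by omega⟩, hp⟩
        · intro q _ _
          positivity
      refine hle.trans ((B4b_far h1 hx J).trans ?_)
      have hgeo : ∑ j ∈ range J, (1 / 2 : ℝ) ^ j ≤ 2 := by
        have := geom_sum_eq (x := (1 / 2 : ℝ)) (by norm_num) J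
        rw [this]
        have h10 : (0 : ℝ) ≤ (1 / 2) ^ J := by positivity
        rw [div_le_iff_of_neg (by norm_num)]
        linarith
      have hpos : 0 ≤ Real.log 2 + C1 := by positivity
      calc (Real.log 2 + C1) * ∑ j ∈ range J, (1 / 2 : ℝ) ^ j ≤ (Real.log 2 + C1) * 2 := by gcongr
        _ = _ := by ring
    rw [hC]
    linarith
  have hS1 : Summable (fun q : Nat.Primes => |f q - g q|) :=
    summable_of_sum_le (fun q => abs_nonneg _) hsum
  have hS2 : Summable (fun q : Nat.Primes => f q - g q) := hS1.of_abs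
  have hHS : HasSum (fun q : Nat.Primes => g q) (∑ q ∈ PI 0 x, χ q / q) := by
    have e1 : ∑ q ∈ (PI 0 x).subtype Nat.Prime, g q = ∑ q ∈ PI 0 x, χ q / q := by
      rw [Finset.sum_subtype_of_mem (fun q : ℕ => g q) (fun q hq => by
        unfold PI at hq
        exact (Finset.mem_filter.mp hq).2)]
      apply Finset.sum_congr rfl
      intro q hq
      simp only [hg, if_pos hq]
    rw [← e1]
    apply hasSum_sum_of_ne_finset_zero
    intro q hq
    have hq' : (q : ℕ) ∉ PI 0 x := fun h => hq (Finset.mem_subtype.mpr h)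
    simp only [hg, if_neg hq']
  have hSg : Summable (fun q : Nat.Primes => g q) := hHS.summable
  have hSf : Summable (fun q : Nat.Primes => f q) := by
    have := hS2.add hSg
    simpa using this
  rw [← hHS.tsum_eq, ← hSf.tsum_sub hSg]
  have hS1' : Summable (fun q : Nat.Primes => ‖f q - g q‖) := hS1
  refine (norm_tsum_le_tsum_norm hS1').trans ?_
  simp only [Real.norm_eq_abs]
  exact Real.tsum_le_of_sum_le (fun q => abs_nonneg _) hsum

end Pool.Agent.H951R4.OD
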