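import Pool.Agent.H951R4.OD.Defs
import Pool.Agent.H951R4.OD.B3
import Pool.Agent.H951R4.OD.B4a
import Pool.Agent.H951R4.OD.B4b
import Pool.Agent.H951R4.OD.M

/-!
# Orders of difference sets: Euler product and character sums over primes
-/

set_option autoImplicit false

namespace Pool.Agent.H951R4.OD

open Finset

theorem b4_sg_gt (x : ℕ) (hx : 3 ≤ x) : 1 < sg x := by
  have h1 : (1 : ℝ) < x := by exact_mod_cast (by omega : 1 < x)
  have h2 : 0 < Real.log x := Real.log_pos h1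
  unfold sg
  have : 0 < 1 / Real.log x := by positivity
  linarith

theorem b4_abs {χ : ℕ → ℝ} {M : ℝ} (h : Chi χ M) (n : ℕ) : |χ n| ≤ 1 := by
  rcases h.val n with h0 | h0 | h0 <;> rw [h0] <;> norm_num

theorem b4_split (y z : ℕ) (hyz : y ≤ z) (g : ℕ → ℝ) :
    ∑ q ∈ PI 0 z, g q = ∑ q ∈ PI 0 y, g q + ∑ q ∈ PI y z, g q := by
  have hd : Disjoint (PI 0 y) (PI y z) := by
    rw [Finset.disjoint_left]
    intro a ha hb
    simp only [PI, Finset.mem_filter, Finset.mem_Ioc] at ha hb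
    omega
  have hu : PI 0 z = PI 0 y ∪ PI y z := by
    ext a
    simp only [PI, Finset.mem_filter, Finset.mem_Ioc, Finset.mem_union]
    constructor
    · rintro ⟨⟨h1, h2⟩, h3⟩
      by_cases h : a ≤ y
      · exact Or.inl ⟨⟨h1, h⟩, h3⟩
      · exact Or.inr ⟨⟨by omega, h2⟩, h3⟩
    · rintro (⟨⟨h1, h2⟩, h3⟩ | ⟨⟨h1, h2⟩, h3⟩)
      · exact ⟨⟨h1, by omega⟩, h3⟩
      · exact ⟨⟨by omega, h2⟩, h3⟩
  rw [hu, Finset.sum_union hd]

theorem euler : ∃ C : ℝ, 0 ≤ C ∧ ∀ (χ : ℕ → ℝ) (M : ℝ), Chi χ M → ∀ x : ℕ, 3 ≤ x →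
    0 < FF χ (sg x) ∧ |Real.log (FF χ (sg x)) - ∑ q ∈ PI 0 x, (1 + χ q) / q| ≤ C := by
  obtain ⟨C, hC, H⟩ := log_primes
  refine ⟨2 * C, by linarith, ?_⟩
  intro χ M h x hx
  have hsg := b4_sg_gt x hx
  have hF := FF_exp h (sg x) hsg
  have h1 := H (fun _ => 1) (fun n => by norm_num) x hx
  have h2 := H χ (b4_abs h) x hx
  simp only [one_mul] at h1
  refine ⟨?_, ?_⟩
  · rw [hF]; positivity
  · rw [hF, Real.log_mul (Real.exp_ne_zero _) (Real.exp_ne_zero _), Real.log_exp, Real.log_exp]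
    have hs : ∑ q ∈ PI 0 x, (1 + χ q) / q = ∑ q ∈ PI 0 x, (1 : ℝ) / q + ∑ q ∈ PI 0 x, χ q / q := by
      rw [← Finset.sum_add_distrib]
      refine Finset.sum_congr rfl fun q _ => ?_
      rw [add_div]
    rw [hs]
    rw [abs_le] at h1 h2 ⊢
    constructor <;> linarith [h1.1, h1.2, h2.1, h2.2]

theorem char_sum_le : ∃ C : ℝ, 3 ≤ C ∧ ∀ (χ : ℕ → ℝ) (M : ℝ), Chi χ M → ∀ y z : ℕ,
    C * M ^ 2 ≤ y → y ≤ z → ∑ q ∈ PI y z, χ q / q ≤ C := by
  obtain ⟨Ce, hCe, He⟩ := euler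
  obtain ⟨Cc, hCc, Hc⟩ := comp
  obtain ⟨Cm, hCm, Hm⟩ := mert_int
  have hlogC : 0 ≤ Real.log Cc := Real.log_nonneg (by linarith)
  refine ⟨Cc + 2 * Ce + Cm + Real.log Cc, by linarith, ?_⟩
  intro χ M h y z hy hyz
  have hM1 : 1 ≤ M ^ 2 := one_le_pow₀ h.one_le
  have hyc : Cc * M ^ 2 ≤ y := by
    refine le_trans ?_ hy
    apply mul_le_mul_of_nonneg_right _ (by positivity)
    linarith
  have hy3 : (3 : ℝ) ≤ y := by nlinarith
  have hy3n : 3 ≤ y := by exact_mod_cast hy3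
  have hz3n : 3 ≤ z := le_trans hy3n hyz
  have hy0 : (1 : ℝ) < y := by linarith
  have hz0 : (1 : ℝ) < z := by exact_mod_cast (by omega : 1 < z)
  have hly : 0 < Real.log y := Real.log_pos hy0
  have hlz : 0 < Real.log z := Real.log_pos hz0
  obtain ⟨hFy, hEy⟩ := He χ M h y hy3n
  obtain ⟨hFz, hEz⟩ := He χ M h z hz3n
  have hcmp := Hc χ M h y z hyc hyz
  have hlog : Real.log (FF χ (sg z)) ≤
      Real.log Cc + Real.log (Real.log z / Real.log y) + Real.log (FF χ (sg y)) := by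
    have hCpos : 0 < Cc := by linarith
    have hq : 0 < Real.log z / Real.log y := by positivity
    calc Real.log (FF χ (sg z)) ≤ Real.log (Cc * (Real.log z / Real.log y) * FF χ (sg y)) :=
          Real.log_le_log hFz hcmp
      _ = _ := by
          rw [Real.log_mul (by positivity) hFy.ne', Real.log_mul hCpos.ne' hq.ne']
  have hm := Hm y z (by omega) hyz
  have hs := b4_split y z hyz (fun q => (1 + χ q) / (q : ℝ))
  have hs2 : ∑ q ∈ PI y z, (1 + χ q) / (q : ℝ) =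
      ∑ q ∈ PI y z, (1 : ℝ) / q + ∑ q ∈ PI y z, χ q / q := by
    rw [← Finset.sum_add_distrib]
    refine Finset.sum_congr rfl fun q _ => ?_
    rw [add_div]
  rw [abs_le] at hEy hEz hm
  linarith [hEy.1, hEy.2, hEz.1, hEz.2, hm.1, hm.2]

end Pool.Agent.H951R4.OD
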