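import Pool.Agent.H951R4.OD.Defs
import Pool.Agent.H474R2.GE.FA

/-!
# Character sums over primes for a fixed nonsquare (task B6, helper819)
-/

set_option autoImplicit false

namespace Pool.Agent.H951R4.OD

open Finset Polynomial
open Pool.Agent.H474R2.PG (rho PR Sg)

theorem b6_PR (z : ℕ) : PR (z : ℝ) = PI 0 z := by
  unfold PR PI
  rw [Nat.floor_natCast]
  ext p
  simp only [mem_filter, mem_Icc, mem_Ioc]
  constructor
  · rintro ⟨⟨h1, h2⟩, h3⟩
    exact ⟨⟨by omega, h2⟩, h3⟩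
  · rintro ⟨⟨h1, h2⟩, h3⟩
    exact ⟨⟨by omega, h2⟩, h3⟩

theorem b6_rho_X (p : ℕ) (hp : p.Prime) : rho (X : ℤ[X]) p = 1 := by
  unfold rho
  rw [Finset.card_eq_one]
  refine ⟨0, ?_⟩
  ext a
  rw [mem_filter, mem_range, mem_singleton, eval_X, Int.natCast_dvd_natCast]
  constructor
  · rintro ⟨h1, h2⟩
    rcases Nat.eq_zero_or_pos a with h | h
    · exact h
    · exact absurd (Nat.le_of_dvd h h2) (not_le.2 h1)
  · rintro rfl
    exact ⟨hp.pos, dvd_zero _⟩

theorem b6_mert : ∃ C : ℝ, 0 ≤ C ∧ ∀ z : ℕ, 3 ≤ z →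
    |∑ q ∈ PI 0 z, (1 : ℝ) / q - Real.log (Real.log z)| ≤ C := by
  obtain ⟨C, hC0, hC⟩ := Pool.Agent.H474R2.GE.mertens_rho (X : ℤ[X]) Polynomial.irreducible_X
    (by rw [natDegree_X]; norm_num)
  refine ⟨C, hC0, fun z hz => ?_⟩
  have h := hC z (by exact_mod_cast hz)
  have e : Sg (rho (X : ℤ[X])) z = ∑ q ∈ PI 0 z, (1 : ℝ) / q := by
    unfold Sg
    rw [b6_PR]
    refine Finset.sum_congr rfl fun q hq => ?_
    rw [b6_rho_X q (mem_filter.1 hq).2, Nat.cast_one]
  rwa [e] at h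

theorem b6_irr (D : ℤ) (hD : ¬ IsSquare D) : Irreducible (X ^ 2 - C D : ℤ[X]) := by
  have hm : (X ^ 2 - C D : ℤ[X]).Monic := monic_X_pow_sub_C D (by norm_num)
  have hd : (X ^ 2 - C D : ℤ[X]).natDegree = 2 := natDegree_X_pow_sub_C
  rw [hm.irreducible_iff_roots_eq_zero_of_degree_le_three (by omega) (by omega)]
  rw [Multiset.eq_zero_iff_forall_notMem]
  intro a ha
  have h := isRoot_of_mem_roots ha
  rw [IsRoot.def, eval_sub, eval_pow, eval_X, eval_C] at h
  exact hD ⟨a, by linarith [sq a]⟩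

theorem b6_rho (D : ℤ) (p : ℕ) (hp : p.Prime) (h2 : p ≠ 2) :
    (rho (X ^ 2 - C D : ℤ[X]) p : ℝ) = 1 + ch D p := by
  haveI := Fact.mk hp
  have h := legendreSym.card_sqrts p h2 D
  have hodd : p % 2 = 1 := by
    rcases hp.eq_two_or_odd with h | h
    · exact absurd h h2
    · exact h
  have hc : rho (X ^ 2 - C D : ℤ[X]) p = {x : ZMod p | x ^ 2 = D}.toFinset.card := by
    unfold rho
    refine Finset.card_bij (fun a _ => (a : ZMod p)) ?_ ?_ ?_
    · intro a ha
      rw [mem_filter] at ha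
      rw [Set.mem_toFinset, Set.mem_setOf_eq]
      have h1 := ha.2
      rw [eval_sub, eval_pow, eval_X, eval_C, ← ZMod.intCast_zmod_eq_zero_iff_dvd] at h1
      push_cast at h1
      exact sub_eq_zero.1 h1
    · intro a ha b hb hab
      rw [mem_filter, mem_range] at ha hb
      have h1 := (ZMod.natCast_eq_natCast_iff' a b p).1 hab
      rwa [Nat.mod_eq_of_lt ha.1, Nat.mod_eq_of_lt hb.1] at h1
    · intro x hx
      rw [Set.mem_toFinset, Set.mem_setOf_eq] at hx
      refine ⟨x.val, ?_, ZMod.natCast_zmod_val x⟩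
      rw [mem_filter, mem_range]
      refine ⟨ZMod.val_lt x, ?_⟩
      rw [eval_sub, eval_pow, eval_X, eval_C, ← ZMod.intCast_zmod_eq_zero_iff_dvd]
      push_cast
      rw [ZMod.natCast_zmod_val, hx, sub_self]
  have hch : ch D p = (legendreSym p D : ℤ) := by
    unfold ch
    rw [if_pos hodd, jacobiSym.legendreSym.to_jacobiSym]
  rw [hch, hc]
  have h3 : (({x : ZMod p | x ^ 2 = D}.toFinset.card : ℤ) : ℝ) = ((legendreSym p D + 1 : ℤ) : ℝ) := by
    exact_mod_cast h
  push_cast at h3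
  rw [h3, add_comm]

theorem char_sum_fixed (D : ℤ) (hD : ¬ IsSquare D) : ∃ C : ℝ, 0 ≤ C ∧ ∀ y z : ℕ,
    |∑ q ∈ PI y z, ch D q / q| ≤ C := by
  obtain ⟨C1, hC10, hC1⟩ := Pool.Agent.H474R2.GE.mertens_rho (X ^ 2 - C D : ℤ[X]) (b6_irr D hD)
    (by rw [natDegree_X_pow_sub_C]; norm_num)
  obtain ⟨C2, hC20, hC2⟩ := b6_mert
  set S : ℕ → ℝ := fun z => ∑ q ∈ PI 0 z, ch D q / q with hS
  set E : ℝ := |((rho (X ^ 2 - C D : ℤ[X]) 2 : ℝ) - 1 - ch D 2) / 2| with hE
  have hE0 : 0 ≤ E := abs_nonneg _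
  have hbig : ∀ z : ℕ, 3 ≤ z → |S z| ≤ C1 + C2 + E := by
    intro z hz
    have h1 := hC1 z (by exact_mod_cast hz)
    have h2 := hC2 z hz
    have e : S z = Sg (rho (X ^ 2 - C D : ℤ[X])) z - ∑ q ∈ PI 0 z, (1 : ℝ) / q -
        ((rho (X ^ 2 - C D : ℤ[X]) 2 : ℝ) - 1 - ch D 2) / 2 := by
      have h3 : Sg (rho (X ^ 2 - C D : ℤ[X])) z - ∑ q ∈ PI 0 z, (1 : ℝ) / q - S z =
          ∑ q ∈ PI 0 z, ((rho (X ^ 2 - C D : ℤ[X]) q : ℝ) - 1 - ch D q) / q := by
        unfold Sg
        rw [b6_PR, hS, ← Finset.sum_sub_distrib, ← Finset.sum_sub_distrib]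
        refine Finset.sum_congr rfl fun q _ => ?_
        ring
      have h4 : ∑ q ∈ PI 0 z, ((rho (X ^ 2 - C D : ℤ[X]) q : ℝ) - 1 - ch D q) / q =
          ((rho (X ^ 2 - C D : ℤ[X]) 2 : ℝ) - 1 - ch D 2) / 2 := by
        rw [Finset.sum_eq_single 2]
        · norm_num
        · intro q hq hq2
          rw [b6_rho D q (mem_filter.1 hq).2 hq2]
          ring
        · intro h
          exfalso
          apply h
          unfold PI
          rw [mem_filter, mem_Ioc]
          exact ⟨⟨by norm_num, by omega⟩, Nat.prime_two⟩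
      linarith
    rw [e]
    rw [abs_le] at h1 h2 ⊢
    have h3 := abs_le.1 (le_of_eq hE.symm)
    constructor <;> linarith [h3.1, h3.2]
  set C3 : ℝ := |S 0| + |S 1| + |S 2| with hC3
  have hC30 : 0 ≤ C3 := by positivity
  have hall : ∀ z : ℕ, |S z| ≤ C1 + C2 + E + C3 := by
    intro z
    rcases Nat.lt_or_ge z 3 with h | h
    · have h0 := abs_nonneg (S 0)
      have h1 := abs_nonneg (S 1)
      have h2 := abs_nonneg (S 2)
      interval_cases z <;> linarith
    · have := hbig z h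
      linarith
  refine ⟨2 * (C1 + C2 + E + C3), by positivity, fun y z => ?_⟩
  rcases le_total z y with h | h
  · have h1 : PI y z = ∅ := by
      unfold PI
      rw [Finset.Ioc_eq_empty (by omega), Finset.filter_empty]
    rw [h1, Finset.sum_empty, abs_zero]
    positivity
  · have h1 : S z = S y + ∑ q ∈ PI y z, ch D q / q := by
      rw [hS]
      simp only
      rw [← Finset.sum_union]
      · refine Finset.sum_congr ?_ fun _ _ => rfl
        unfold PI
        rw [← Finset.filter_union, Finset.Ioc_union_Ioc_eq_Ioc (by omega) h]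
      · unfold PI
        apply Finset.disjoint_filter_filter
        rw [Finset.disjoint_left]
        intro a ha hb
        rw [mem_Ioc] at ha hb
        omega
    have h2 : ∑ q ∈ PI y z, ch D q / q = S z - S y := by linarith
    rw [h2]
    have h3 := abs_sub (S z) (S y)
    linarith [hall z, hall y]

end Pool.Agent.H951R4.OD
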