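import Pool.Agent.H951R4.OD.Defs
import Pool.Agent.H951R4.OD.A1
import Pool.Agent.H951R4.OD.A3
import Pool.Agent.H951R4.OD.B4

/-!
# Orders of difference sets: primes modulo which the elements of `ps` are residues
-/

set_option autoImplicit false

namespace Pool.Agent.H951R4.OD

open Finset

namespace C1aux

theorem mem_PI {y z q : ℕ} : q ∈ PI y z ↔ (y < q ∧ q ≤ z) ∧ q.Prime := by
  unfold PI
  rw [mem_filter, mem_Ioc]

theorem mem_Good {ps : Finset ℕ} {y z q : ℕ} :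
    q ∈ Good ps y z ↔ q ∈ PI y z ∧ ∀ p ∈ ps, ch p q ≠ -1 := by
  unfold Good
  rw [mem_filter]

theorem ch_abs (D : ℤ) (n : ℕ) : -1 ≤ ch D n ∧ ch D n ≤ 1 := by
  rcases ch_val D n with h | h | h <;> rw [h] <;> constructor <;> norm_num

theorem ch_one (n : ℕ) (hn : n % 2 = 1) : ch 1 n = 1 := by
  unfold ch
  rw [if_pos hn, jacobiSym.one_left]
  norm_num

theorem one_add_nonneg {e : ℝ} (he : e = 0 ∨ e = 1) (D : ℤ) (n : ℕ) : 0 ≤ 1 + e * ch D n := by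
  have := ch_abs D n
  rcases he with rfl | rfl
  · norm_num
  · linarith

/-- the indicator bound -/
theorem ind_le (ps : Finset ℕ) (hps : ∀ p ∈ ps, p.Prime) {y z q : ℕ} (hq : q ∈ PI y z)
    (hy : ∀ p ∈ ps, p ≤ y) (hy2 : 2 ≤ y) :
    (if ∀ p ∈ ps, ch p q ≠ -1 then (1 : ℝ) else 0) ≤ (1 / 2) ^ ps.card *
      ∑ S ∈ ps.powerset, ch (((∏ p ∈ S, p : ℕ) : ℕ) : ℤ) q := by
  obtain ⟨⟨hyq, -⟩, hqp⟩ := mem_PI.1 hq
  have hq2 : q ≠ 2 := by omega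
  have hodd : q % 2 = 1 := by
    rcases hqp.eq_two_or_odd with h | h
    · exact absurd h hq2
    · exact h
  have e1 : ∑ S ∈ ps.powerset, ch (((∏ p ∈ S, p : ℕ) : ℕ) : ℤ) q =
      ∏ p ∈ ps, (1 + ch (p : ℤ) q) := by
    rw [Finset.prod_one_add]
    exact Finset.sum_congr rfl (fun S _ => ch_prod_left S q hodd)
  rw [e1]
  have hval : ∀ p ∈ ps, ch (p : ℤ) q = 1 ∨ ch (p : ℤ) q = -1 := by
    intro p hp
    rcases ch_val (p : ℤ) q with h | h | h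
    · exact absurd h (ch_prime_ne_zero p q (hps p hp) hqp hq2 (by
        have := hy p hp
        omega))
    · exact Or.inl h
    · exact Or.inr h
  split_ifs with hG
  · have e2 : ∏ p ∈ ps, (1 + ch (p : ℤ) q) = 2 ^ ps.card := by
      rw [← Finset.prod_const]
      refine Finset.prod_congr rfl (fun p hp => ?_)
      rcases hval p hp with h | h
      · rw [h]; norm_num
      · exact absurd h (hG p hp)
    rw [e2, ← mul_pow]
    norm_num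
  · refine mul_nonneg (by positivity) (Finset.prod_nonneg (fun p _ => ?_))
    linarith [(ch_abs (p : ℤ) q).1]

theorem prod_pos' {S : Finset ℕ} (h : ∀ p ∈ S, p.Prime) : 0 < ∏ p ∈ S, p :=
  Finset.prod_pos (fun p hp => (h p hp).pos)

end C1aux

open C1aux in
theorem allowed_upper (Δ : ℤ) (hΔ : Δ < 0) (e : ℝ) (he : e = 0 ∨ e = 1) : ∃ C : ℝ, 3 ≤ C ∧
    ∀ ps : Finset ℕ, (∀ p ∈ ps, p.Prime) → ∀ y z : ℕ, C * (∏ p ∈ ps, (p : ℝ)) ^ 2 ≤ y → y ≤ z →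
      ∑ q ∈ Good ps y z, (1 + e * ch Δ q) / q ≤
        (1 / 2) ^ ps.card * ∑ q ∈ PI y z, (1 : ℝ) / q + C := by
  obtain ⟨C5, hC5, hcs⟩ := char_sum_le
  have hΔ1 : (1 : ℝ) ≤ (Δ : ℝ) ^ 2 := by
    have h1 : (Δ : ℝ) ≤ -1 := by exact_mod_cast (by omega : Δ ≤ -1)
    nlinarith
  refine ⟨16 * (Δ : ℝ) ^ 2 * C5 + 3 + 2 * C5, by nlinarith, ?_⟩
  intro ps hps y z hCy hyz
  have hPr0 : 0 < ∏ p ∈ ps, p := prod_pos' hps
  have hPrR : (∏ p ∈ ps, (p : ℝ)) = ((∏ p ∈ ps, p : ℕ) : ℝ) := by push_cast; rfl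
  rw [hPrR] at hCy
  have hPr1 : (1 : ℝ) ≤ ((∏ p ∈ ps, p : ℕ) : ℝ) := by exact_mod_cast hPr0
  obtain ⟨Pr, hPrdef⟩ : ∃ Pr : ℕ, Pr = ∏ p ∈ ps, p := ⟨_, rfl⟩
  rw [← hPrdef] at hCy hPr1 hPr0
  have hPrsq : (Pr : ℝ) ≤ (Pr : ℝ) ^ 2 := by nlinarith
  have hPrsq1 : (1 : ℝ) ≤ (Pr : ℝ) ^ 2 := by nlinarith
  have hC0 : 0 ≤ 16 * (Δ : ℝ) ^ 2 * C5 := by positivity
  have hyPr : Pr ≤ y := by
    have : (Pr : ℝ) ≤ y := by nlinarith
    exact_mod_cast this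
  have hy3 : 3 ≤ y := by
    have : (3 : ℝ) ≤ y := by nlinarith
    exact_mod_cast this
  have hy : ∀ p ∈ ps, p ≤ y := by
    intro p hp
    have : p ∣ Pr := by rw [hPrdef]; exact Finset.dvd_prod_of_mem _ hp
    exact (Nat.le_of_dvd hPr0 this).trans hyPr
  -- the character sums
  have hch : ∀ D : ℤ, ¬ IsSquare D → |(D : ℝ)| ≤ |(Δ : ℝ)| * Pr →
      ∑ q ∈ PI y z, ch D q / q ≤ C5 := by
    intro D hD hDle
    refine hcs (ch D) (4 * |(D : ℝ)|) (ch_chi D hD) y z ?_ hyz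
    have h1 : |(D : ℝ)| ^ 2 ≤ (|(Δ : ℝ)| * Pr) ^ 2 := pow_le_pow_left₀ (abs_nonneg _) hDle 2
    rw [mul_pow, sq_abs (Δ : ℝ)] at h1
    have h2 : C5 * (4 * |(D : ℝ)|) ^ 2 ≤ 16 * (Δ : ℝ) ^ 2 * C5 * (Pr : ℝ) ^ 2 := by
      have : C5 * (4 * |(D : ℝ)|) ^ 2 = 16 * C5 * |(D : ℝ)| ^ 2 := by ring
      rw [this]
      calc 16 * C5 * |(D : ℝ)| ^ 2 ≤ 16 * C5 * ((Δ : ℝ) ^ 2 * (Pr : ℝ) ^ 2) :=
            mul_le_mul_of_nonneg_left h1 (by linarith)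
        _ = _ := by ring
    refine h2.trans (le_trans ?_ hCy)
    apply mul_le_mul_of_nonneg_right _ (by positivity)
    linarith
  have heC : ∀ X : ℝ, X ≤ C5 → e * X ≤ C5 := by
    intro X hX
    rcases he with h | h
    · rw [h, zero_mul]; linarith
    · rw [h, one_mul]; exact hX
  -- the terms
  have hterm : ∀ S ∈ ps.powerset, ∑ q ∈ PI y z, ch (((∏ p ∈ S, p : ℕ) : ℕ) : ℤ) q *
      ((1 + e * ch Δ q) / q) ≤ (if S = ∅ then ∑ q ∈ PI y z, (1 : ℝ) / q else 0) + 2 * C5 := by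
    intro S hS
    have hSps := Finset.mem_powerset.1 hS
    have hSpr : ∀ p ∈ S, p.Prime := fun p hp => hps p (hSps hp)
    have hS0 : 0 < ∏ p ∈ S, p := prod_pos' hSpr
    have hSle : ((∏ p ∈ S, p : ℕ) : ℝ) ≤ Pr := by
      have : ∏ p ∈ S, p ∣ Pr := by rw [hPrdef]; exact Finset.prod_dvd_prod_of_subset _ _ _ hSps
      exact_mod_cast Nat.le_of_dvd hPr0 this
    obtain ⟨d, hd⟩ : ∃ d : ℕ, d = ∏ p ∈ S, p := ⟨_, rfl⟩
    rw [← hd] at hS0 hSle ⊢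
    have hΔa : (1 : ℝ) ≤ |(Δ : ℝ)| := by
      have : (1 : ℤ) ≤ |Δ| := by
        rw [abs_of_neg hΔ]; omega
      exact_mod_cast this
    have h2 : e * ∑ q ∈ PI y z, ch ((d : ℤ) * Δ) q / q ≤ C5 := by
      apply heC
      apply hch _ (neg_not_square d Δ hS0 hΔ)
      push_cast
      rw [abs_mul, mul_comm, abs_of_nonneg (Nat.cast_nonneg d : (0 : ℝ) ≤ d)]
      exact mul_le_mul_of_nonneg_left hSle (abs_nonneg _)
    have e1 : ∑ q ∈ PI y z, ch (d : ℤ) q * ((1 + e * ch Δ q) / q) =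
        ∑ q ∈ PI y z, ch (d : ℤ) q / q + e * ∑ q ∈ PI y z, ch ((d : ℤ) * Δ) q / q := by
      rw [Finset.mul_sum, ← Finset.sum_add_distrib]
      refine Finset.sum_congr rfl (fun q _ => ?_)
      rw [ch_mul_left]
      ring
    rw [e1]
    split_ifs with hSe
    · have hd1 : d = 1 := by rw [hd, hSe, Finset.prod_empty]
      have e2 : ∑ q ∈ PI y z, ch (d : ℤ) q / q = ∑ q ∈ PI y z, (1 : ℝ) / q := by
        refine Finset.sum_congr rfl (fun q hq => ?_)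
        obtain ⟨⟨hyq, -⟩, hqp⟩ := mem_PI.1 hq
        have hodd : q % 2 = 1 := by
          rcases hqp.eq_two_or_odd with h | h
          · omega
          · exact h
        rw [hd1, Nat.cast_one, ch_one q hodd]
      rw [e2]
      linarith
    · have hne : S.Nonempty := Finset.nonempty_iff_ne_empty.2 hSe
      have h1 : ∑ q ∈ PI y z, ch (d : ℤ) q / q ≤ C5 := by
        apply hch
        · rw [hd]; exact prod_not_square S hSpr hne
        · push_cast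
          rw [abs_of_nonneg (Nat.cast_nonneg d : (0 : ℝ) ≤ d)]
          nlinarith
      linarith
  -- conclusion
  have hmain : ∑ q ∈ Good ps y z, (1 + e * ch Δ q) / q ≤
      ∑ q ∈ PI y z, ((1 / 2) ^ ps.card *
        ∑ S ∈ ps.powerset, ch (((∏ p ∈ S, p : ℕ) : ℕ) : ℤ) q) * ((1 + e * ch Δ q) / q) := by
    have e3 : ∑ q ∈ Good ps y z, (1 + e * ch Δ q) / q = ∑ q ∈ PI y z,
        (if ∀ p ∈ ps, ch p q ≠ -1 then (1 : ℝ) else 0) * ((1 + e * ch Δ q) / q) := by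
      unfold Good
      rw [Finset.sum_filter]
      refine Finset.sum_congr rfl (fun q _ => ?_)
      split_ifs with h
      · rw [one_mul]
      · rw [zero_mul]
    rw [e3]
    refine Finset.sum_le_sum (fun q hq => ?_)
    exact mul_le_mul_of_nonneg_right (ind_le ps hps hq hy (by omega))
      (div_nonneg (one_add_nonneg he Δ q) (Nat.cast_nonneg q))
  have hswap : ∑ q ∈ PI y z, ((1 / 2) ^ ps.card *
        ∑ S ∈ ps.powerset, ch (((∏ p ∈ S, p : ℕ) : ℕ) : ℤ) q) * ((1 + e * ch Δ q) / q) =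
      (1 / 2) ^ ps.card * ∑ S ∈ ps.powerset, ∑ q ∈ PI y z,
        ch (((∏ p ∈ S, p : ℕ) : ℕ) : ℤ) q * ((1 + e * ch Δ q) / q) := by
    rw [Finset.sum_comm, Finset.mul_sum]
    refine Finset.sum_congr rfl (fun q _ => ?_)
    rw [← Finset.sum_mul]
    ring
  have hsum : ∑ S ∈ ps.powerset, ∑ q ∈ PI y z,
        ch (((∏ p ∈ S, p : ℕ) : ℕ) : ℤ) q * ((1 + e * ch Δ q) / q) ≤
      ∑ q ∈ PI y z, (1 : ℝ) / q + 2 ^ ps.card * (2 * C5) := by
    refine (Finset.sum_le_sum hterm).trans ?_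
    rw [Finset.sum_add_distrib, Finset.sum_const, Finset.card_powerset, nsmul_eq_mul,
      Finset.sum_ite_eq', if_pos (Finset.empty_mem_powerset ps)]
    push_cast
    exact le_rfl
  rw [hswap] at hmain
  refine hmain.trans ?_
  have h4 : (1 / 2 : ℝ) ^ ps.card * (∑ q ∈ PI y z, (1 : ℝ) / q + 2 ^ ps.card * (2 * C5)) =
      (1 / 2) ^ ps.card * ∑ q ∈ PI y z, (1 : ℝ) / q + 2 * C5 := by
    have h5 : (1 / 2 : ℝ) ^ ps.card * 2 ^ ps.card = 1 := by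
      rw [← mul_pow]; norm_num
    calc (1 / 2 : ℝ) ^ ps.card * (∑ q ∈ PI y z, (1 : ℝ) / q + 2 ^ ps.card * (2 * C5)) =
        (1 / 2) ^ ps.card * ∑ q ∈ PI y z, (1 : ℝ) / q +
          ((1 / 2 : ℝ) ^ ps.card * 2 ^ ps.card) * (2 * C5) := by ring
      _ = _ := by rw [h5, one_mul]
  have h6 := mul_le_mul_of_nonneg_left hsum (by positivity : (0 : ℝ) ≤ (1 / 2 : ℝ) ^ ps.card)
  rw [h4] at h6
  linarith

end Pool.Agent.H951R4.OD
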