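import Pool.Agent.H951R4.OD.Defs
import Pool.Agent.H951R4.OD.A3
import Pool.Agent.H951R4.OD.B6
import Pool.Agent.H951R4.OD.C1

/-!
# C2: lower bound for the sum over bad primes
-/

set_option autoImplicit false

namespace Pool.Agent.H951R4.OD

open Finset

theorem bad_lower {f : ℕ → ℤ} {c0 : ℕ} {e : ℝ} {Δ : ℤ} (h : Pol f c0 e Δ) : ∃ C : ℝ, 3 ≤ C ∧
    ∀ ps : Finset ℕ, (∀ p ∈ ps, p.Prime) → ∀ y z : ℕ, C * (∏ p ∈ ps, (p : ℝ)) ^ 2 ≤ y → y ≤ z →
      (1 - (1 / 2) ^ ps.card) * ∑ q ∈ PI y z, (1 : ℝ) / q - C ≤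
        ∑ q ∈ Bad c0 ps y z, (1 + e * ch Δ q) / q := by
  classical
  obtain ⟨CU, hCU, hU⟩ := allowed_upper Δ h.neg e h.e01
  have hns : ¬ IsSquare (Δ : ℤ) := by
    have := neg_not_square 1 Δ one_pos h.neg
    simpa using this
  obtain ⟨CF, hCF, hF⟩ := char_sum_fixed Δ hns
  have hc0 : (0 : ℝ) ≤ c0 := by positivity
  refine ⟨CU + CF + c0, by linarith, ?_⟩
  intro ps hps y z hy hyz
  have hprod : (1 : ℝ) ≤ ∏ p ∈ ps, (p : ℝ) := by
    refine Finset.prod_induction (fun p : ℕ => (p : ℝ)) (fun x => (1 : ℝ) ≤ x)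
      (fun a b ha hb => one_le_mul_of_one_le_of_one_le ha hb) le_rfl ?_
    intro p hp
    exact_mod_cast (hps p hp).one_lt.le
  have hprod2 : (1 : ℝ) ≤ (∏ p ∈ ps, (p : ℝ)) ^ 2 := one_le_pow₀ hprod
  have hyU : CU * (∏ p ∈ ps, (p : ℝ)) ^ 2 ≤ y := by
    refine le_trans ?_ hy
    apply mul_le_mul_of_nonneg_right (by linarith) (by positivity)
  have hyc : (c0 : ℝ) ≤ y := by
    refine le_trans ?_ hy
    nlinarith
  have hyc' : c0 ≤ y := by exact_mod_cast hyc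
  have hgood := hU ps hps y z hyU hyz
  have hndvd : ∀ q ∈ PI y z, ¬ q ∣ c0 := by
    intro q hq hd
    have hq1 : y < q := by
      simp only [PI, mem_filter, mem_Ioc] at hq
      exact hq.1.1
    have := Nat.le_of_dvd h.pos hd
    omega
  have hbad : Bad c0 ps y z = (PI y z).filter (fun q => ¬ ∀ p ∈ ps, ch p q ≠ -1) := by
    unfold Bad
    apply Finset.filter_congr
    intro q hq
    constructor
    · rintro ⟨-, p, hp, hpq⟩ hall
      exact hall p hp hpq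
    · intro hn
      push Not at hn
      obtain ⟨p, hp, hpq⟩ := hn
      exact ⟨hndvd q hq, p, hp, hpq⟩
  have hsplit : ∑ q ∈ PI y z, (1 + e * ch Δ q) / q =
      ∑ q ∈ Good ps y z, (1 + e * ch Δ q) / q + ∑ q ∈ Bad c0 ps y z, (1 + e * ch Δ q) / q := by
    rw [hbad]
    unfold Good
    exact (Finset.sum_filter_add_sum_filter_not _ _ _).symm
  have hall : ∑ q ∈ PI y z, (1 + e * ch Δ q) / (q : ℝ) =
      ∑ q ∈ PI y z, (1 : ℝ) / q + e * ∑ q ∈ PI y z, ch Δ q / q := by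
    rw [Finset.mul_sum, ← Finset.sum_add_distrib]
    apply Finset.sum_congr rfl
    intro q _
    ring
  have hlow : -CF ≤ e * ∑ q ∈ PI y z, ch Δ q / q := by
    have h1 := hF y z
    rcases h.e01 with he | he
    · rw [he]; simp; linarith
    · rw [he]
      have := (abs_le.mp h1).1
      linarith
  nlinarith

end Pool.Agent.H951R4.OD
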