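import Pool.Agent.H951R4.OD.Defs
import Pool.Agent.H951R4.OD.M
import Pool.Agent.H177R2.SD.Brun
import Pool.Agent.H177R2.SD.Avg

/-!
# Orders of difference sets: Brun's pure sieve
-/

set_option autoImplicit false

namespace Pool.Agent.H951R4.OD

open Finset

namespace D1

theorem pow_fact (x : ℝ) (n : ℕ) (hx : 0 ≤ x) (hxn : 8 * x ≤ n) :
    x ^ n / (n.factorial : ℝ) ≤ Real.exp (-x) := by
  have h1 : (n : ℝ) ^ n / (n.factorial : ℝ) ≤ Real.exp n :=
    Real.pow_div_factorial_le_exp (n : ℝ) (Nat.cast_nonneg n) n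
  have he : Real.exp 2 ≤ 8 := by
    have h2 : Real.exp 1 < 2.7182818286 := Real.exp_one_lt_d9
    have h3 : Real.exp 2 = Real.exp 1 * Real.exp 1 := by rw [← Real.exp_add]; norm_num
    rw [h3]
    have h4 : 0 < Real.exp 1 := Real.exp_pos 1
    nlinarith
  have h5 : x ≤ n * Real.exp (-2) := by
    rw [Real.exp_neg, ← div_eq_mul_inv, le_div_iff₀ (Real.exp_pos 2)]
    nlinarith
  have hf : (0 : ℝ) < n.factorial := by positivity
  calc x ^ n / (n.factorial : ℝ) ≤ (n * Real.exp (-2)) ^ n / (n.factorial : ℝ) := by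
        apply div_le_div_of_nonneg_right _ hf.le
        exact pow_le_pow_left₀ hx h5 n
    _ = ((n : ℝ) ^ n / (n.factorial : ℝ)) * Real.exp (-2) ^ n := by rw [mul_pow]; ring
    _ ≤ Real.exp n * Real.exp (-2) ^ n := by
        apply mul_le_mul_of_nonneg_right h1; positivity
    _ = Real.exp (-n) := by
        rw [← Real.exp_nat_mul, ← Real.exp_add]; congr 1; ring
    _ ≤ Real.exp (-x) := by
        apply Real.exp_le_exp.2
        nlinarith

theorem prod_exp (S : Finset ℕ) (η : ℕ → ℝ) (hη : ∀ p ∈ S, 0 ≤ η p ∧ η p ≤ 1) :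
    ∏ p ∈ S, (1 - η p) ≤ Real.exp (-∑ p ∈ S, η p) := by
  rw [← Finset.sum_neg_distrib, Real.exp_sum]
  apply Finset.prod_le_prod
  · intro p hp; linarith [(hη p hp).2]
  · intro p hp
    have := Real.add_one_le_exp (-η p)
    linarith

end D1

open D1 Pool.Agent.H177R2.SD

theorem sieve : ∃ C : ℝ, 1 ≤ C ∧ ∀ z N : ℕ, 3 ≤ z →
    C * Real.log z * (1 + Real.log (Real.log z)) ≤ Real.log N →
    ∀ (S : Finset ℕ) (md : ℕ → ℕ) (h : ℕ → ℕ → ℝ),
    (∀ p ∈ S, p.Prime ∧ p ≤ z ∧ (md p = p ∨ md p = p ^ 2)) →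
    (∀ p ∈ S, ∀ n, h p n = 0 ∨ h p n = 1) → (∀ p ∈ S, ∀ n, h p (n + md p) = h p n) →
    (∀ p ∈ S, (∑ n ∈ range (md p), h p n) / md p ≤ 2 / p) →
    ∑ n ∈ Icc 1 N, ∏ p ∈ S, (1 - h p n) ≤
      C * N * Real.exp (-∑ p ∈ S, (∑ n ∈ range (md p), h p n) / md p) := by
  obtain ⟨C2, hC2, hmert⟩ := mert_le
  refine ⟨146 + Real.exp (2 * C2) + 128 * C2, by linarith [Real.exp_pos (2 * C2)], ?_⟩
  intro z N hz hN S md h hS h01 hper hmean
  have hzR : (3 : ℝ) ≤ z := by exact_mod_cast hz
  set L := Real.log z with hL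
  set LL := Real.log L with hLL
  have hL1 : 1 < L := by
    have : Real.log 3 ≤ L := Real.log_le_log (by norm_num) hzR
    have h3 : 1 < Real.log 3 := by
      rw [Real.lt_log_iff_exp_lt (by norm_num)]
      have := Real.exp_one_lt_d9
      linarith
    linarith
  have hLL0 : 0 < LL := Real.log_pos hL1
  set η : ℕ → ℝ := fun p => (∑ n ∈ range (md p), h p n) / md p with hη
  have hη01 : ∀ p ∈ S, 0 ≤ η p ∧ η p ≤ 1 := by
    intro p hp
    apply AvgAux.mean_01
    intro n
    rcases h01 p hp n with h | h <;> rw [h] <;> norm_num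
  set Λ := ∑ p ∈ S, η p with hΛ
  have hΛ0 : 0 ≤ Λ := Finset.sum_nonneg fun p hp => (hη01 p hp).1
  have hΛ1 : Λ ≤ 2 * LL + 2 * C2 := by
    have hsub : S ⊆ PI 0 z := by
      intro p hp
      obtain ⟨h1, h2, -⟩ := hS p hp
      simp only [PI, mem_filter, mem_Ioc]
      exact ⟨⟨h1.pos, h2⟩, h1⟩
    have h1 : Λ ≤ ∑ p ∈ PI 0 z, 2 * ((1 : ℝ) / p) := by
      calc Λ ≤ ∑ p ∈ S, 2 * ((1 : ℝ) / p) := by
            apply Finset.sum_le_sum
            intro p hp
            have := hmean p hp
            simp only [hη]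
            calc _ ≤ (2 : ℝ) / p := this
              _ = 2 * (1 / p) := by ring
        _ ≤ _ := by
            apply Finset.sum_le_sum_of_subset_of_nonneg hsub
            intro p _ _
            positivity
    rw [← Finset.mul_sum] at h1
    have h2 := (abs_le.1 (hmert z hz)).2
    linarith
  set r : ℕ := ⌈4 * (2 * LL + 2 * C2)⌉₊ with hr
  have hr1 : 4 * (2 * LL + 2 * C2) ≤ r := Nat.le_ceil _
  have hr2 : (r : ℝ) < 4 * (2 * LL + 2 * C2) + 1 := Nat.ceil_lt_add_one (by positivity)
  -- N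
  have hN1 : 1 ≤ N := by
    rcases Nat.eq_zero_or_pos N with h0 | h0
    · subst h0
      simp only [Nat.cast_zero, Real.log_zero] at hN
      have : 0 < (146 + Real.exp (2 * C2) + 128 * C2) * L * (1 + LL) := by positivity
      linarith
    · exact h0
  have hNR : (0 : ℝ) < N := by exact_mod_cast hN1
  have hsq : Real.exp (Real.log N / 2) = Real.sqrt N := by
    rw [Real.sqrt_eq_rpow, Real.rpow_def_of_pos hNR]; congr 1; ring
  have hexpC : 0 < Real.exp (2 * C2) := Real.exp_pos _
  have hLLL : 0 ≤ L * (1 + LL) := by positivity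
  -- z ^ (8 r) ≤ √N
  have hA : (z : ℝ) ^ (8 * r) ≤ Real.sqrt N := by
    rw [← hsq, ← Real.exp_log (show (0 : ℝ) < z by linarith), ← Real.exp_nat_mul]
    apply Real.exp_le_exp.2
    push_cast
    rw [← hL]
    have h1 : 8 * (r : ℝ) * L ≤ (144 + 128 * C2) * L * (1 + LL) / 2 := by
      have h2 : 8 * (r : ℝ) ≤ 64 * LL + 64 * C2 + 8 := by linarith
      have h3 : 8 * (r : ℝ) * L ≤ (64 * LL + 64 * C2 + 8) * L :=
        mul_le_mul_of_nonneg_right h2 (by linarith)
      have h4 : 0 ≤ C2 * (L * LL) := by positivity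
      have h5 : 0 ≤ L * LL := by positivity
      nlinarith
    have h6 : (144 + 128 * C2) * L * (1 + LL) ≤ (146 + Real.exp (2 * C2) + 128 * C2) * L * (1 + LL) := by
      have : 0 ≤ (2 + Real.exp (2 * C2)) * (L * (1 + LL)) := by positivity
      nlinarith
    linarith
  -- exp Λ ≤ exp (2 C2) √N
  have hB : Real.exp Λ ≤ Real.exp (2 * C2) * Real.sqrt N := by
    calc Real.exp Λ ≤ Real.exp (2 * LL + 2 * C2) := Real.exp_le_exp.2 hΛ1
      _ = Real.exp (2 * C2) * Real.exp (2 * LL) := by rw [← Real.exp_add]; congr 1; ring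
      _ ≤ Real.exp (2 * C2) * Real.sqrt N := by
          apply mul_le_mul_of_nonneg_left _ hexpC.le
          rw [← hsq]
          apply Real.exp_le_exp.2
          have h1 : LL ≤ L := by
            have := Real.log_le_sub_one_of_pos (show 0 < L by linarith)
            linarith
          have h2 : 146 * (L * 1) ≤ 146 * (L * (1 + LL)) := by
            apply mul_le_mul_of_nonneg_left _ (by norm_num)
            apply mul_le_mul_of_nonneg_left _ (by linarith)
            linarith
          have h3 : 0 ≤ (Real.exp (2 * C2) + 128 * C2) * (L * (1 + LL)) := by positivity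
          nlinarith
  have hC : Real.sqrt N ≤ Real.exp (2 * C2) * (N * Real.exp (-Λ)) := by
    have h1 : Real.sqrt N * Real.exp Λ ≤ Real.exp (2 * C2) * N := by
      calc Real.sqrt N * Real.exp Λ ≤ Real.sqrt N * (Real.exp (2 * C2) * Real.sqrt N) :=
            mul_le_mul_of_nonneg_left hB (Real.sqrt_nonneg _)
        _ = Real.exp (2 * C2) * (Real.sqrt N * Real.sqrt N) := by ring
        _ = Real.exp (2 * C2) * N := by rw [Real.mul_self_sqrt hNR.le]
    rw [Real.exp_neg, ← mul_assoc, ← div_eq_mul_inv, le_div_iff₀ (Real.exp_pos _)]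
    exact h1
  -- Brun
  have hbr := brun (Icc 1 N) S h η
    (by
      intro p hp n _
      rcases h01 p hp n with h | h <;> rw [h] <;> norm_num) hη01 r (N : ℝ) ((z : ℝ) ^ (4 * r)) hNR.le (by positivity)
    (by
      intro T hT hcard
      have hmdpos : ∀ p ∈ T, 0 < md p := by
        intro p hp
        obtain ⟨h1, -, h3⟩ := hS p (hT hp)
        rcases h3 with h3 | h3 <;> rw [h3]
        · exact h1.pos
        · exact pow_pos h1.pos 2
      have hcop : (T : Set ℕ).Pairwise fun p p' => Nat.Coprime (md p) (md p') := by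
        intro p hp p' hp' hne
        obtain ⟨h1, -, h3⟩ := hS p (hT hp)
        obtain ⟨h1', -, h3'⟩ := hS p' (hT hp')
        have hc : Nat.Coprime p p' := (Nat.coprime_primes h1 h1').2 hne
        show Nat.Coprime (md p) (md p')
        rcases h3 with h3 | h3 <;> rcases h3' with h3' | h3' <;> rw [h3, h3']
        · exact hc
        · exact hc.pow_right 2
        · exact hc.pow_left 2
        · exact hc.pow 2 2
      have hav := avg1 T md hmdpos hcop h
        (by
          intro p hp n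
          rcases h01 p (hT hp) n with h | h <;> rw [h] <;> norm_num)
        (fun p hp => hper p (hT hp)) 1 N
      have hI : Ico 1 (1 + N) = Icc 1 N := by ext; simp only [mem_Ico, mem_Icc]; omega
      rw [hI] at hav
      refine hav.trans ?_
      calc ∏ p ∈ T, (md p : ℝ) ≤ ∏ p ∈ T, (z : ℝ) ^ 2 := by
            apply Finset.prod_le_prod
            · intro p _; positivity
            · intro p hp
              obtain ⟨h1, h2, h3⟩ := hS p (hT hp)
              have h2' : (p : ℝ) ≤ z := by exact_mod_cast h2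
              rcases h3 with h3 | h3 <;> rw [h3]
              · nlinarith
              · push_cast
                exact pow_le_pow_left₀ (Nat.cast_nonneg _) h2' 2
        _ = (z : ℝ) ^ (2 * T.card) := by rw [Finset.prod_const, pow_mul]
        _ ≤ (z : ℝ) ^ (4 * r) := pow_le_pow_right₀ (by linarith) (by omega))
  have hD : ((S.card : ℝ) + 1) ^ (2 * r) * (z : ℝ) ^ (4 * r) ≤ Real.sqrt N := by
    have hcard : S.card ≤ z := by
      have hsub : S ⊆ Icc 1 z := by
        intro p hp
        obtain ⟨h1, h2, -⟩ := hS p hp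
        exact mem_Icc.2 ⟨h1.pos, h2⟩
      have := Finset.card_le_card hsub
      simpa using this
    have hcR : (S.card : ℝ) + 1 ≤ (z : ℝ) ^ 2 := by
      have : (S.card : ℝ) ≤ z := by exact_mod_cast hcard
      nlinarith
    calc ((S.card : ℝ) + 1) ^ (2 * r) * (z : ℝ) ^ (4 * r)
        ≤ ((z : ℝ) ^ 2) ^ (2 * r) * (z : ℝ) ^ (4 * r) := by
          apply mul_le_mul_of_nonneg_right _ (by positivity)
          exact pow_le_pow_left₀ (by positivity) hcR _
      _ = (z : ℝ) ^ (8 * r) := by rw [← pow_mul, ← pow_add]; congr 1; ring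
      _ ≤ _ := hA
  have hE : (∑ i ∈ S, η i) ^ (2 * r + 1) / ((2 * r + 1).factorial : ℝ) ≤ Real.exp (-Λ) := by
    apply pow_fact _ _ hΛ0
    push_cast
    linarith
  have hF := prod_exp S η hη01
  have hG : ∑ n ∈ Icc 1 N, ∏ p ∈ S, (1 - h p n) ≤
      N * (Real.exp (-Λ) + Real.exp (-Λ)) + Real.exp (2 * C2) * (N * Real.exp (-Λ)) := by
    calc _ ≤ _ := hbr
      _ ≤ N * (Real.exp (-Λ) + Real.exp (-Λ)) + Real.sqrt N := by
          apply add_le_add _ hD
          apply mul_le_mul_of_nonneg_left _ hNR.le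
          exact add_le_add hF hE
      _ ≤ _ := by linarith
  refine hG.trans ?_
  have hpos : 0 ≤ (N : ℝ) * Real.exp (-Λ) := by positivity
  have : 0 ≤ (144 + 128 * C2) * (N * Real.exp (-Λ)) := by positivity
  nlinarith

end Pool.Agent.H951R4.OD
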