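import Pool.Agent.H951R4.OD.Defs
import Pool.Agent.H951R4.OD.D1
import Pool.Agent.H951R4.OD.M

/-! Project OD, D2a (helper541): integers whose small exact prime divisors are prescribed. -/

set_option autoImplicit false

namespace Pool.Agent.H951R4.OD

open Finset

namespace D2a

/-- `r` divides `m` exactly once -/
noncomputable def hh (r m : ℕ) : ℝ := if r ∣ m ∧ ¬ r ^ 2 ∣ m then 1 else 0

theorem hh_01 (r m : ℕ) : hh r m = 0 ∨ hh r m = 1 := by
  unfold hh
  split_ifs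
  · exact Or.inr rfl
  · exact Or.inl rfl

theorem hh_per (r m : ℕ) : hh r (m + r ^ 2) = hh r m := by
  unfold hh
  have h1 : r ∣ m + r ^ 2 ↔ r ∣ m := by
    rw [Nat.dvd_add_left (dvd_pow_self r (by norm_num))]
  have h2 : r ^ 2 ∣ m + r ^ 2 ↔ r ^ 2 ∣ m := by
    rw [Nat.dvd_add_left (dvd_refl _)]
  simp only [h1, h2]

theorem hh_sum (r : ℕ) (hr : 1 ≤ r) : ∑ n ∈ range (r ^ 2), hh r n = (r : ℝ) - 1 := by
  unfold hh
  rw [sum_ite, sum_const_zero, add_zero, sum_const, nsmul_eq_mul, mul_one]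
  have h : (range (r ^ 2)).filter (fun n => r ∣ n ∧ ¬ r ^ 2 ∣ n) =
      (Ico 1 r).image (fun j => r * j) := by
    ext n
    rw [mem_filter, mem_image, mem_range]
    constructor
    · rintro ⟨h1, ⟨j, rfl⟩, h3⟩
      refine ⟨j, ?_, rfl⟩
      rw [mem_Ico]
      constructor
      · rcases Nat.eq_zero_or_pos j with h | h
        · subst h; simp at h3
        · exact h
      · rw [sq] at h1
        exact lt_of_mul_lt_mul_left h1 (Nat.zero_le _)
    · rintro ⟨j, hj, rfl⟩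
      rw [mem_Ico] at hj
      refine ⟨?_, Dvd.intro _ rfl, ?_⟩
      · rw [sq]
        exact Nat.mul_lt_mul_of_pos_left hj.2 (by omega)
      · intro hd
        rw [sq] at hd
        have := Nat.dvd_of_mul_dvd_mul_left (by omega : 0 < r) hd
        have := Nat.le_of_dvd (by omega) this
        omega
  rw [h, card_image_of_injective _ (fun i j (hij : r * i = r * j) =>
      Nat.eq_of_mul_eq_mul_left (by omega) hij), Nat.card_Ico]
  rw [Nat.cast_sub hr, Nat.cast_one]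

theorem mean_eq (r : ℕ) (hr : 1 ≤ r) :
    (∑ n ∈ range (r ^ 2), hh r n) / ((r ^ 2 : ℕ) : ℝ) = 1 / (r : ℝ) - 1 / (r : ℝ) ^ 2 := by
  rw [hh_sum r hr]
  have : (0 : ℝ) < r := by exact_mod_cast hr
  push_cast
  field_simp

/-- the primes used in the sieve -/
noncomputable def SS (c0 : ℕ) (ps : Finset ℕ) (z : ℕ) : Finset ℕ := by
  classical
  exact (PI 0 z).filter (fun r => ¬ r ∣ c0 ∧ r ∉ ps)

theorem mem_SS {c0 : ℕ} {ps : Finset ℕ} {z r : ℕ} :
    r ∈ SS c0 ps z ↔ (r.Prime ∧ r ≤ z) ∧ ¬ r ∣ c0 ∧ r ∉ ps := by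
  classical
  unfold SS PI
  rw [mem_filter, mem_filter, mem_Ioc]
  constructor
  · rintro ⟨⟨h1, h2⟩, h3⟩
    exact ⟨⟨h2, h1.2⟩, h3⟩
  · rintro ⟨⟨h1, h2⟩, h3⟩
    exact ⟨⟨⟨h1.pos, h2⟩, h1⟩, h3⟩

/-- the set to be counted -/
def TI (c0 z X : ℕ) (ps : Finset ℕ) : Set ℕ :=
  {n : ℕ | 1 ≤ n ∧ n ≤ X ∧ (∀ p ∈ ps, Ex c0 n p) ∧ ∀ p : ℕ, p ≤ z → Ex c0 n p → p ∈ ps}

theorem count_le {c0 z X : ℕ} {ps : Finset ℕ} (hps : ∀ p ∈ ps, p.Prime ∧ p ≤ z) :
    ((TI c0 z X ps).ncard : ℝ) ≤ ∑ m ∈ Icc 1 (X / ∏ p ∈ ps, p), ∏ r ∈ SS c0 ps z, (1 - hh r m) := by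
  classical
  set Pr := ∏ p ∈ ps, p with hPr
  have hPr0 : 0 < Pr := Finset.prod_pos fun p hp => (hps p hp).1.pos
  have hdvd : ∀ n ∈ TI c0 z X ps, Pr ∣ n := by
    intro n hn
    refine Finset.prod_primes_dvd n (fun p hp => (hps p hp).1.prime) ?_
    intro p hp
    exact (hn.2.2.1 p hp).2.2.1
  set G := (Icc 1 (X / Pr)).filter (fun m => ∏ r ∈ SS c0 ps z, (1 - hh r m) = 1) with hG
  have h1 : TI c0 z X ps ⊆ ↑(G.image (fun m => Pr * m)) := by
    intro n hn
    obtain ⟨m, rfl⟩ := hdvd n hn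
    rw [mem_coe, mem_image]
    refine ⟨m, ?_, rfl⟩
    rw [hG, mem_filter, mem_Icc]
    obtain ⟨n1, n2, n3, n4⟩ := hn
    refine ⟨⟨?_, ?_⟩, ?_⟩
    · rcases Nat.eq_zero_or_pos m with h | h
      · subst h; simp at n1
      · exact h
    · rw [Nat.le_div_iff_mul_le hPr0]
      linarith [mul_comm Pr m]
    · refine Finset.prod_eq_one fun r hr => ?_
      rw [mem_SS] at hr
      obtain ⟨⟨r1, r2⟩, r3, r4⟩ := hr
      have hcop : Nat.Coprime r Pr := by
        rw [hPr]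
        refine Nat.Coprime.prod_right fun p hp => ?_
        rw [Nat.coprime_primes r1 (hps p hp).1]
        rintro rfl
        exact r4 hp
      have hz : hh r m = 0 := by
        unfold hh
        rw [if_neg]
        rintro ⟨d1, d2⟩
        refine r4 (n4 r r2 ⟨r1, r3, dvd_mul_of_dvd_right d1 _, ?_⟩)
        intro d3
        exact d2 ((Nat.Coprime.pow_left 2 hcop).dvd_of_dvd_mul_left d3)
      rw [hz, sub_zero]
  have h2 : (TI c0 z X ps).ncard ≤ G.card := by
    refine (Set.ncard_le_ncard h1 (Finset.finite_toSet _)).trans ?_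
    rw [Set.ncard_coe_finset]
    exact card_image_le
  have h3 : (G.card : ℝ) ≤ ∑ m ∈ Icc 1 (X / Pr), ∏ r ∈ SS c0 ps z, (1 - hh r m) := by
    have h4 : (G.card : ℝ) = ∑ m ∈ G, ∏ r ∈ SS c0 ps z, (1 - hh r m) := by
      have h5 : ∑ m ∈ G, ∏ r ∈ SS c0 ps z, (1 - hh r m) = ∑ m ∈ G, (1 : ℝ) :=
        Finset.sum_congr rfl fun m hm => by
          rw [hG, mem_filter] at hm
          exact hm.2
      rw [h5, sum_const, nsmul_eq_mul, mul_one]
    rw [h4]
    refine Finset.sum_le_sum_of_subset_of_nonneg (filter_subset _ _) ?_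
    intro m _ _
    refine Finset.prod_nonneg fun r _ => ?_
    rcases hh_01 r m with h | h <;> rw [h] <;> norm_num
  exact (by exact_mod_cast h2 : ((TI c0 z X ps).ncard : ℝ) ≤ G.card).trans h3

/-- the sum of the means -/
theorem mean_lower {CM CS : ℝ} (hCM : ∀ z : ℕ, 3 ≤ z →
      |∑ q ∈ PI 0 z, (1 : ℝ) / q - Real.log (Real.log z)| ≤ CM)
    (hCS : ∀ S : Finset ℕ, ∑ q ∈ S, (1 : ℝ) / (q : ℝ) ^ 2 ≤ CS) {c0 : ℕ} (hc0 : 0 < c0) {k : ℕ}
    {ps : Finset ℕ} (hk : ps.card ≤ k) {z : ℕ} (hz : 3 ≤ z) :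
    Real.log (Real.log z) - (CM + CS + c0 + k) ≤
      ∑ r ∈ SS c0 ps z, (1 / (r : ℝ) - 1 / (r : ℝ) ^ 2) := by
  classical
  rw [sum_sub_distrib]
  have h1 := (abs_le.1 (hCM z hz)).1
  have h2 := hCS (SS c0 ps z)
  have h3 : ∑ q ∈ PI 0 z, (1 : ℝ) / q ≤ ∑ r ∈ SS c0 ps z, 1 / (r : ℝ) + (c0 + k) := by
    have hsub : PI 0 z ⊆ SS c0 ps z ∪ ((range (c0 + 1)).filter (fun r => 0 < r) ∪ ps) := by
      intro r hr
      unfold PI at hr
      rw [mem_filter, mem_Ioc] at hr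
      rw [mem_union, mem_union, mem_SS, mem_filter, mem_range]
      by_cases h : r ∣ c0
      · exact Or.inr (Or.inl ⟨Nat.lt_succ_of_le (Nat.le_of_dvd hc0 h), hr.1.1⟩)
      · by_cases h' : r ∈ ps
        · exact Or.inr (Or.inr h')
        · exact Or.inl ⟨⟨hr.2, hr.1.2⟩, h, h'⟩
    have hle1 : ∀ r : ℕ, (1 : ℝ) / r ≤ 1 := by
      intro r
      rcases Nat.eq_zero_or_pos r with h | h
      · subst h; simp
      · rw [div_le_one (by exact_mod_cast h)]
        exact_mod_cast h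
    calc ∑ q ∈ PI 0 z, (1 : ℝ) / q
        ≤ ∑ q ∈ SS c0 ps z ∪ ((range (c0 + 1)).filter (fun r => 0 < r) ∪ ps), (1 : ℝ) / q :=
          sum_le_sum_of_subset_of_nonneg hsub fun _ _ _ => by positivity
      _ ≤ ∑ q ∈ SS c0 ps z, (1 : ℝ) / q +
          ∑ q ∈ ((range (c0 + 1)).filter (fun r => 0 < r) ∪ ps), (1 : ℝ) / q := by
          rw [← sum_union_inter]
          exact le_add_of_nonneg_right (sum_nonneg fun _ _ => by positivity)
      _ ≤ ∑ q ∈ SS c0 ps z, (1 : ℝ) / q + (c0 + k) := by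
          have hcard : (((range (c0 + 1)).filter (fun r => 0 < r) ∪ ps).card : ℝ) ≤ c0 + k := by
            have h5 : ((range (c0 + 1)).filter (fun r => 0 < r)).card ≤ c0 := by
              have : (range (c0 + 1)).filter (fun r => 0 < r) ⊆ Ioc 0 c0 := by
                intro r hr
                rw [mem_filter, mem_range] at hr
                rw [mem_Ioc]
                omega
              exact (card_le_card this).trans (by simp)
            have h6 := card_union_le ((range (c0 + 1)).filter (fun r => 0 < r)) ps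
            have h7 : ((range (c0 + 1)).filter (fun r => 0 < r) ∪ ps).card ≤ c0 + k := by omega
            exact_mod_cast h7
          have h8 : ∑ q ∈ ((range (c0 + 1)).filter (fun r => 0 < r) ∪ ps), (1 : ℝ) / q ≤
              ∑ q ∈ ((range (c0 + 1)).filter (fun r => 0 < r) ∪ ps), (1 : ℝ) :=
            sum_le_sum fun r _ => hle1 r
          rw [sum_const, nsmul_eq_mul, mul_one] at h8
          linarith
  linarith

end D2a

open D2a

theorem countI (c0 : ℕ) (hc0 : 0 < c0) (k : ℕ) : ∃ C : ℝ, 1 ≤ C ∧ ∀ z X : ℕ, 3 ≤ z →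
    C * Real.log z * (1 + Real.log (Real.log z)) ≤ Real.log X →
    ∀ ps : Finset ℕ, ps.card ≤ k → (∀ p ∈ ps, p.Prime ∧ p ≤ z) →
      ({n : ℕ | 1 ≤ n ∧ n ≤ X ∧ (∀ p ∈ ps, Ex c0 n p) ∧
        ∀ p : ℕ, p ≤ z → Ex c0 n p → p ∈ ps}.ncard : ℝ) ≤
      C * (X / ∏ p ∈ ps, (p : ℝ)) / Real.log z := by
  obtain ⟨CD, hCD1, hsieve⟩ := sieve
  obtain ⟨CM, hCM0, hCM⟩ := mert_le
  obtain ⟨CS, hCS0, hCS⟩ := sum_sq_inv
  set K : ℝ := CM + CS + c0 + k with hK
  have hCE : 0 < CD * Real.exp K := by positivity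
  refine ⟨CD * Real.exp K + CD + k + 1, by linarith [(Nat.cast_nonneg k : (0 : ℝ) ≤ k)], ?_⟩
  intro z X hz hX ps hpsk hps
  change ((TI c0 z X ps).ncard : ℝ) ≤ _
  have hk0 : (0 : ℝ) ≤ k := Nat.cast_nonneg k
  have hlz : 1 ≤ Real.log z := by
    have h3 : (1 : ℝ) ≤ Real.log 3 := by
      rw [Real.le_log_iff_exp_le (by norm_num)]
      linarith [Real.exp_one_lt_d9]
    exact h3.trans (Real.log_le_log (by norm_num) (by exact_mod_cast hz))
  have hllz : 0 ≤ Real.log (Real.log z) := Real.log_nonneg hlz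
  set L := Real.log z with hL
  have hz0 : (0 : ℝ) < z := by
    have : 0 < z := by omega
    exact_mod_cast this
  set Pr := ∏ p ∈ ps, p with hPr
  have hPr0 : 0 < Pr := Finset.prod_pos fun p hp => (hps p hp).1.pos
  have hPrc : (∏ p ∈ ps, (p : ℝ)) = (Pr : ℝ) := by rw [hPr]; push_cast; rfl
  rw [hPrc]
  have hPrR : (0 : ℝ) < Pr := by exact_mod_cast hPr0
  have hPrle : (Pr : ℝ) ≤ (z : ℝ) ^ k := by
    have h1 : Pr ≤ z ^ ps.card := Finset.prod_le_pow_card ps _ z fun p hp => (hps p hp).2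
    have h2 : Pr ≤ z ^ k := h1.trans (Nat.pow_le_pow_right (by omega) hpsk)
    exact_mod_cast h2
  -- lower bound for `X`
  have hLL : L ≤ L * (1 + Real.log L) := by nlinarith
  have hX1 : (CD + k + 1) * (L * (1 + Real.log L)) ≤ Real.log X := by
    refine le_trans ?_ hX
    have : 0 ≤ L * (1 + Real.log L) := by positivity
    nlinarith
  have hX0 : (0 : ℝ) < X := by
    rcases Nat.eq_zero_or_pos X with h | h
    · rw [h] at hX1
      simp only [Nat.cast_zero, Real.log_zero] at hX1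
      exfalso
      have : 0 < (CD + k + 1) * (L * (1 + Real.log L)) := by positivity
      linarith
    · exact_mod_cast h
  have hXz : (z : ℝ) ^ (k + 1) ≤ X := by
    rw [← Real.log_le_log_iff (by positivity) hX0, Real.log_pow]
    push_cast
    nlinarith
  have hXP : 2 * (Pr : ℝ) ≤ X := by
    have h3 : (3 : ℝ) ≤ z := by exact_mod_cast hz
    calc 2 * (Pr : ℝ) ≤ z * z ^ k := by
          have : (0 : ℝ) ≤ (z : ℝ) ^ k := by positivity
          nlinarith
      _ = (z : ℝ) ^ (k + 1) := by ring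
      _ ≤ X := hXz
  -- `N`
  set N := X / Pr with hN
  have hN1 : (X : ℝ) < Pr * (N + 1) := by
    have := Nat.lt_mul_div_succ X hPr0
    exact_mod_cast this
  have hN2 : (X : ℝ) / (2 * Pr) ≤ N := by
    rw [div_le_iff₀ (by positivity)]
    nlinarith
  have hN3 : (N : ℝ) ≤ X / Pr := by
    rw [hN]
    exact Nat.cast_div_le
  have hlogN : CD * L * (1 + Real.log L) ≤ Real.log N := by
    have h1 : Real.log (X / (2 * Pr)) ≤ Real.log N := Real.log_le_log (by positivity) hN2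
    rw [Real.log_div hX0.ne' (by positivity), Real.log_mul (by norm_num) hPrR.ne'] at h1
    have h2 : Real.log Pr ≤ k * L := by
      have := Real.log_le_log hPrR hPrle
      rwa [Real.log_pow] at this
    have h3 : Real.log 2 ≤ L := Real.log_le_log (by norm_num) (by
      have : (3 : ℝ) ≤ z := by exact_mod_cast hz
      linarith)
    nlinarith
  have hmain := hsieve z N hz hlogN (SS c0 ps z) (fun r => r ^ 2) hh
    (fun p hp => ⟨(mem_SS.1 hp).1.1, (mem_SS.1 hp).1.2, Or.inr rfl⟩) (fun p _ n => hh_01 p n)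
    (fun p _ n => hh_per p n) (by
      intro p hp
      have hp0 := (mem_SS.1 hp).1.1.pos
      have hpR : (0 : ℝ) < p := by exact_mod_cast hp0
      rw [mean_eq p hp0]
      have h1 : (0 : ℝ) ≤ 1 / (p : ℝ) ^ 2 := by positivity
      have h2 : (1 : ℝ) / p ≤ 2 / p := by
        apply div_le_div_of_nonneg_right _ hpR.le
        norm_num
      linarith)
  have hms : ∑ p ∈ SS c0 ps z, (∑ n ∈ range (p ^ 2), hh p n) / ((p ^ 2 : ℕ) : ℝ) =
      ∑ r ∈ SS c0 ps z, (1 / (r : ℝ) - 1 / (r : ℝ) ^ 2) :=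
    sum_congr rfl fun r hr => mean_eq r (mem_SS.1 hr).1.1.pos
  rw [hms] at hmain
  have hlow := mean_lower hCM hCS hc0 hpsk hz
  have hexp : Real.exp (-∑ r ∈ SS c0 ps z, (1 / (r : ℝ) - 1 / (r : ℝ) ^ 2)) ≤ Real.exp K / L := by
    calc Real.exp (-∑ r ∈ SS c0 ps z, (1 / (r : ℝ) - 1 / (r : ℝ) ^ 2))
        ≤ Real.exp (K - Real.log L) := Real.exp_le_exp.2 (by rw [hL, hK]; linarith)
      _ = Real.exp K / L := by
        rw [Real.exp_sub, Real.exp_log (by linarith)]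
  calc ((TI c0 z X ps).ncard : ℝ) ≤ CD * N * Real.exp (-∑ r ∈ SS c0 ps z, (1 / (r : ℝ) - 1 / (r : ℝ) ^ 2)) :=
        (count_le hps).trans hmain
    _ ≤ CD * (X / Pr) * (Real.exp K / L) := by gcongr
    _ = (CD * Real.exp K) * (X / Pr) / L := by ring
    _ ≤ (CD * Real.exp K + CD + k + 1) * (X / Pr) / L := by
        gcongr
        linarith

end Pool.Agent.H951R4.OD
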