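import Pool.Agent.H951R4.OD.Defs
import Pool.Agent.H951R4.OD.A1
import Pool.Agent.H951R4.OD.C2
import Pool.Agent.H951R4.OD.D1
import Pool.Agent.H951R4.OD.M

/-!
# Orders of difference sets: task D2b, the second count
-/

set_option autoImplicit false

namespace Pool.Agent.H951R4.OD

open Finset

theorem D2b_per {f : ℕ → ℤ} {c0 : ℕ} {e : ℝ} {Δ : ℤ} (h : Pol f c0 e Δ) (q n j : ℕ) :
    (q : ℤ) ∣ f (n + q * j) - f n := by
  induction j with
  | zero => simp
  | succ j ih =>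
    have h1 := h.per q (n + q * j)
    have e1 : n + q * (j + 1) = n + q * j + q := by ring
    rw [e1]
    have e2 : f (n + q * j + q) - f n = (f (n + q * j + q) - f (n + q * j)) +
      (f (n + q * j) - f n) := by ring
    rw [e2]
    exact dvd_add h1 ih

theorem D2b_mod {f : ℕ → ℤ} {c0 : ℕ} {e : ℝ} {Δ : ℤ} (h : Pol f c0 e Δ) (q n : ℕ) :
    (q : ℤ) ∣ f n ↔ (q : ℤ) ∣ f (n % q) := by
  have h1 := D2b_per h q (n % q) (n / q)
  rw [Nat.mod_add_div] at h1
  have h2 := (Int.emod_emod_of_dvd (f n - f (n % q)) (dvd_refl (q : ℤ)))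
  constructor
  · intro h3
    have := dvd_sub h3 h1
    simpa using this
  · intro h3
    have := dvd_add h1 h3
    simpa using this

theorem D2b_cnt2 {f : ℕ → ℤ} {c0 : ℕ} {e : ℝ} {Δ : ℤ} (h : Pol f c0 e Δ) {q : ℕ} (hq : q.Prime)
    (hqc : ¬ q ∣ c0) (Pr : ℕ) (hcop : Nat.Coprime Pr q) :
    ∑ n ∈ range q, (if (q : ℤ) ∣ f (Pr * n) then (1 : ℝ) else 0) = 1 + e * ch Δ q := by
  rw [← h.cnt q hq hqc, Finset.card_filter]
  push_cast
  have hinj : Set.InjOn (fun n : ℕ => (Pr * n) % q) (range q : Set ℕ) := by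
    intro a ha b hb hab
    simp only [coe_range, Set.mem_Iio] at ha hb
    have h1 : Pr * a ≡ Pr * b [MOD q] := hab
    have h2 : a ≡ b [MOD q] := Nat.ModEq.cancel_left_of_coprime (by simpa [Nat.coprime_comm] using hcop) h1
    exact Nat.ModEq.eq_of_lt_of_lt h2 ha hb
  have himg : (range q).image (fun n : ℕ => (Pr * n) % q) = range q := by
    apply Finset.eq_of_subset_of_card_le
    · intro x hx
      obtain ⟨a, -, rfl⟩ := mem_image.1 hx
      exact mem_range.2 (Nat.mod_lt _ hq.pos)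
    · rw [Finset.card_image_of_injOn hinj]
  conv_rhs => rw [← himg]
  rw [Finset.sum_image hinj]
  refine Finset.sum_congr rfl fun n _ => ?_
  rw [if_congr (D2b_mod h q (Pr * n)) rfl rfl]

theorem D2b_cnt1 {r : ℕ} (hr : r.Prime) :
    ∑ n ∈ range (r ^ 2), (if (r ∣ n ∧ ¬ r ^ 2 ∣ n) then (1 : ℝ) else 0) = r - 1 := by
  rw [← Finset.sum_filter, Finset.sum_const, nsmul_eq_mul, mul_one]
  have h1 : (range (r ^ 2)).filter (fun n => r ∣ n ∧ ¬ r ^ 2 ∣ n) = (Ico 1 r).image (r * ·) := by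
    ext n
    simp only [mem_filter, mem_range, mem_image, mem_Ico]
    constructor
    · rintro ⟨h1, ⟨c, rfl⟩, h3⟩
      refine ⟨c, ⟨?_, ?_⟩, rfl⟩
      · rcases Nat.eq_zero_or_pos c with h | h
        · subst h; simp at h3
        · exact h
      · rw [pow_two] at h1
        exact lt_of_mul_lt_mul_left h1 (Nat.zero_le _)
    · rintro ⟨c, ⟨h1, h2⟩, rfl⟩
      refine ⟨?_, dvd_mul_right _ _, ?_⟩
      · rw [pow_two]; exact Nat.mul_lt_mul_of_pos_left h2 hr.pos
      · intro h3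
        rw [pow_two] at h3
        have h4 := Nat.dvd_of_mul_dvd_mul_left hr.pos h3
        have := Nat.le_of_dvd (by omega) h4
        omega
  rw [h1, Finset.card_image_of_injective _ (fun a b hab => Nat.eq_of_mul_eq_mul_left hr.pos hab),
    Nat.card_Ico, Nat.cast_sub hr.one_le]
  simp

/-- the modulus and the weights of the sieve -/
def D2b_md (P p : ℕ) : ℕ := if p ≤ P then p ^ 2 else p

open scoped Classical in
noncomputable def D2b_h (f : ℕ → ℤ) (P Pr p n : ℕ) : ℝ :=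
  if p ≤ P then (if (p ∣ n ∧ ¬ p ^ 2 ∣ n) then 1 else 0) else (if (p : ℤ) ∣ f (Pr * n) then 1 else 0)

theorem D2b_mean1 {f : ℕ → ℤ} {P Pr p : ℕ} (hp : p.Prime) (hP : p ≤ P) :
    (∑ n ∈ range (D2b_md P p), D2b_h f P Pr p n) / D2b_md P p = 1 / p - 1 / (p : ℝ) ^ 2 := by
  have hp0 : (0 : ℝ) < p := by exact_mod_cast hp.pos
  have e1 : ∀ n ∈ range (p ^ 2), D2b_h f P Pr p n = (if (p ∣ n ∧ ¬ p ^ 2 ∣ n) then (1 : ℝ) else 0) := by
    intro n _
    simp only [D2b_h, hP, if_true]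
  have e2 : D2b_md P p = p ^ 2 := by simp [D2b_md, hP]
  rw [e2, Finset.sum_congr rfl e1, D2b_cnt1 hp]
  push_cast
  field_simp

theorem D2b_mean2 {f : ℕ → ℤ} {c0 : ℕ} {e : ℝ} {Δ : ℤ} (h : Pol f c0 e Δ) {P Pr q : ℕ}
    (hq : q.Prime) (hP : P < q) (hqc : ¬ q ∣ c0) (hcop : Nat.Coprime Pr q) :
    (∑ n ∈ range (D2b_md P q), D2b_h f P Pr q n) / D2b_md P q = (1 + e * ch Δ q) / q := by
  have hP' : ¬ q ≤ P := by omega
  have e1 : ∀ n ∈ range q, D2b_h f P Pr q n = (if (q : ℤ) ∣ f (Pr * n) then (1 : ℝ) else 0) := by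
    intro n _
    simp only [D2b_h, hP', if_false]
  have e2 : D2b_md P q = q := by simp [D2b_md, hP']
  rw [e2, Finset.sum_congr rfl e1, D2b_cnt2 h hq hqc Pr hcop]

theorem D2b_h01 (f : ℕ → ℤ) (P Pr p n : ℕ) : D2b_h f P Pr p n = 0 ∨ D2b_h f P Pr p n = 1 := by
  unfold D2b_h
  split_ifs <;> simp

theorem D2b_hper {f : ℕ → ℤ} {c0 : ℕ} {e : ℝ} {Δ : ℤ} (h : Pol f c0 e Δ) (P Pr p n : ℕ) :
    D2b_h f P Pr p (n + D2b_md P p) = D2b_h f P Pr p n := by
  unfold D2b_h D2b_md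
  by_cases hP : p ≤ P
  · simp only [hP, if_true]
    have h1 : p ∣ n + p ^ 2 ↔ p ∣ n := (Nat.dvd_add_left (dvd_pow_self p (by norm_num)))
    have h2 : p ^ 2 ∣ n + p ^ 2 ↔ p ^ 2 ∣ n := (Nat.dvd_add_left (dvd_refl _))
    simp only [h1, h2]
  · simp only [hP, if_false]
    have h1 := D2b_per h p (Pr * n) Pr
    have e1 : Pr * (n + p) = Pr * n + p * Pr := by ring
    rw [e1]
    have h2 : (p : ℤ) ∣ f (Pr * n + p * Pr) ↔ (p : ℤ) ∣ f (Pr * n) := by
      constructor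
      · intro h3
        have := dvd_sub h3 h1
        simpa using this
      · intro h3
        have := dvd_add h1 h3
        simpa using this
    simp only [h2]

theorem D2b_ch_le (D : ℤ) (n : ℕ) : |ch D n| ≤ 1 := by
  rcases ch_val D n with h | h | h <;> rw [h] <;> simp

open scoped Classical in
/-- the elements of the set are sifted -/
theorem D2b_sift {f : ℕ → ℤ} {c0 : ℕ} (ps : Finset ℕ) (hps : ∀ p ∈ ps, p.Prime) (S1 S2 : Finset ℕ)
    (X y z : ℕ) (hS1 : ∀ r ∈ S1, r.Prime ∧ r ≤ ps.sup id ∧ ¬ r ∣ c0 ∧ r ∉ ps)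
    (hS2 : ∀ q ∈ S2, q ∈ Bad c0 ps y z) (hy : ps.sup id ≤ y) :
    ({n : ℕ | 1 ≤ n ∧ n ≤ X ∧ Pass f c0 n ∧ (∀ p ∈ ps, Ex c0 n p) ∧
        ∀ p : ℕ, Ex c0 n p → p ≤ ps.sup id → p ∈ ps}.ncard : ℝ) ≤
      ∑ n ∈ Icc 1 (X / ∏ p ∈ ps, p), ∏ p ∈ S1 ∪ S2,
        (1 - D2b_h f (ps.sup id) (∏ p ∈ ps, p) p n) := by
  set Pr : ℕ := ∏ p ∈ ps, p with hPr
  set P : ℕ := ps.sup id with hP
  have hPr0 : 0 < Pr := Finset.prod_pos fun p hp => (hps p hp).pos
  set A : Set ℕ := {n : ℕ | 1 ≤ n ∧ n ≤ X ∧ Pass f c0 n ∧ (∀ p ∈ ps, Ex c0 n p) ∧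
        ∀ p : ℕ, Ex c0 n p → p ≤ P → p ∈ ps} with hA
  set F : Finset ℕ := (Icc 1 (X / Pr)).filter (fun m => Pr * m ∈ A) with hF
  have hdiv : ∀ n : ℕ, (∀ p ∈ ps, Ex c0 n p) → Pr ∣ n := by
    intro n hn
    rw [hPr]
    apply Finset.prod_primes_dvd
    · intro p hp; exact (hps p hp).prime
    · intro p hp; exact (hn p hp).2.2.1
  have hsub : A ⊆ ((F.image (Pr * ·) : Finset ℕ) : Set ℕ) := by
    intro n hn
    obtain ⟨m, rfl⟩ := hdiv n hn.2.2.2.1
    simp only [coe_image, Set.mem_image, mem_coe]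
    refine ⟨m, ?_, rfl⟩
    rw [hF, mem_filter, mem_Icc]
    refine ⟨⟨?_, ?_⟩, hn⟩
    · rcases Nat.eq_zero_or_pos m with h | h
      · subst h; exact absurd hn.1 (by simp)
      · exact h
    · rw [Nat.le_div_iff_mul_le hPr0, mul_comm]; exact hn.2.1
  have hcard : (A.ncard : ℝ) ≤ F.card := by
    have h1 := Set.ncard_le_ncard hsub (Finset.finite_toSet _)
    rw [Set.ncard_coe_finset] at h1
    have h2 := h1.trans Finset.card_image_le
    exact_mod_cast h2
  refine hcard.trans ?_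
  rw [Finset.card_filter]
  push_cast
  refine Finset.sum_le_sum fun m _ => ?_
  by_cases hm : Pr * m ∈ A
  · rw [if_pos hm]
    apply le_of_eq
    symm
    apply Finset.prod_eq_one
    intro p hp
    have hzero : D2b_h f P Pr p m = 0 := by
      rcases mem_union.1 hp with hp | hp
      · obtain ⟨h1, h2, h3, h4⟩ := hS1 p hp
        unfold D2b_h
        rw [if_pos h2, if_neg]
        rintro ⟨h5, h6⟩
        apply h4
        have hcop : Nat.Coprime Pr p := by
          rw [hPr]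
          apply Nat.Coprime.prod_left
          intro q hq
          exact (Nat.coprime_primes (hps q hq) h1).2 (fun hh => h4 (hh ▸ hq))
        refine hm.2.2.2.2 p ⟨h1, h3, dvd_mul_of_dvd_right h5 _, ?_⟩ h2
        intro h7
        apply h6
        exact Nat.Coprime.dvd_of_dvd_mul_left (Nat.Coprime.pow_left 2 hcop.symm) h7
      · have hb := hS2 p hp
        have hb' : (P < p ∧ p.Prime) ∧ ¬ p ∣ c0 ∧ ∃ r ∈ ps, ch r p = -1 := by
          simp only [Bad, PI, mem_filter, mem_Ioc] at hb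
          exact ⟨⟨lt_of_le_of_lt hy hb.1.1.1, hb.1.2⟩, hb.2⟩
        obtain ⟨⟨h1, h2⟩, h3, r, hr, h4⟩ := hb'
        unfold D2b_h
        rw [if_neg (by omega), if_neg]
        intro h5
        exact hm.2.2.1 r p (hm.2.2.2.1 r hr) h2 h3 h5 h4
    rw [hzero, sub_zero]
  · rw [if_neg hm]
    apply Finset.prod_nonneg
    intro p _
    rcases D2b_h01 f P Pr p m with h | h <;> rw [h] <;> norm_num

/-- lower bound of the small primes -/
theorem D2b_small (c0 : ℕ) (hc0 : 0 < c0) (k : ℕ) : ∃ C : ℝ, 0 ≤ C ∧ ∀ ps : Finset ℕ, ps.card = k →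
    ∀ P : ℕ, 2 ≤ P →
    Real.log (Real.log ((max P 3 : ℕ) : ℝ)) - C ≤
      ∑ r ∈ (PI 0 P).filter (fun r => ¬ r ∣ c0 ∧ r ∉ ps), (1 / (r : ℝ) - 1 / (r : ℝ) ^ 2) := by
  obtain ⟨C1, hC1, hm⟩ := mert_le
  obtain ⟨C2, hC2, hs⟩ := sum_sq_inv
  refine ⟨C1 + C2 + c0 + k + 1, by positivity, ?_⟩
  intro ps hps P hP
  -- all primes up to P
  have h1 : Real.log (Real.log ((max P 3 : ℕ) : ℝ)) - (C1 + 1) ≤ ∑ r ∈ PI 0 P, (1 : ℝ) / r := by
    rcases Nat.lt_or_ge P 3 with h3 | h3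
    · have e1 : max P 3 = 3 := by omega
      rw [e1]
      have h4 : Real.log (Real.log ((3 : ℕ) : ℝ)) ≤ 1 := by
        have h5 : Real.log ((3 : ℕ) : ℝ) ≤ 3 - 1 := by
          have := Real.log_le_sub_one_of_pos (by norm_num : (0 : ℝ) < 3)
          simpa using this
        have h6 : 0 < Real.log ((3 : ℕ) : ℝ) := Real.log_pos (by norm_num)
        have h7 := Real.log_le_sub_one_of_pos h6
        linarith
      have h8 : 0 ≤ ∑ r ∈ PI 0 P, (1 : ℝ) / r := Finset.sum_nonneg fun r _ => by positivity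
      refine le_trans ?_ h8
      have h9 : Real.log (Real.log ((3 : ℕ) : ℝ)) - (C1 + 1) ≤ 1 - (C1 + 1) := sub_le_sub_right h4 _
      refine h9.trans ?_
      linarith
    · have e1 : max P 3 = P := by omega
      rw [e1]
      have := (abs_le.1 (hm P h3)).1
      linarith
  -- the removed primes
  have h2 : ∑ r ∈ PI 0 P, (1 : ℝ) / r ≤
      ∑ r ∈ (PI 0 P).filter (fun r => ¬ r ∣ c0 ∧ r ∉ ps), (1 : ℝ) / r + (c0 + k) := by
    rw [← Finset.sum_filter_add_sum_filter_not (PI 0 P) (fun r => ¬ r ∣ c0 ∧ r ∉ ps)]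
    have h3 : ∑ r ∈ (PI 0 P).filter (fun r => ¬ (¬ r ∣ c0 ∧ r ∉ ps)), (1 : ℝ) / r ≤ c0 + k := by
      have h4 : (PI 0 P).filter (fun r => ¬ (¬ r ∣ c0 ∧ r ∉ ps)) ⊆ Ioc 0 c0 ∪ ps := by
        intro r hr
        simp only [mem_filter, PI, mem_Ioc] at hr
        obtain ⟨⟨⟨h5, h6⟩, h7⟩, h8⟩ := hr
        rw [mem_union, mem_Ioc]
        by_cases h9 : r ∈ ps
        · exact Or.inr h9
        · left
          have h10 : r ∣ c0 := by
            by_contra h11
            exact h8 ⟨h11, h9⟩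
          exact ⟨h5, Nat.le_of_dvd hc0 h10⟩
      have h5 : ∑ r ∈ (PI 0 P).filter (fun r => ¬ (¬ r ∣ c0 ∧ r ∉ ps)), (1 : ℝ) / r ≤
          ∑ r ∈ (PI 0 P).filter (fun r => ¬ (¬ r ∣ c0 ∧ r ∉ ps)), (1 : ℝ) := by
        apply Finset.sum_le_sum
        intro r hr
        simp only [mem_filter, PI, mem_Ioc] at hr
        have h6 : (1 : ℝ) ≤ r := by exact_mod_cast hr.1.1.1
        rw [div_le_one (by linarith)]
        exact h6
      refine h5.trans ?_
      rw [Finset.sum_const, nsmul_eq_mul, mul_one]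
      have h6 := (Finset.card_le_card h4).trans (Finset.card_union_le _ _)
      rw [Nat.card_Ioc, hps] at h6
      have h7 : c0 - 0 + k = c0 + k := by omega
      rw [h7] at h6
      exact_mod_cast h6
    linarith
  have h3 : ∑ r ∈ (PI 0 P).filter (fun r => ¬ r ∣ c0 ∧ r ∉ ps), (1 / (r : ℝ) - 1 / (r : ℝ) ^ 2) =
      ∑ r ∈ (PI 0 P).filter (fun r => ¬ r ∣ c0 ∧ r ∉ ps), (1 : ℝ) / r -
      ∑ r ∈ (PI 0 P).filter (fun r => ¬ r ∣ c0 ∧ r ∉ ps), (1 : ℝ) / (r : ℝ) ^ 2 :=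
    Finset.sum_sub_distrib _ _
  have h4 := hs ((PI 0 P).filter (fun r => ¬ r ∣ c0 ∧ r ∉ ps))
  rw [h3]
  linarith

open scoped Classical in
theorem countII {f : ℕ → ℤ} {c0 : ℕ} {e : ℝ} {Δ : ℤ} (h : Pol f c0 e Δ) (k : ℕ) (hk : 1 ≤ k) :
    ∃ C : ℝ, 1 ≤ C ∧ ∀ z X : ℕ, 3 ≤ z →
    C * Real.log z * (1 + Real.log (Real.log z)) ≤ Real.log X →
    ∀ ps : Finset ℕ, ps.card = k → (∀ p ∈ ps, p.Prime ∧ p ≤ z) →
      ({n : ℕ | 1 ≤ n ∧ n ≤ X ∧ Pass f c0 n ∧ (∀ p ∈ ps, Ex c0 n p) ∧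
        ∀ p : ℕ, Ex c0 n p → p ≤ ps.sup id → p ∈ ps}.ncard : ℝ) ≤
      C * (X / ∏ p ∈ ps, (p : ℝ)) * (Real.log z) ^ (-1 + (1 / 2 : ℝ) ^ k : ℝ) := by
  obtain ⟨Cs, hCs, hsieve⟩ := sieve
  obtain ⟨Cb, hCb, hbad⟩ := bad_lower h
  obtain ⟨Ci, hCi, hint⟩ := mert_int
  obtain ⟨Ca, hCa, hsmall⟩ := D2b_small c0 h.pos k
  set K : ℝ := Real.log (2 * Cb) + 2 * k with hK
  have hkr : (1 : ℝ) ≤ k := by exact_mod_cast hk
  have hlogCb : 0 < Real.log (2 * Cb) := Real.log_pos (by linarith)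
  have hK1 : 1 ≤ K := by rw [hK]; linarith
  set C' : ℝ := Ca + Ci + Cb + Real.log K with hC'
  have hlogK : 0 ≤ Real.log K := Real.log_nonneg hK1
  have hC'0 : 0 ≤ C' := by positivity
  set δ : ℝ := (1 / 2 : ℝ) ^ k with hδ
  have hδ0 : 0 < δ := by positivity
  have hδ1 : δ ≤ 1 := pow_le_one₀ (by norm_num) (by norm_num)
  refine ⟨Cs * Real.exp C' + Cs + k + 1, ?_, ?_⟩
  · have : 0 ≤ Cs * Real.exp C' := by positivity
    have hk0 : (0 : ℝ) ≤ k := Nat.cast_nonneg k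
    linarith
  intro z X hz hX ps hpk hps
  set Pr : ℕ := ∏ p ∈ ps, p with hPr
  set P : ℕ := ps.sup id with hP
  have hz3 : (3 : ℝ) ≤ z := by exact_mod_cast hz
  have hexp : Real.exp 1 ≤ z := by
    have := Real.exp_one_lt_d9
    linarith
  have hlz : 1 ≤ Real.log z := by
    rw [Real.le_log_iff_exp_le (by linarith)]; exact hexp
  have hllz : 0 ≤ Real.log (Real.log z) := Real.log_nonneg hlz
  have hne : ps.Nonempty := by
    rw [← Finset.card_pos]; omega
  obtain ⟨P0, hP0, hP0'⟩ := Finset.exists_mem_eq_sup ps hne id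
  have hPP0 : P = P0 := hP0'
  have hPmem : P ∈ ps := by rw [hPP0]; exact hP0
  have hPprime : P.Prime := (hps P hPmem).1
  have hPz : P ≤ z := (hps P hPmem).2
  have hleP : ∀ p ∈ ps, p ≤ P := fun p hp => Finset.le_sup (f := id) hp
  have hPr0 : 0 < Pr := Finset.prod_pos fun p hp => (hps p hp).1.pos
  have hPPr : P ≤ Pr := Nat.le_of_dvd hPr0 (Finset.dvd_prod_of_mem _ hPmem)
  have hPrP : Pr ≤ P ^ k := by
    have := Finset.prod_le_pow_card ps (fun p => p) P hleP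
    rw [hpk] at this
    exact this
  have hPrz : Pr ≤ z ^ k := hPrP.trans (Nat.pow_le_pow_left hPz k)
  have hPrr : (1 : ℝ) ≤ Pr := by exact_mod_cast hPr0
  have hprod : (∏ p ∈ ps, (p : ℝ)) = (Pr : ℝ) := by rw [hPr]; push_cast; rfl
  rw [hprod]
  -- sizes
  have hlogPr : Real.log Pr ≤ k * Real.log z := by
    rw [← Real.log_pow]
    apply Real.log_le_log (by linarith)
    exact_mod_cast hPrz
  have hCC : (Cs + k + 1) * (Real.log z * (1 + Real.log (Real.log z))) ≤ Real.log X := by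
    refine le_trans ?_ hX
    rw [mul_assoc]
    apply mul_le_mul_of_nonneg_right _ (by positivity)
    have : 0 ≤ Cs * Real.exp C' := by positivity
    linarith
  have hL1 : Real.log z ≤ Real.log z * (1 + Real.log (Real.log z)) := by nlinarith
  set LL : ℝ := Real.log z * (1 + Real.log (Real.log z)) with hLL
  have hLL1 : 1 ≤ LL := hlz.trans hL1
  have hX0 : 0 < Real.log X := by
    have : 0 < (Cs + k + 1) * LL := by positivity
    linarith
  have hXpos : (1 : ℝ) < X := by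
    by_contra hcon
    push Not at hcon
    have := Real.log_nonpos (Nat.cast_nonneg X) hcon
    linarith
  have hlog2 : Real.log 2 ≤ Real.log z := Real.log_le_log (by norm_num) (by linarith)
  have hXPr : Real.log (2 * Pr) ≤ Real.log X := by
    rw [Real.log_mul (by norm_num) (by linarith)]
    have : (k : ℝ) * Real.log z ≤ k * LL := mul_le_mul_of_nonneg_left hL1 (by linarith)
    nlinarith
  have hXPr' : 2 * (Pr : ℝ) ≤ X := (Real.log_le_log_iff (by linarith) (by linarith)).1 hXPr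
  have hN2 : (X : ℝ) / (2 * Pr) ≤ ((X / Pr : ℕ) : ℝ) := by
    have h1 : (X : ℝ) / Pr < ((X / Pr : ℕ) : ℝ) + 1 := by
      rw [div_lt_iff₀ (by linarith)]
      have := Nat.lt_mul_div_succ X hPr0
      rw [mul_comm]
      exact_mod_cast this
    have h2 : (2 : ℝ) ≤ X / Pr := by
      rw [le_div_iff₀ (by linarith)]; exact hXPr'
    have h3 : (X : ℝ) / (2 * Pr) = (X / Pr) / 2 := by
      field_simp
    rw [h3]
    linarith
  have hNle : ((X / Pr : ℕ) : ℝ) ≤ X / Pr := Nat.cast_div_le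
  have hlogN : Cs * Real.log z * (1 + Real.log (Real.log z)) ≤ Real.log ((X / Pr : ℕ) : ℝ) := by
    have h1 : Real.log ((X : ℝ) / (2 * Pr)) ≤ Real.log ((X / Pr : ℕ) : ℝ) :=
      Real.log_le_log (by positivity) hN2
    rw [Real.log_div (by linarith) (by positivity), Real.log_mul (by norm_num) (by linarith)] at h1
    have : (k : ℝ) * Real.log z ≤ k * LL := mul_le_mul_of_nonneg_left hL1 (by linarith)
    rw [mul_assoc]
    nlinarith
  -- y
  set y : ℕ := ⌈Cb * (Pr : ℝ) ^ 2⌉₊ with hy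
  have hy1 : Cb * (Pr : ℝ) ^ 2 ≤ y := Nat.le_ceil _
  have hy2 : (y : ℝ) < Cb * (Pr : ℝ) ^ 2 + 1 := Nat.ceil_lt_add_one (by positivity)
  have hPy : P ≤ y := by
    have h1 : (P : ℝ) ≤ Pr := by exact_mod_cast hPPr
    have h2 : (P : ℝ) ≤ y := by nlinarith
    exact_mod_cast h2
  have hy3 : 3 ≤ y := by
    have h2 : (3 : ℝ) ≤ y := by nlinarith
    exact_mod_cast h2
  have hyr : (3 : ℝ) ≤ y := by exact_mod_cast hy3
  set P3 : ℝ := ((max P 3 : ℕ) : ℝ) with hP3
  have hP33 : (3 : ℝ) ≤ P3 := by rw [hP3]; exact_mod_cast le_max_right _ _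
  have hlP3 : 1 ≤ Real.log P3 := by
    rw [Real.le_log_iff_exp_le (by linarith)]
    have := Real.exp_one_lt_d9
    linarith
  have hlogy : Real.log y ≤ K * Real.log P3 := by
    have h1 : (y : ℝ) ≤ 2 * Cb * (Pr : ℝ) ^ 2 := by nlinarith
    have h2 : Real.log y ≤ Real.log (2 * Cb * (Pr : ℝ) ^ 2) := Real.log_le_log (by linarith) h1
    rw [Real.log_mul (by positivity) (by positivity), Real.log_pow] at h2
    have h3 : Real.log Pr ≤ k * Real.log P3 := by
      rw [← Real.log_pow]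
      apply Real.log_le_log (by linarith)
      have h4 : (Pr : ℝ) ≤ (P : ℝ) ^ k := by exact_mod_cast hPrP
      refine h4.trans (pow_le_pow_left₀ (Nat.cast_nonneg _) ?_ k)
      rw [hP3]; exact_mod_cast le_max_left _ _
    rw [hK]
    push_cast at h2
    nlinarith
  have hlogy0 : 0 < Real.log y := Real.log_pos (by linarith)
  have hlly : Real.log (Real.log y) ≤ Real.log K + Real.log (Real.log P3) := by
    rw [← Real.log_mul (by linarith) (by linarith)]
    exact Real.log_le_log hlogy0 hlogy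
  have hA0 : 0 ≤ Real.log (Real.log P3) := Real.log_nonneg hlP3
  -- the two sets
  set S1 : Finset ℕ := (PI 0 P).filter (fun r => ¬ r ∣ c0 ∧ r ∉ ps) with hS1
  set S2 : Finset ℕ := Bad c0 ps y z with hS2
  have hmem1 : ∀ r ∈ S1, r.Prime ∧ r ≤ P ∧ ¬ r ∣ c0 ∧ r ∉ ps := by
    intro r hr
    simp only [hS1, PI, mem_filter, mem_Ioc] at hr
    exact ⟨hr.1.2, hr.1.1.2, hr.2.1, hr.2.2⟩
  have hmem2 : ∀ q ∈ S2, q.Prime ∧ y < q ∧ q ≤ z ∧ ¬ q ∣ c0 := by
    intro q hq
    simp only [hS2, Bad, PI, mem_filter, mem_Ioc] at hq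
    exact ⟨hq.1.2, hq.1.1.1, hq.1.1.2, hq.2.1⟩
  have hdisj : Disjoint S1 S2 := by
    rw [Finset.disjoint_left]
    intro r h1 h2
    have := (hmem1 r h1).2.1
    have := (hmem2 r h2).2.1
    omega
  have hcop : ∀ q ∈ S2, Nat.Coprime Pr q := by
    intro q hq
    obtain ⟨h1, h2, -, -⟩ := hmem2 q hq
    rw [hPr]
    apply Nat.Coprime.prod_left
    intro p hp
    refine (Nat.coprime_primes (hps p hp).1 h1).2 (fun hh => ?_)
    have := hleP p hp
    omega
  have hme1 : ∀ r ∈ S1, (∑ n ∈ range (D2b_md P r), D2b_h f P Pr r n) / D2b_md P r =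
      1 / r - 1 / (r : ℝ) ^ 2 := fun r hr => D2b_mean1 (hmem1 r hr).1 (hmem1 r hr).2.1
  have hme2 : ∀ q ∈ S2, (∑ n ∈ range (D2b_md P q), D2b_h f P Pr q n) / D2b_md P q =
      (1 + e * ch Δ q) / q := fun q hq => D2b_mean2 h (hmem2 q hq).1 (by
        have := (hmem2 q hq).2.1
        omega) (hmem2 q hq).2.2.2 (hcop q hq)
  have hs := hsieve z (X / Pr) hz hlogN (S1 ∪ S2) (D2b_md P) (D2b_h f P Pr) (by
      intro p hp
      refine ⟨?_, ?_, ?_⟩
      · rcases mem_union.1 hp with hp | hp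
        · exact (hmem1 p hp).1
        · exact (hmem2 p hp).1
      · rcases mem_union.1 hp with hp | hp
        · exact (hmem1 p hp).2.1.trans hPz
        · exact (hmem2 p hp).2.2.1
      · unfold D2b_md
        split_ifs
        · exact Or.inr rfl
        · exact Or.inl rfl) (fun p _ n => D2b_h01 f P Pr p n) (fun p _ n => D2b_hper h P Pr p n) (by
      intro p hp
      rcases mem_union.1 hp with hp | hp
      · rw [hme1 p hp]
        have : (1 : ℝ) / p ≤ 2 / p := by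
          apply div_le_div_of_nonneg_right (by norm_num) (Nat.cast_nonneg p)
        have : (0 : ℝ) ≤ 1 / (p : ℝ) ^ 2 := by positivity
        linarith
      · rw [hme2 p hp]
        apply div_le_div_of_nonneg_right _ (Nat.cast_nonneg p)
        have h1 := (abs_le.1 (D2b_ch_le Δ p)).2
        rcases h.e01 with he | he <;> rw [he] <;> linarith)
  have hsift := D2b_sift (f := f) (c0 := c0) ps (fun p hp => (hps p hp).1) S1 S2 X y z hmem1
    (fun q hq => hq) hPy
  refine hsift.trans (hs.trans ?_)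
  rw [Finset.sum_union hdisj, Finset.sum_congr rfl hme1, Finset.sum_congr rfl hme2]
  have h1 := hsmall ps hpk P hPprime.two_le
  -- the lower bound of the sum of the means
  have hlow : (1 - δ) * Real.log (Real.log z) - C' ≤
      ∑ r ∈ S1, (1 / (r : ℝ) - 1 / (r : ℝ) ^ 2) + ∑ q ∈ S2, (1 + e * ch Δ q) / q := by
    rcases Nat.lt_or_ge z y with hzy | hyz
    · have h2 : S2 = ∅ := by
        rw [Finset.eq_empty_iff_forall_notMem]
        intro q hq
        have := (hmem2 q hq).2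
        omega
      rw [h2, Finset.sum_empty, add_zero]
      have h3 : Real.log (Real.log z) ≤ Real.log (Real.log y) := by
        apply Real.log_le_log (by linarith)
        apply Real.log_le_log (by linarith)
        exact_mod_cast hzy.le
      nlinarith
    · have h2 := hbad ps (fun p hp => (hps p hp).1) y z (by rw [hprod]; exact hy1) hyz
      rw [hpk] at h2
      have h3 := (abs_le.1 (hint y z (by omega) hyz)).1
      rw [Real.log_div (by linarith) (by linarith)] at h3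
      have h4 : (1 - δ) * (Real.log (Real.log z) - Real.log (Real.log y) - Ci) ≤
          (1 - δ) * ∑ q ∈ PI y z, (1 : ℝ) / q :=
        mul_le_mul_of_nonneg_left (by linarith) (by linarith)
      have h5 : (1 - δ) * Real.log (Real.log y) ≤ (1 - δ) * (Real.log K + Real.log (Real.log P3)) :=
        mul_le_mul_of_nonneg_left hlly (by linarith)
      have h6 : 0 ≤ δ * Real.log K := by positivity
      have h7 : 0 ≤ δ * Real.log (Real.log P3) := by positivity
      have h8 : 0 ≤ δ * Ci := by positivity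
      rw [hC']
      nlinarith
  have hexpo : Real.exp (-(∑ r ∈ S1, (1 / (r : ℝ) - 1 / (r : ℝ) ^ 2) +
      ∑ q ∈ S2, (1 + e * ch Δ q) / q)) ≤ Real.exp C' * (Real.log z) ^ (-1 + δ) := by
    rw [Real.rpow_def_of_pos (by linarith), ← Real.exp_add]
    apply Real.exp_le_exp.2
    nlinarith
  have hrp : 0 ≤ (Real.log z) ^ (-1 + δ) := Real.rpow_nonneg (by linarith) _
  have hXP0 : (0 : ℝ) ≤ X / Pr := by positivity
  calc Cs * ((X / Pr : ℕ) : ℝ) * Real.exp (-(∑ r ∈ S1, (1 / (r : ℝ) - 1 / (r : ℝ) ^ 2) +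
      ∑ q ∈ S2, (1 + e * ch Δ q) / q))
      ≤ Cs * (X / Pr) * (Real.exp C' * (Real.log z) ^ (-1 + δ)) := by
        gcongr
    _ = (Cs * Real.exp C') * (X / Pr) * (Real.log z) ^ (-1 + δ) := by ring
    _ ≤ (Cs * Real.exp C' + Cs + k + 1) * (X / Pr) * (Real.log z) ^ (-1 + δ) := by
        apply mul_le_mul_of_nonneg_right _ hrp
        apply mul_le_mul_of_nonneg_right _ hXP0
        linarith

end Pool.Agent.H951R4.OD
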