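import Pool.Agent.H951R4.OD.Defs
import Pool.Agent.H951R4.OD.D2a
import Pool.Agent.H951R4.OD.D2b
import Pool.Agent.H951R4.OD.M

/-!
# Orders of difference sets, task D3: combination of the two counts
-/

set_option autoImplicit false

namespace Pool.Agent.H951R4.OD

open Finset


theorem d3_esymm (f : ℕ → ℝ) (s : Finset ℕ) (hf : ∀ p ∈ s, 0 ≤ f p) (k : ℕ) :
    ∑ t ∈ s.powersetCard k, ∏ p ∈ t, f p ≤ (∑ p ∈ s, f p) ^ k := by
  classical
  induction s using Finset.induction_on generalizing k with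
  | empty =>
    cases k with
    | zero => simp
    | succ k =>
      rw [Finset.powersetCard_eq_empty.2 (by simp)]
      simp
  | insert a s ha ih =>
    have hs : ∀ p ∈ s, 0 ≤ f p := fun p hp => hf p (mem_insert_of_mem hp)
    have h0 : 0 ≤ f a := hf a (mem_insert_self _ _)
    have hP : 0 ≤ ∑ p ∈ s, f p := sum_nonneg hs
    cases k with
    | zero => simp
    | succ k =>
      rw [Finset.powersetCard_succ_insert ha, Finset.sum_union, Finset.sum_image, sum_insert ha]
      · have h1 : ∑ t ∈ s.powersetCard k, ∏ p ∈ insert a t, f p =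
            f a * ∑ t ∈ s.powersetCard k, ∏ p ∈ t, f p := by
          rw [Finset.mul_sum]
          apply Finset.sum_congr rfl
          intro t ht
          rw [Finset.prod_insert]
          intro hat
          exact ha ((Finset.mem_powersetCard.1 ht).1 hat)
        rw [h1]
        have h2 := ih hs (k + 1)
        have h3 := mul_le_mul_of_nonneg_left (ih hs k) h0
        have h4 : (∑ p ∈ s, f p) ^ k ≤ (f a + ∑ p ∈ s, f p) ^ k :=
          pow_le_pow_left₀ hP (by linarith) k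
        have h5 := mul_le_mul_of_nonneg_left h4 (add_nonneg h0 hP)
        calc _ ≤ (∑ p ∈ s, f p) ^ (k + 1) + f a * (∑ p ∈ s, f p) ^ k := add_le_add h2 h3
          _ = (f a + ∑ p ∈ s, f p) * (∑ p ∈ s, f p) ^ k := by ring
          _ ≤ (f a + ∑ p ∈ s, f p) * (f a + ∑ p ∈ s, f p) ^ k := h5
          _ = (f a + ∑ p ∈ s, f p) ^ (k + 1) := by ring
      · intro t ht t' ht' h
        have h1 : a ∉ t := fun h => ha ((Finset.mem_powersetCard.1 ht).1 h)
        have h2 : a ∉ t' := fun h => ha ((Finset.mem_powersetCard.1 ht').1 h)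
        rw [← Finset.erase_insert h1, h, Finset.erase_insert h2]
      · rw [Finset.disjoint_left]
        intro t ht ht'
        rw [Finset.mem_image] at ht'
        obtain ⟨t', -, rfl⟩ := ht'
        exact ha ((Finset.mem_powersetCard.1 ht).1 (mem_insert_self _ _))

theorem d3_log {z : ℕ} (hz : 3 ≤ z) : 1 ≤ Real.log z ∧ 0 ≤ Real.log (Real.log z) := by
  have h1 : 1 ≤ Real.log z := by
    rw [Real.le_log_iff_exp_le (by positivity)]
    have h2 := Real.exp_one_lt_d9
    have h3 : (3 : ℝ) ≤ z := by exact_mod_cast hz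
    linarith
  exact ⟨h1, Real.log_nonneg h1⟩

theorem sum_inv_prod (k : ℕ) : ∃ C : ℝ, 1 ≤ C ∧ ∀ z : ℕ, 3 ≤ z →
    ∑ ps ∈ (PI 0 z).powersetCard k, 1 / ∏ p ∈ ps, (p : ℝ) ≤
      C * (1 + Real.log (Real.log z)) ^ k := by
  obtain ⟨C, hC, h⟩ := mert_le
  refine ⟨(1 + C) ^ k, one_le_pow₀ (by linarith), fun z hz => ?_⟩
  obtain ⟨-, hl⟩ := d3_log hz
  have h1 := (abs_le.1 (h z hz)).2
  have h2 : ∑ q ∈ PI 0 z, (1 : ℝ) / q ≤ (1 + C) * (1 + Real.log (Real.log z)) := by nlinarith
  have h3 := d3_esymm (fun q => (1 : ℝ) / q) (PI 0 z) (fun p _ => by positivity) k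
  have h4 : ∀ ps ∈ (PI 0 z).powersetCard k, 1 / ∏ p ∈ ps, (p : ℝ) = ∏ p ∈ ps, (1 : ℝ) / p := by
    intro ps _
    rw [Finset.prod_div_distrib, Finset.prod_const_one]
  rw [Finset.sum_congr rfl h4, ← mul_pow]
  exact h3.trans (pow_le_pow_left₀ (sum_nonneg (fun p _ => by positivity)) h2 k)

/-- the smallest elements of a finite set -/
theorem d3_smallest (T : Finset ℕ) (h0 : 0 ∉ T) (k : ℕ) (hk : k ≤ T.card) :
    ∃ ps ⊆ T, ps.card = k ∧ ∀ p ∈ T, p ≤ ps.sup id → p ∈ ps := by
  classical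
  induction k with
  | zero =>
    refine ⟨∅, empty_subset _, rfl, fun p hp hle => ?_⟩
    rw [Finset.sup_empty, Nat.bot_eq_zero, Nat.le_zero] at hle
    exact absurd (hle ▸ hp) h0
  | succ k ih =>
    obtain ⟨ps, hps, hcard, hdown⟩ := ih (by omega)
    have hne : (T \ ps).Nonempty := by
      rw [← Finset.card_pos, Finset.card_sdiff_of_subset hps]
      omega
    obtain ⟨m, hm, hmin⟩ := Finset.exists_min_image (T \ ps) id hne
    rw [Finset.mem_sdiff] at hm
    refine ⟨insert m ps, Finset.insert_subset hm.1 hps, ?_, fun p hp hle => ?_⟩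
    · rw [Finset.card_insert_of_notMem hm.2, hcard]
    · by_cases hpp : p ∈ ps
      · exact mem_insert_of_mem hpp
      · rw [Finset.sup_insert, le_sup_iff] at hle
        rcases hle with hle | hle
        · have h1 := hmin p (Finset.mem_sdiff.2 ⟨hp, hpp⟩)
          have h2 : p = m := le_antisymm hle h1
          rw [h2]
          exact mem_insert_self _ _
        · exact mem_insert_of_mem (hdown p hp hle)

theorem d3_ncard (X : ℕ) (P : ℕ → Prop) [DecidablePred P] :
    {n : ℕ | 1 ≤ n ∧ n ≤ X ∧ P n}.ncard = ((Icc 1 X).filter P).card := by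
  rw [← Set.ncard_coe_finset]
  congr 1
  ext n
  simp only [Set.mem_ofPred_eq, Finset.coe_filter, Finset.mem_Icc, and_assoc]

open Classical in
/-- the covering -/
theorem d3_cover {f : ℕ → ℤ} {c0 : ℕ} (k z X : ℕ) :
    (Icc 1 X).filter (Pass f c0) ⊆
      (((range k).biUnion (fun j => (PI 0 z).powersetCard j)).biUnion (fun ps =>
        (Icc 1 X).filter (fun n => (∀ p ∈ ps, Ex c0 n p) ∧
          ∀ p : ℕ, p ≤ z → Ex c0 n p → p ∈ ps))) ∪
      (((PI 0 z).powersetCard k).biUnion (fun ps =>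
        (Icc 1 X).filter (fun n => Pass f c0 n ∧ (∀ p ∈ ps, Ex c0 n p) ∧
          ∀ p : ℕ, Ex c0 n p → p ≤ ps.sup id → p ∈ ps))) := by
  intro n hn
  rw [Finset.mem_filter] at hn
  obtain ⟨hn1, hn2⟩ := hn
  set T := (PI 0 z).filter (fun p => Ex c0 n p) with hT
  have hTm : ∀ p, p ≤ z → Ex c0 n p → p ∈ T := by
    intro p hp he
    rw [hT, Finset.mem_filter]
    refine ⟨?_, he⟩
    unfold PI
    rw [Finset.mem_filter, Finset.mem_Ioc]
    exact ⟨⟨he.1.pos, hp⟩, he.1⟩
  have hTe : ∀ p ∈ T, Ex c0 n p := fun p hp => (Finset.mem_filter.1 hp).2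
  have hTs : T ⊆ PI 0 z := Finset.filter_subset _ _
  rw [Finset.mem_union]
  by_cases hk : T.card < k
  · left
    rw [Finset.mem_biUnion]
    refine ⟨T, ?_, ?_⟩
    · rw [Finset.mem_biUnion]
      exact ⟨T.card, Finset.mem_range.2 hk, Finset.mem_powersetCard.2 ⟨hTs, rfl⟩⟩
    · rw [Finset.mem_filter]
      exact ⟨hn1, hTe, hTm⟩
  · right
    push Not at hk
    have h0 : 0 ∉ T := fun h => Nat.not_prime_zero (hTe 0 h).1
    obtain ⟨ps, hps, hcard, hdown⟩ := d3_smallest T h0 k hk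
    rw [Finset.mem_biUnion]
    refine ⟨ps, Finset.mem_powersetCard.2 ⟨hps.trans hTs, hcard⟩, ?_⟩
    rw [Finset.mem_filter]
    refine ⟨hn1, hn2, fun p hp => hTe p (hps hp), fun p he hle => ?_⟩
    apply hdown p _ hle
    apply hTm p _ he
    refine hle.trans (Finset.sup_le fun q hq => ?_)
    have := hTs (hps hq)
    unfold PI at this
    rw [Finset.mem_filter, Finset.mem_Ioc] at this
    exact this.1.2

theorem d3_ps {k z : ℕ} {ps : Finset ℕ} (h : ps ∈ (PI 0 z).powersetCard k) :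
    ps.card = k ∧ ∀ p ∈ ps, p.Prime ∧ p ≤ z := by
  rw [Finset.mem_powersetCard] at h
  refine ⟨h.2, fun p hp => ?_⟩
  have := h.1 hp
  unfold PI at this
  rw [Finset.mem_filter, Finset.mem_Ioc] at this
  exact ⟨this.2, this.1.2⟩

theorem combine {f : ℕ → ℤ} {c0 : ℕ} {e : ℝ} {Δ : ℤ} (h : Pol f c0 e Δ) (k : ℕ) (hk : 1 ≤ k) :
    ∃ C : ℝ, 1 ≤ C ∧ ∀ z X : ℕ, 3 ≤ z →
    C * Real.log z * (1 + Real.log (Real.log z)) ≤ Real.log X →
      ({n : ℕ | 1 ≤ n ∧ n ≤ X ∧ Pass f c0 n}.ncard : ℝ) ≤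
      C * X * (1 + Real.log (Real.log z)) ^ k * (Real.log z) ^ (-1 + (1 / 2 : ℝ) ^ k : ℝ) := by
  classical
  obtain ⟨C1, hC1, h1⟩ := countI c0 h.pos k
  obtain ⟨C2, hC2, h2⟩ := countII h k hk
  choose D hD1 hD using sum_inv_prod
  have hsum : 0 ≤ ∑ j ∈ range k, D j := sum_nonneg (fun j _ => by linarith [hD1 j])
  refine ⟨C1 + C2 + C1 * (∑ j ∈ range k, D j) + C2 * D k, ?_, fun z X hz hX => ?_⟩
  · have : 0 ≤ C1 * (∑ j ∈ range k, D j) := mul_nonneg (by linarith) hsum
    have : 0 ≤ C2 * D k := mul_nonneg (by linarith) (by linarith [hD1 k])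
    linarith
  · obtain ⟨hlog, hll⟩ := d3_log hz
    have hp1 : 0 ≤ C1 * (∑ j ∈ range k, D j) := mul_nonneg (by linarith) hsum
    have hp2 : 0 ≤ C2 * D k := mul_nonneg (by linarith) (by linarith [hD1 k])
    have hA : 0 ≤ Real.log z * (1 + Real.log (Real.log z)) := by positivity
    have hX1 : C1 * Real.log z * (1 + Real.log (Real.log z)) ≤ Real.log X := by
      refine le_trans ?_ hX
      rw [mul_assoc, mul_assoc]
      exact mul_le_mul_of_nonneg_right (by linarith) hA
    have hX2 : C2 * Real.log z * (1 + Real.log (Real.log z)) ≤ Real.log X := by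
      refine le_trans ?_ hX
      rw [mul_assoc, mul_assoc]
      exact mul_le_mul_of_nonneg_right (by linarith) hA
    set LL : ℝ := 1 + Real.log (Real.log z) with hLL
    set W : ℝ := (Real.log z) ^ (-1 + (1 / 2 : ℝ) ^ k : ℝ) with hW
    have hLL1 : 1 ≤ LL := by linarith
    have hW0 : 0 ≤ W := Real.rpow_nonneg (by linarith) _
    have hW1 : 1 / Real.log z ≤ W := by
      rw [hW, one_div, ← Real.rpow_neg_one]
      apply Real.rpow_le_rpow_of_exponent_le hlog
      have : (0 : ℝ) ≤ (1 / 2 : ℝ) ^ k := by positivity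
      linarith
    have hXn : (0 : ℝ) ≤ X := Nat.cast_nonneg _
    rw [d3_ncard]
    have hcov := Finset.card_le_card (d3_cover (f := f) (c0 := c0) k z X)
    have hcov2 := (hcov.trans (Finset.card_union_le _ _)).trans
      (Nat.add_le_add Finset.card_biUnion_le Finset.card_biUnion_le)
    have hcov3 : (((Icc 1 X).filter (Pass f c0)).card : ℝ) ≤
        ∑ ps ∈ (range k).biUnion (fun j => (PI 0 z).powersetCard j),
          (((Icc 1 X).filter (fun n => (∀ p ∈ ps, Ex c0 n p) ∧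
            ∀ p : ℕ, p ≤ z → Ex c0 n p → p ∈ ps)).card : ℝ) +
        ∑ ps ∈ (PI 0 z).powersetCard k,
          (((Icc 1 X).filter (fun n => Pass f c0 n ∧ (∀ p ∈ ps, Ex c0 n p) ∧
            ∀ p : ℕ, Ex c0 n p → p ≤ ps.sup id → p ∈ ps)).card : ℝ) := by
      exact_mod_cast hcov2
    refine hcov3.trans ?_
    -- the first sum
    have hI : ∀ j ∈ range k, ∑ ps ∈ (PI 0 z).powersetCard j,
        (((Icc 1 X).filter (fun n => (∀ p ∈ ps, Ex c0 n p) ∧
            ∀ p : ℕ, p ≤ z → Ex c0 n p → p ∈ ps)).card : ℝ) ≤ D j * (C1 * X * LL ^ k * W) := by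
      intro j hj
      rw [Finset.mem_range] at hj
      have h3 : ∀ ps ∈ (PI 0 z).powersetCard j,
          (((Icc 1 X).filter (fun n => (∀ p ∈ ps, Ex c0 n p) ∧
            ∀ p : ℕ, p ≤ z → Ex c0 n p → p ∈ ps)).card : ℝ) ≤
          (C1 * X * W) * (1 / ∏ p ∈ ps, (p : ℝ)) := by
        intro ps hps
        obtain ⟨hc, hpp⟩ := d3_ps hps
        have h4 := h1 z X hz hX1 ps (by omega) hpp
        rw [d3_ncard] at h4
        refine h4.trans ?_
        have hpr : 0 ≤ 1 / ∏ p ∈ ps, (p : ℝ) := by positivity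
        have h5 : C1 * (X / ∏ p ∈ ps, (p : ℝ)) / Real.log z =
            (C1 * X * (1 / ∏ p ∈ ps, (p : ℝ))) * (1 / Real.log z) := by ring
        rw [h5]
        have h6 := mul_le_mul_of_nonneg_left hW1
          (show 0 ≤ C1 * X * (1 / ∏ p ∈ ps, (p : ℝ)) by positivity)
        linarith
      have h4 := Finset.sum_le_sum h3
      rw [← Finset.mul_sum] at h4
      have h5 := mul_le_mul_of_nonneg_left (hD j z hz) (show 0 ≤ C1 * X * W by positivity)
      have h6 : LL ^ j ≤ LL ^ k := pow_le_pow_right₀ hLL1 hj.le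
      have h7 := mul_le_mul_of_nonneg_left h6
        (show 0 ≤ C1 * X * W * D j from mul_nonneg (by positivity) (by linarith [hD1 j]))
      calc _ ≤ _ := h4
        _ ≤ C1 * X * W * (D j * LL ^ j) := h5
        _ = C1 * X * W * D j * LL ^ j := by ring
        _ ≤ C1 * X * W * D j * LL ^ k := h7
        _ = D j * (C1 * X * LL ^ k * W) := by ring
    have hI2 : ∑ ps ∈ (range k).biUnion (fun j => (PI 0 z).powersetCard j),
        (((Icc 1 X).filter (fun n => (∀ p ∈ ps, Ex c0 n p) ∧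
            ∀ p : ℕ, p ≤ z → Ex c0 n p → p ∈ ps)).card : ℝ) ≤
        (∑ j ∈ range k, D j) * (C1 * X * LL ^ k * W) := by
      rw [Finset.sum_biUnion]
      · rw [Finset.sum_mul]
        exact Finset.sum_le_sum hI
      · intro i _ j _ hij
        rw [Function.onFun, Finset.disjoint_left]
        intro ps h3 h4
        exact hij ((d3_ps h3).1.symm.trans (d3_ps h4).1)
    -- the second sum
    have hII : ∑ ps ∈ (PI 0 z).powersetCard k,
        (((Icc 1 X).filter (fun n => Pass f c0 n ∧ (∀ p ∈ ps, Ex c0 n p) ∧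
            ∀ p : ℕ, Ex c0 n p → p ≤ ps.sup id → p ∈ ps)).card : ℝ) ≤
        D k * (C2 * X * LL ^ k * W) := by
      have h3 : ∀ ps ∈ (PI 0 z).powersetCard k,
          (((Icc 1 X).filter (fun n => Pass f c0 n ∧ (∀ p ∈ ps, Ex c0 n p) ∧
            ∀ p : ℕ, Ex c0 n p → p ≤ ps.sup id → p ∈ ps)).card : ℝ) ≤
          (C2 * X * W) * (1 / ∏ p ∈ ps, (p : ℝ)) := by
        intro ps hps
        obtain ⟨hc, hpp⟩ := d3_ps hps
        have h4 := h2 z X hz hX2 ps hc hpp
        rw [d3_ncard] at h4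
        refine h4.trans (le_of_eq ?_)
        ring
      have h4 := Finset.sum_le_sum h3
      rw [← Finset.mul_sum] at h4
      have h5 := mul_le_mul_of_nonneg_left (hD k z hz) (show 0 ≤ C2 * X * W by positivity)
      calc _ ≤ _ := h4
        _ ≤ C2 * X * W * (D k * LL ^ k) := h5
        _ = D k * (C2 * X * LL ^ k * W) := by ring
    have hpos1 : 0 ≤ C1 * (X * LL ^ k * W) := by positivity
    have hpos2 : 0 ≤ C2 * (X * LL ^ k * W) := by positivity
    calc _ ≤ (∑ j ∈ range k, D j) * (C1 * X * LL ^ k * W) + D k * (C2 * X * LL ^ k * W) :=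
          add_le_add hI2 hII
      _ ≤ C1 * (X * LL ^ k * W) + C2 * (X * LL ^ k * W) +
          ((∑ j ∈ range k, D j) * (C1 * X * LL ^ k * W) + D k * (C2 * X * LL ^ k * W)) := by
        linarith
      _ = (C1 + C2 + C1 * (∑ j ∈ range k, D j) + C2 * D k) * X * LL ^ k * W := by ring

end Pool.Agent.H951R4.OD
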