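import Mathlib

/-!
# Orders of difference sets: definitions

Counting integers `n` such that every exact prime divisor `p` of `n` is a quadratic residue modulo
every prime divisor `q` of `f n`.
-/

set_option autoImplicit false

namespace Pool.Agent.H951R4.OD

open Finset

/-- the real character attached to an integer `D` (zero at even numbers) -/
noncomputable def ch (D : ℤ) (n : ℕ) : ℝ := if n % 2 = 1 then ((jacobiSym D n : ℤ) : ℝ) else 0

/-- a completely multiplicative function with values in `{-1, 0, 1}` and partial sums bounded by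
`M` -/
structure Chi (χ : ℕ → ℝ) (M : ℝ) : Prop where
  zero : χ 0 = 0
  one : χ 1 = 1
  mul : ∀ m n : ℕ, χ (m * n) = χ m * χ n
  val : ∀ n : ℕ, χ n = 0 ∨ χ n = 1 ∨ χ n = -1
  one_le : 1 ≤ M
  sum : ∀ N : ℕ, |∑ n ∈ range N, χ n| ≤ M

/-- `1 * χ` -/
noncomputable def rr (χ : ℕ → ℝ) (n : ℕ) : ℝ := ∑ b ∈ n.divisors, χ b

/-- the Dirichlet series of `1 * χ` -/
noncomputable def FF (χ : ℕ → ℝ) (σ : ℝ) : ℝ := ∑' n : ℕ, rr χ n * (n : ℝ) ^ (-σ)

/-- `1 + 1 / log x` -/
noncomputable def sg (x : ℕ) : ℝ := 1 + 1 / Real.log x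

/-- primes in `(y, z]` -/
def PI (y z : ℕ) : Finset ℕ := (Ioc y z).filter Nat.Prime

/-- the data of the problem: `f` is a polynomial function (`q ∣ f (n + q) - f n`) with
`1 + e (Δ/q)` zeros modulo `q` for each prime `q` not dividing `c0` -/
structure Pol (f : ℕ → ℤ) (c0 : ℕ) (e : ℝ) (Δ : ℤ) : Prop where
  pos : 0 < c0
  two : 2 ∣ c0
  e01 : e = 0 ∨ e = 1
  neg : Δ < 0
  per : ∀ q n : ℕ, (q : ℤ) ∣ f (n + q) - f n
  cnt : ∀ q : ℕ, q.Prime → ¬ q ∣ c0 →
    (((range q).filter (fun n : ℕ => (q : ℤ) ∣ f n)).card : ℝ) = 1 + e * ch Δ q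

/-- exact prime divisors of `n` not dividing `c0` -/
def Ex (c0 n p : ℕ) : Prop := p.Prime ∧ ¬ p ∣ c0 ∧ p ∣ n ∧ ¬ p ^ 2 ∣ n

/-- the integers which pass the test: `p` is never a quadratic nonresidue modulo `q` -/
def Pass (f : ℕ → ℤ) (c0 n : ℕ) : Prop :=
  ∀ p q : ℕ, Ex c0 n p → q.Prime → ¬ q ∣ c0 → (q : ℤ) ∣ f n → ch p q ≠ -1

/-- the primes in `(y, z]` not dividing `c0` modulo which some element of `ps` is a nonresidue -/
noncomputable def Bad (c0 : ℕ) (ps : Finset ℕ) (y z : ℕ) : Finset ℕ := by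
  classical
  exact (PI y z).filter (fun q => ¬ q ∣ c0 ∧ ∃ p ∈ ps, ch p q = -1)

/-- the primes in `(y, z]` modulo which no element of `ps` is a nonresidue -/
noncomputable def Good (ps : Finset ℕ) (y z : ℕ) : Finset ℕ := by
  classical
  exact (PI y z).filter (fun q => ∀ p ∈ ps, ch p q ≠ -1)

/-- `lam * v` for difference sets with parameters `(v, n + lam, lam)` -/
def fl (lam n : ℕ) : ℤ := (n : ℤ) ^ 2 + (2 * (lam : ℤ) - 1) * n + (lam : ℤ) ^ 2

/-- excluded primes for `fl` -/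
def cl (lam : ℕ) : ℕ := 2 * lam * (4 * lam - 1)

end Pool.Agent.H951R4.OD
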