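import Pool.Agent.H951R4.OD.Schutz

set_option autoImplicit false

namespace Pool.Agent.H951R4.OD

open Finset Matrix

/-- a symmetric `2-(v, k, lam)` design (blocks indexed by `Fin v`) with a group of automorphisms
acting regularly on the points -/
structure RegDesign (v k lam : ℕ) (B : Fin v → Finset (Fin v))
    (H : Subgroup (Equiv.Perm (Fin v))) : Prop where
  kv : k < v
  size : ∀ i, (B i).card = k
  pair : ∀ x y : Fin v, x ≠ y →
    (Finset.univ.filter (fun i => x ∈ B i ∧ y ∈ B i)).card = lam
  reg : ∀ x y : Fin v, ∃! h : Equiv.Perm (Fin v), h ∈ H ∧ h x = y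
  aut : ∀ h ∈ H, ∀ i, ∃ j, (B i).image h = B j

/-- counting flags (as in `Pool.Agent.Results.MP_c38931_co.DensityZero.repl`) -/
theorem repl (v k lam : ℕ) (hv : 2 ≤ v) (hlam : 1 ≤ lam) (B : Fin v → Finset (Fin v))
    (hk : ∀ i, (B i).card = k)
    (hp : ∀ x y : Fin v, x ≠ y →
      (Finset.univ.filter (fun i => x ∈ B i ∧ y ∈ B i)).card = lam) :
    (∀ x, (Finset.univ.filter (fun i => x ∈ B i)).card = k) ∧ k * k = lam * (v - 1) + k := by
  classical
  have h1 : ∀ x, (Finset.univ.filter (fun i => x ∈ B i)).card * k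
      = (Finset.univ.filter (fun i => x ∈ B i)).card + lam * (v - 1) := by
    intro x
    have e1 : ∑ y : Fin v, (Finset.univ.filter (fun i => x ∈ B i ∧ y ∈ B i)).card
        = (Finset.univ.filter (fun i => x ∈ B i)).card * k := by
      simp_rw [Finset.card_filter]
      rw [Finset.sum_comm, Finset.sum_mul]
      refine Finset.sum_congr rfl fun i _ => ?_
      by_cases hx : x ∈ B i
      · simp [hx, hk i]
      · simp [hx]
    rw [← e1, ← Finset.add_sum_erase _ _ (Finset.mem_univ x)]
    congr 1
    · simp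
    · rw [Finset.sum_congr rfl (g := fun _ => lam)]
      · simp [Finset.card_erase_of_mem, mul_comm]
      · intro y hy
        exact hp x y (Finset.ne_of_mem_erase hy).symm
  have hpos : 1 ≤ lam * (v - 1) := by
    have : 1 ≤ v - 1 := by omega
    exact Nat.mul_pos hlam this
  set r : Fin v → ℕ := fun x => (Finset.univ.filter (fun i => x ∈ B i)).card with hr
  have hk2 : 2 ≤ k := by
    by_contra hcon
    have h2 := h1 ⟨0, by omega⟩
    interval_cases k <;> simp at h2 <;> omega
  have hconst : ∀ x y, r x = r y := by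
    intro x y
    have hx := h1 x
    have hy := h1 y
    obtain ⟨k', rfl⟩ : ∃ k', k = k' + 1 := ⟨k - 1, by omega⟩
    have hx' : r x * k' = lam * (v - 1) := by
      have : r x * (k' + 1) = r x + lam * (v - 1) := hx
      rw [mul_add, mul_one] at this; omega
    have hy' : r y * k' = lam * (v - 1) := by
      have : r y * (k' + 1) = r y + lam * (v - 1) := hy
      rw [mul_add, mul_one] at this; omega
    have : r x * k' = r y * k' := by rw [hx', hy']
    exact Nat.eq_of_mul_eq_mul_right (by omega) this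
  have hsum : ∑ x, r x = v * k := by
    simp only [hr]
    simp_rw [Finset.card_filter]
    rw [Finset.sum_comm]
    rw [Finset.sum_congr rfl (g := fun _ => k)]
    · simp
    · intro i _
      rw [← hk i]; simp
  have hrk : ∀ x, r x = k := by
    intro x
    have : ∑ y, r y = v * r x := by
      rw [Finset.sum_congr rfl (g := fun _ => r x) (fun y _ => hconst y x)]; simp
    rw [this] at hsum
    exact Nat.eq_of_mul_eq_mul_left (by omega) hsum
  refine ⟨hrk, ?_⟩
  have h2 := h1 ⟨0, by omega⟩
  have h3 := hrk ⟨0, by omega⟩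
  simp only [hr] at h3
  rw [h3] at h2
  omega

/-- incidence matrix -/
def inc {v : ℕ} (B : Fin v → Finset (Fin v)) : Matrix (Fin v) (Fin v) ℚ :=
  fun i x => if x ∈ B i then 1 else 0

section
variable {v k lam : ℕ} {B : Fin v → Finset (Fin v)}

lemma inc_tmul (hv : 2 ≤ v) (hlam : 1 ≤ lam)
    (hk : ∀ i, (B i).card = k)
    (hp : ∀ x y : Fin v, x ≠ y →
      (Finset.univ.filter (fun i => x ∈ B i ∧ y ∈ B i)).card = lam) :
    (inc B)ᵀ * inc B = ((k : ℚ) - lam) • (1 : Matrix (Fin v) (Fin v) ℚ) +
      (lam : ℚ) • (Matrix.of fun _ _ => (1 : ℚ)) := by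
  obtain ⟨hr, -⟩ := repl v k lam hv hlam B hk hp
  ext x y
  have h1 : ((inc B)ᵀ * inc B) x y =
      ((Finset.univ.filter (fun i => x ∈ B i ∧ y ∈ B i)).card : ℚ) := by
    rw [Matrix.mul_apply]
    have h2 : ∀ i, (inc B)ᵀ x i * inc B i y = if (x ∈ B i ∧ y ∈ B i) then 1 else 0 := by
      intro i
      simp only [inc, Matrix.transpose_apply]
      split_ifs <;> simp_all
    rw [Finset.sum_congr rfl (fun h _ => h2 h), Finset.sum_boole]
  rw [h1]
  simp only [Matrix.add_apply, Matrix.smul_apply, smul_eq_mul, Matrix.of_apply, mul_one]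
  by_cases hxy : x = y
  · subst hxy
    rw [Matrix.one_apply_eq]
    have : (Finset.univ.filter (fun i => x ∈ B i ∧ x ∈ B i)) =
      (Finset.univ.filter (fun i => x ∈ B i)) := by simp
    rw [this, hr x]
    ring
  · rw [Matrix.one_apply_ne hxy, hp x y hxy]
    ring

lemma det_nJ (n : ℚ) (l : ℚ) (hn : 0 < n) (hl : 0 ≤ l) :
    (n • (1 : Matrix (Fin v) (Fin v) ℚ) + l • (Matrix.of fun _ _ => (1 : ℚ))).det ≠ 0 := by
  have h3 : (n • (1 : Matrix (Fin v) (Fin v) ℚ) + l • (Matrix.of fun _ _ => (1 : ℚ))) =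
      n • ((1 : Matrix (Fin v) (Fin v) ℚ) +
      replicateCol Unit (fun _ => (l / n)) * replicateRow Unit (fun _ => (1 : ℚ))) := by
    ext i j
    simp only [Matrix.add_apply, Matrix.smul_apply, smul_eq_mul, Matrix.mul_apply,
      Matrix.replicateCol_apply, Matrix.replicateRow_apply, Finset.univ_unique, Finset.sum_const,
      Finset.card_singleton, one_smul, mul_one, Matrix.of_apply]
    field_simp
  rw [h3, Matrix.det_smul, Matrix.det_one_add_replicateCol_mul_replicateRow]
  have h4 : (fun _ : Fin v => (1 : ℚ)) ⬝ᵥ (fun _ => (l / n)) = v * (l / n) := by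
    simp [dotProduct]
  rw [h4]
  positivity

/-- facts on symmetric designs -/
lemma design_facts (hv : 2 ≤ v) (hlam : 1 ≤ lam) (hkv : k < v)
    (hk : ∀ i, (B i).card = k)
    (hp : ∀ x y : Fin v, x ≠ y →
      (Finset.univ.filter (fun i => x ∈ B i ∧ y ∈ B i)).card = lam) :
    lam < k ∧ (inc B).det ≠ 0 ∧ ∀ i j, i ≠ j → (B i ∩ B j).card = lam := by
  obtain ⟨hr, hcount⟩ := repl v k lam hv hlam B hk hp
  have hk1 : 1 ≤ k := by
    by_contra h
    have h0 : k = 0 := by omega
    subst h0
    have : 1 ≤ lam * (v - 1) := Nat.mul_pos hlam (by omega)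
    omega
  have hlk : lam < k := by
    by_contra h
    push Not at h
    have h1 : k * (v - 1) ≤ lam * (v - 1) := Nat.mul_le_mul_right _ h
    have h2 : k * k ≤ k * (v - 1) := Nat.mul_le_mul_left _ (by omega)
    omega
  have hn : (0 : ℚ) < (k : ℚ) - lam := by
    have : (lam : ℚ) < k := by exact_mod_cast hlk
    linarith
  have hT := inc_tmul hv hlam hk hp
  have hdet : (inc B).det ≠ 0 := by
    intro h
    have h1 := congrArg Matrix.det hT
    rw [Matrix.det_mul, h, mul_zero] at h1
    exact det_nJ _ _ hn (by positivity) h1.symm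
  refine ⟨hlk, hdet, ?_⟩
  -- M J = k J and J M = k J
  set M := inc B with hM
  set J : Matrix (Fin v) (Fin v) ℚ := Matrix.of fun _ _ => (1 : ℚ) with hJ
  have hMJ : M * J = (k : ℚ) • J := by
    ext i x
    simp only [Matrix.mul_apply, hJ, Matrix.of_apply, mul_one, Matrix.smul_apply, smul_eq_mul, hM,
      inc, Finset.sum_boole]
    rw [← hk i]
    congr 2
    ext y; simp
  have hJM : J * M = (k : ℚ) • J := by
    ext i x
    simp only [Matrix.mul_apply, hJ, Matrix.of_apply, one_mul, mul_one, Matrix.smul_apply,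
      smul_eq_mul, hM, inc, Finset.sum_boole]
    exact_mod_cast hr x
  have hunit : IsUnit M.det := isUnit_iff_ne_zero.2 hdet
  have h1 : (M * Mᵀ - (((k : ℚ) - lam) • (1 : Matrix (Fin v) (Fin v) ℚ) + (lam : ℚ) • J)) * M = 0 := by
    rw [Matrix.sub_mul, Matrix.mul_assoc, hT, Matrix.mul_add, Matrix.add_mul]
    simp only [Matrix.mul_smul, Matrix.smul_mul, Matrix.mul_one, Matrix.one_mul, hMJ, hJM]
    abel
  have h2 : M * Mᵀ = ((k : ℚ) - lam) • (1 : Matrix (Fin v) (Fin v) ℚ) + (lam : ℚ) • J := by
    have h3 := congrArg (fun A => A * M⁻¹) h1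
    simp only [Matrix.zero_mul] at h3
    rw [Matrix.mul_assoc, Matrix.mul_nonsing_inv _ hunit, Matrix.mul_one] at h3
    exact sub_eq_zero.1 h3
  intro i j hij
  have h3 := congrFun (congrFun h2 i) j
  simp only [Matrix.add_apply, Matrix.smul_apply, smul_eq_mul, hJ, Matrix.of_apply, mul_one,
    Matrix.one_apply_ne hij, mul_zero, zero_add] at h3
  rw [Matrix.mul_apply] at h3
  have h4 : ∀ x, M i x * Mᵀ x j = if (x ∈ B i ∧ x ∈ B j) then 1 else 0 := by
    intro x
    simp only [hM, inc, Matrix.transpose_apply]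
    split_ifs <;> simp_all
  rw [Finset.sum_congr rfl (fun h _ => h4 h), Finset.sum_boole] at h3
  have h5 : (univ.filter (fun x => x ∈ B i ∧ x ∈ B j)) = B i ∩ B j := by
    ext x; simp
  rw [h5] at h3
  exact_mod_cast h3

end

/-- a symmetric design with a regular automorphism group gives a difference set -/
theorem regdesign_ds {v k lam : ℕ} {B : Fin v → Finset (Fin v)}
    {H : Subgroup (Equiv.Perm (Fin v))} (h : RegDesign v k lam B H) (hlam : 1 ≤ lam)
    (hv : 2 ≤ v) :
    lam < k ∧ ∃ (G : Type) (_ : Group G) (_ : Fintype G) (_ : DecidableEq G) (D : Finset G),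
      D.card = k ∧
      ∀ g : G, g ≠ 1 → ((D ×ˢ D).filter (fun p : G × G => p.1 * p.2⁻¹ = g)).card = lam := by
  classical
  obtain ⟨hlk, hdet, hint⟩ := design_facts hv hlam h.kv h.size h.pair
  refine ⟨hlk, H, inferInstance, inferInstance, inferInstance, ?_⟩
  let x0 : Fin v := ⟨0, by omega⟩
  let i0 : Fin v := ⟨0, by omega⟩
  -- blocks are distinct
  have hinj : ∀ i j, B i = B j → i = j := by
    intro i j hij
    by_contra hne
    have h1 := hint i j hne
    rw [← hij, Finset.inter_self, h.size i] at h1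
    omega
  -- the set of blocks in the orbit of `B i0`
  let O : Finset (Fin v) := univ.filter (fun i => ∃ g ∈ H, (B i0).image g = B i)
  have hi0 : i0 ∈ O := by
    simp only [O, Finset.mem_filter, Finset.mem_univ, true_and]
    exact ⟨1, H.one_mem, by simp⟩
  -- number of blocks of the orbit through a point is constant
  have hconst : ∀ x y : Fin v, (O.filter (fun i => x ∈ B i)).card ≤
      (O.filter (fun i => y ∈ B i)).card := by
    intro x y
    obtain ⟨g, ⟨hg, hgx⟩, -⟩ := h.reg x y
    -- map i ↦ j with g B i = B j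
    have hj : ∀ i, ∃ j, (B i).image g = B j := fun i => h.aut g hg i
    choose σ hσ using hj
    apply Finset.card_le_card_of_injOn σ
    · intro i hi
      simp only [O, Finset.coe_filter, Finset.mem_filter, Finset.mem_univ, true_and,
        Set.mem_ofPred_eq] at hi ⊢
      obtain ⟨⟨g', hg', hi1⟩, hi2⟩ := hi
      refine ⟨⟨g * g', H.mul_mem hg hg', ?_⟩, ?_⟩
      · rw [← hσ i, ← hi1, Finset.image_image]
        rfl
      · rw [← hσ i, Finset.mem_image]
        exact ⟨x, hi2, hgx⟩
    · intro i _ j _ hij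
      apply hinj
      have h1 : (B i).image g = (B j).image g := by rw [hσ i, hσ j, hij]
      exact Finset.image_injective g.injective h1
  have hconst' : ∀ x y : Fin v, (O.filter (fun i => x ∈ B i)).card =
      (O.filter (fun i => y ∈ B i)).card := fun x y => le_antisymm (hconst x y) (hconst y x)
  set c : ℕ := (O.filter (fun i => x0 ∈ B i)).card with hc
  obtain ⟨hr, -⟩ := repl v k lam hv hlam B h.size h.pair
  have hk0 : (k : ℚ) ≠ 0 := by
    have : k ≠ 0 := by omega
    exact_mod_cast this
  -- the indicator of `O` is constant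
  have hvec : (fun i => (if i ∈ O then (1 : ℚ) else 0)) - (fun _ => (c : ℚ) / k) = 0 := by
    have h1 : ((fun i => (if i ∈ O then (1 : ℚ) else 0)) - (fun _ => (c : ℚ) / k)) ᵥ* (inc B) = 0 := by
      ext x
      simp only [Matrix.vecMul, dotProduct, Pi.sub_apply, Pi.zero_apply, sub_mul,
        Finset.sum_sub_distrib]
      have h2 : ∑ i, (if i ∈ O then (1 : ℚ) else 0) * inc B i x = c := by
        have h3 : ∀ i, (if i ∈ O then (1 : ℚ) else 0) * inc B i x =
            if (i ∈ O ∧ x ∈ B i) then 1 else 0 := by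
          intro i
          simp only [inc]
          split_ifs <;> simp_all
        rw [Finset.sum_congr rfl (fun h _ => h3 h), Finset.sum_boole, hc, hconst' x0 x]
        congr 2
        ext i
        simp
      have h4 : ∑ i, (c : ℚ) / k * inc B i x = c := by
        rw [← Finset.mul_sum]
        have h5 : ∑ i, inc B i x = (k : ℚ) := by
          simp only [inc, Finset.sum_boole]
          exact_mod_cast hr x
        rw [h5]
        field_simp
      rw [h2, h4, sub_self]
    have hunit : IsUnit (inc B).det := isUnit_iff_ne_zero.2 hdet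
    have h2 := congrArg (fun w => w ᵥ* (inc B)⁻¹) h1
    simp only [Matrix.vecMul_vecMul, Matrix.mul_nonsing_inv _ hunit, Matrix.vecMul_one,
      Matrix.zero_vecMul] at h2
    exact h2
  have hall : ∀ i, i ∈ O := by
    intro i
    have h1 := congrFun hvec i
    have h2 := congrFun hvec i0
    simp only [Pi.sub_apply, Pi.zero_apply, hi0, if_true] at h1 h2
    by_contra hi
    rw [if_neg hi] at h1
    linarith
  -- the stabiliser of `B i0` is trivial: count
  have hcardH : Fintype.card H = v := by
    have h1 : Function.Bijective (fun g : H => (g : Equiv.Perm (Fin v)) x0) := by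
      constructor
      · intro a b hab
        obtain ⟨g, -, hu⟩ := h.reg x0 ((a : Equiv.Perm (Fin v)) x0)
        have e1 := hu a ⟨a.2, rfl⟩
        have e2 := hu b ⟨b.2, hab.symm⟩
        exact Subtype.ext (e1.trans e2.symm)
      · intro y
        obtain ⟨g, ⟨hg, hgx⟩, -⟩ := h.reg x0 y
        exact ⟨⟨g, hg⟩, hgx⟩
    rw [Fintype.card_of_bijective h1, Fintype.card_fin]
  have hτ : ∀ g : H, ∃ j, (B i0).image (g : Equiv.Perm (Fin v)) = B j := fun g => h.aut g g.2 i0
  choose τ hτ using hτ
  have hτsurj : Function.Surjective τ := by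
    intro i
    have := hall i
    simp only [O, Finset.mem_filter, Finset.mem_univ, true_and] at this
    obtain ⟨g, hg, hgi⟩ := this
    refine ⟨⟨g, hg⟩, hinj _ _ ?_⟩
    rw [← hτ ⟨g, hg⟩]
    exact hgi
  have hτinj : Function.Injective τ :=
    ((Fintype.bijective_iff_surjective_and_card τ).2 ⟨hτsurj, by simp [hcardH]⟩).1
  -- the difference set
  let D : Finset H := univ.filter (fun g => (g : Equiv.Perm (Fin v)) x0 ∈ B i0)
  have hreg2 : ∀ y : Fin v, ∃ g : H, (g : Equiv.Perm (Fin v)) x0 = y := by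
    intro y
    obtain ⟨g, ⟨hg, hgx⟩, -⟩ := h.reg x0 y
    exact ⟨⟨g, hg⟩, hgx⟩
  have hreg1 : ∀ a b : H, (a : Equiv.Perm (Fin v)) x0 = (b : Equiv.Perm (Fin v)) x0 → a = b := by
    intro a b hab
    obtain ⟨g, -, hu⟩ := h.reg x0 ((a : Equiv.Perm (Fin v)) x0)
    have e1 := hu a ⟨a.2, rfl⟩
    have e2 := hu b ⟨b.2, hab.symm⟩
    exact Subtype.ext (e1.trans e2.symm)
  refine ⟨D, ?_, ?_⟩
  · rw [← h.size i0]
    refine Finset.card_bij (fun g _ => (g : Equiv.Perm (Fin v)) x0) ?_ ?_ ?_
    · intro g hg
      simpa [D] using hg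
    · intro a _ b _ hab
      exact hreg1 a b hab
    · intro y hy
      obtain ⟨g, hg⟩ := hreg2 y
      exact ⟨g, by simpa [D, hg] using hy, hg⟩
  · intro g hg
    -- `g⁻¹ B i0 = B (τ g⁻¹) ≠ B i0`
    have hne : τ g⁻¹ ≠ i0 := by
      intro h1
      have h2 : τ (1 : H) = i0 := by
        apply hinj
        rw [← hτ 1]
        simp
      have := hτinj (h1.trans h2.symm)
      exact hg (inv_eq_one.1 this)
    rw [← hint i0 (τ g⁻¹) hne.symm]
    symm
    refine Finset.card_bij (fun y _ => ((g * Classical.choose (hreg2 y)), Classical.choose (hreg2 y)))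
      ?_ ?_ ?_
    · intro y hy
      have hs := Classical.choose_spec (hreg2 y)
      rw [Finset.mem_inter] at hy
      simp only [Finset.mem_filter, Finset.mem_product, D, Finset.mem_univ, true_and]
      refine ⟨⟨?_, ?_⟩, by group⟩
      · have h3 : y ∈ (B i0).image ((g⁻¹ : H) : Equiv.Perm (Fin v)) := by
          rw [hτ g⁻¹]; exact hy.2
        rw [Finset.mem_image] at h3
        obtain ⟨z, hz, hzy⟩ := h3
        have h4 : ((g * Classical.choose (hreg2 y) : H) : Equiv.Perm (Fin v)) x0 = z := by
          rw [Subgroup.coe_mul, Equiv.Perm.mul_apply, hs, ← hzy, ← Equiv.Perm.mul_apply,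
            ← Subgroup.coe_mul, mul_inv_cancel]
          rfl
        rw [h4]
        exact hz
      · rw [hs]; exact hy.1
    · intro y1 _ y2 _ h12
      have h3 := (Prod.mk.inj h12).2
      rw [← Classical.choose_spec (hreg2 y1), ← Classical.choose_spec (hreg2 y2), h3]
    · rintro ⟨a, b⟩ hab
      simp only [Finset.mem_filter, Finset.mem_product, D, Finset.mem_univ, true_and] at hab
      obtain ⟨⟨ha, hb⟩, habg⟩ := hab
      have hagb : a = g * b := by rw [← habg]; group
      refine ⟨(b : Equiv.Perm (Fin v)) x0, ?_, ?_⟩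
      · rw [Finset.mem_inter, ← hτ g⁻¹]
        refine ⟨hb, ?_⟩
        rw [Finset.mem_image]
        refine ⟨(a : Equiv.Perm (Fin v)) x0, ha, ?_⟩
        rw [← Equiv.Perm.mul_apply, ← Subgroup.coe_mul, hagb, inv_mul_cancel_left]
      · have h5 : Classical.choose (hreg2 ((b : Equiv.Perm (Fin v)) x0)) = b :=
          hreg1 _ _ (Classical.choose_spec (hreg2 ((b : Equiv.Perm (Fin v)) x0)))
        simp only [h5, hagb]

end Pool.Agent.H951R4.OD
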