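import Pool.Agent.H951R4.OD.Defs

/-!
# F1: the zeros of the polynomials modulo primes
-/

set_option autoImplicit false

namespace Pool.Agent.H951R4.OD

open Finset

theorem quad_roots (b c : ℤ) (q : ℕ) (hq : q.Prime) (hq2 : q ≠ 2)
    (hd : ¬ (q : ℤ) ∣ b ^ 2 - 4 * c) :
    (((range q).filter (fun n : ℕ => (q : ℤ) ∣ (n : ℤ) ^ 2 + b * n + c)).card : ℝ) =
      1 + ch (b ^ 2 - 4 * c) q := by
  have hF : Fact q.Prime := ⟨hq⟩
  have hodd : q % 2 = 1 := (hq.eq_two_or_odd).resolve_left hq2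
  have h2 : (2 : ZMod q) ≠ 0 := by
    intro h
    have h' : ((2 : ℕ) : ZMod q) = 0 := by exact_mod_cast h
    rw [ZMod.natCast_eq_zero_iff] at h'
    exact hq2 ((Nat.prime_dvd_prime_iff_eq hq Nat.prime_two).1 h')
  have hcard := legendreSym.card_sqrts q hq2 (b ^ 2 - 4 * c)
  have hbij : ((range q).filter (fun n : ℕ => (q : ℤ) ∣ (n : ℤ) ^ 2 + b * n + c)).card =
      {x : ZMod q | x ^ 2 = ((b ^ 2 - 4 * c : ℤ) : ZMod q)}.toFinset.card := by
    refine Finset.card_bij (fun n _ => (2 * (n : ZMod q) + (b : ZMod q))) ?_ ?_ ?_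
    · intro n hn
      rw [Finset.mem_filter] at hn
      have h := (ZMod.intCast_zmod_eq_zero_iff_dvd _ q).2 hn.2
      push_cast at h
      rw [Set.mem_toFinset]
      show (2 * (n : ZMod q) + (b : ZMod q)) ^ 2 = ((b ^ 2 - 4 * c : ℤ) : ZMod q)
      push_cast
      linear_combination 4 * h
    · intro n hn m hm h
      rw [Finset.mem_filter, Finset.mem_range] at hn hm
      have h1 : (n : ZMod q) = (m : ZMod q) := by
        apply mul_left_cancel₀ h2
        linear_combination h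
      rw [ZMod.natCast_eq_natCast_iff'] at h1
      rwa [Nat.mod_eq_of_lt hn.1, Nat.mod_eq_of_lt hm.1] at h1
    · intro x hx
      rw [Set.mem_toFinset] at hx
      have hx' : x ^ 2 = ((b ^ 2 - 4 * c : ℤ) : ZMod q) := hx
      push_cast at hx'
      have hn : (((((x - b) / 2 : ZMod q).val : ℕ)) : ZMod q) = (x - b) / 2 :=
        ZMod.natCast_zmod_val _
      have h4 : 2 * (((((x - b) / 2 : ZMod q).val : ℕ)) : ZMod q) + (b : ZMod q) = x := by
        rw [hn, mul_div_cancel₀ _ h2]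
        ring
      refine ⟨((x - b) / 2 : ZMod q).val, ?_, h4⟩
      rw [Finset.mem_filter, Finset.mem_range]
      refine ⟨ZMod.val_lt _, ?_⟩
      rw [← ZMod.intCast_zmod_eq_zero_iff_dvd]
      push_cast
      have h5 : (2 : ZMod q) ^ 2 ≠ 0 := pow_ne_zero 2 h2
      apply mul_left_cancel₀ h5
      rw [mul_zero]
      have h6 : (2 : ZMod q) ^ 2 * ((((x - b) / 2 : ZMod q).val : ZMod q) ^ 2 +
          b * (((x - b) / 2 : ZMod q).val : ZMod q) + c) =
          (2 * (((x - b) / 2 : ZMod q).val : ZMod q) + b) ^ 2 - (b ^ 2 - 4 * c) := by ring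
      rw [h6, h4, hx']
      ring
  rw [hbij, ch, if_pos hodd, ← jacobiSym.legendreSym.to_jacobiSym]
  have h7 : (({x : ZMod q | x ^ 2 = ((b ^ 2 - 4 * c : ℤ) : ZMod q)}.toFinset.card : ℤ) : ℝ) =
      ((legendreSym q (b ^ 2 - 4 * c) + 1 : ℤ) : ℝ) := by exact_mod_cast hcard
  push_cast at h7 ⊢
  rw [add_comm]
  exact h7

theorem pol_fl (lam : ℕ) (hl : 1 ≤ lam) : Pol (fl lam) (cl lam) 1 (1 - 4 * (lam : ℤ)) where
  pos := by
    unfold cl
    have : 0 < 4 * lam - 1 := by omega
    positivity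
  two := by
    unfold cl
    exact ⟨lam * (4 * lam - 1), by ring⟩
  e01 := Or.inr rfl
  neg := by omega
  per := by
    intro q n
    refine ⟨2 * n + q + 2 * lam - 1, ?_⟩
    unfold fl
    push_cast
    ring
  cnt := by
    intro q hq hqc
    have hq2 : q ≠ 2 := by
      rintro rfl
      exact hqc ⟨lam * (4 * lam - 1), by unfold cl; ring⟩
    have hD : (2 * (lam : ℤ) - 1) ^ 2 - 4 * (lam : ℤ) ^ 2 = 1 - 4 * (lam : ℤ) := by ring
    have hnd : ¬ (q : ℤ) ∣ (2 * (lam : ℤ) - 1) ^ 2 - 4 * (lam : ℤ) ^ 2 := by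
      rw [hD]
      intro h
      apply hqc
      have h1 : (q : ℤ) ∣ ((4 * lam - 1 : ℕ) : ℤ) := by
        rw [Nat.cast_sub (by omega)]
        push_cast
        have := (dvd_neg (a := (q : ℤ))).2 h
        simpa using this
      have h2 : q ∣ 4 * lam - 1 := by exact_mod_cast h1
      unfold cl
      exact dvd_mul_of_dvd_right h2 _
    have h := quad_roots (2 * (lam : ℤ) - 1) ((lam : ℤ) ^ 2) q hq hq2 hnd
    rw [hD] at h
    unfold fl
    rw [h, one_mul]

theorem pol_had : Pol (fun n => 4 * (n : ℤ) - 1) 2 0 (-1) where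
  pos := by norm_num
  two := dvd_refl 2
  e01 := Or.inl rfl
  neg := by norm_num
  per := by
    intro q n
    refine ⟨4, ?_⟩
    push_cast
    ring
  cnt := by
    intro q hq hqc
    have hF : Fact q.Prime := ⟨hq⟩
    have hq2 : q ≠ 2 := by
      rintro rfl
      exact hqc (dvd_refl 2)
    have h2 : (2 : ZMod q) ≠ 0 := by
      intro h
      have h' : ((2 : ℕ) : ZMod q) = 0 := by exact_mod_cast h
      rw [ZMod.natCast_eq_zero_iff] at h'
      exact hq2 ((Nat.prime_dvd_prime_iff_eq hq Nat.prime_two).1 h')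
    have h4 : (4 : ZMod q) ≠ 0 := by
      have : (4 : ZMod q) = 2 ^ 2 := by norm_num
      rw [this]
      exact pow_ne_zero 2 h2
    have hset : (range q).filter (fun n : ℕ => (q : ℤ) ∣ 4 * (n : ℤ) - 1) =
        {((4 : ZMod q)⁻¹).val} := by
      ext n
      rw [Finset.mem_filter, Finset.mem_range, Finset.mem_singleton,
        ← ZMod.intCast_zmod_eq_zero_iff_dvd]
      push_cast
      constructor
      · rintro ⟨h1, h3⟩
        have h5 : (n : ZMod q) = (4 : ZMod q)⁻¹ := by
          apply mul_left_cancel₀ h4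
          rw [mul_inv_cancel₀ h4]
          linear_combination h3
        rw [← h5, ZMod.val_natCast, Nat.mod_eq_of_lt h1]
      · rintro rfl
        refine ⟨ZMod.val_lt _, ?_⟩
        rw [ZMod.natCast_zmod_val, mul_inv_cancel₀ h4, sub_self]
    rw [hset]
    simp

end Pool.Agent.H951R4.OD
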