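import Pool.Agent.H951R4.OD.Defs
import Pool.Agent.H951R4.OD.D3

set_option autoImplicit false

namespace Pool.Agent.H951R4.OD

open Finset

lemma exists_pow_half_le (ε : ℝ) (hε : 0 < ε) : ∃ k : ℕ, 1 ≤ k ∧ (1 / 2 : ℝ) ^ k ≤ ε := by
  obtain ⟨k, hk⟩ := exists_pow_lt_of_lt_one hε (by norm_num : (1 / 2 : ℝ) < 1)
  refine ⟨k + 1, by omega, ?_⟩
  rw [pow_succ]
  have : (0 : ℝ) ≤ (1 / 2 : ℝ) ^ k := by positivity
  linarith

lemma one_add_log_le (a L : ℝ) (ha : 0 < a) (hL : 1 ≤ L) :
    1 + Real.log L ≤ (1 + 1 / a) * L ^ a := by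
  have h1 := Real.log_le_rpow_div (by linarith : (0 : ℝ) ≤ L) ha
  have h2 : 1 ≤ L ^ a := Real.one_le_rpow hL ha.le
  have h3 : (1 + 1 / a) * L ^ a = L ^ a + L ^ a / a := by field_simp
  rw [h3]
  linarith

theorem main {f : ℕ → ℤ} {c0 : ℕ} {e : ℝ} {Δ : ℤ} (h : Pol f c0 e Δ) (ε : ℝ) (hε : 0 < ε) :
    ∃ C : ℝ, 0 < C ∧ ∀ X : ℕ, 3 ≤ X →
      ({n : ℕ | 1 ≤ n ∧ n ≤ X ∧ Pass f c0 n}.ncard : ℝ) ≤ C * X * (Real.log X) ^ (ε - 1) := by
  obtain ⟨k, hk, hkε⟩ := exists_pow_half_le (ε / 2) (by linarith)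
  obtain ⟨C1, hC1, H⟩ := combine h k hk
  set a : ℝ := ε / (2 * (k + 1)) with ha
  have ha0 : 0 < a := by positivity
  set C2 : ℝ := 2 * C1 ^ 2 * (1 + 1 / a) ^ (k + 1) with hC2
  have hC20 : 0 < C2 := by positivity
  refine ⟨36 * C1 ^ 2 + C2 + 1, by positivity, fun X hX => ?_⟩
  have hX3 : (3 : ℝ) ≤ X := by exact_mod_cast hX
  have hX0 : (0 : ℝ) < X := by linarith
  set L := Real.log X with hL
  have hL1 : 1 ≤ L := by
    rw [hL, Real.le_log_iff_exp_le hX0]
    have := Real.exp_one_lt_d9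
    linarith
  have hL0 : 0 < L := by linarith
  have hLpow : 0 < L ^ (ε - 1) := Real.rpow_pos_of_pos hL0 _
  have hlogL : 0 ≤ Real.log L := Real.log_nonneg hL1
  by_cases hbig : L < 36 * C1 ^ 2
  · -- trivial bound
    have h1 : ({n : ℕ | 1 ≤ n ∧ n ≤ X ∧ Pass f c0 n}.ncard : ℝ) ≤ X := by
      have h2 : {n : ℕ | 1 ≤ n ∧ n ≤ X ∧ Pass f c0 n} ⊆ (Icc 1 X : Finset ℕ) := by
        intro n hn
        simp only [Set.mem_ofPred_eq] at hn
        simp only [coe_Icc, Set.mem_Icc]
        exact ⟨hn.1, hn.2.1⟩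
      have h3 := Set.ncard_le_ncard h2 (Finset.finite_toSet _)
      rw [Set.ncard_coe_finset, Nat.card_Icc] at h3
      have : ({n : ℕ | 1 ≤ n ∧ n ≤ X ∧ Pass f c0 n}.ncard) ≤ X := by omega
      exact_mod_cast this
    refine h1.trans ?_
    have h4 : L⁻¹ ≤ L ^ (ε - 1) := by
      rw [← Real.rpow_neg_one]
      exact Real.rpow_le_rpow_of_exponent_le hL1 (by linarith)
    have h5 : 1 ≤ (36 * C1 ^ 2) * L ^ (ε - 1) := by
      calc (1 : ℝ) = L * L⁻¹ := by field_simp
        _ ≤ (36 * C1 ^ 2) * L ^ (ε - 1) := by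
          apply mul_le_mul hbig.le h4 (by positivity) (by positivity)
    have h6 : (36 * C1 ^ 2 + C2 + 1) * X * L ^ (ε - 1) =
        X * ((36 * C1 ^ 2) * L ^ (ε - 1)) + X * ((C2 + 1) * L ^ (ε - 1)) := by ring
    rw [h6]
    have h7 : 0 ≤ (X : ℝ) * ((C2 + 1) * L ^ (ε - 1)) := by positivity
    nlinarith
  · push Not at hbig
    -- the choice of `z`
    set s : ℝ := L / (C1 * (1 + Real.log L)) with hs
    have hden : 0 < C1 * (1 + Real.log L) := by positivity
    have hs2 : 2 ≤ s := by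
      rw [hs, le_div_iff₀ hden]
      have h1 := one_add_log_le (1 / 2) L (by norm_num) hL1
      rw [← Real.sqrt_eq_rpow] at h1
      have h2 : 6 * C1 ≤ Real.sqrt L := by
        apply Real.le_sqrt_of_sq_le
        nlinarith
      have h3 : Real.sqrt L * Real.sqrt L = L := Real.mul_self_sqrt hL0.le
      have h5 : (0:ℝ) ≤ Real.sqrt L := Real.sqrt_nonneg _
      have h4 : 1 + Real.log L ≤ 3 * Real.sqrt L := by
        have : (1 + 1 / (1 / 2 : ℝ)) = 3 := by norm_num
        rw [this] at h1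
        exact h1
      calc 2 * (C1 * (1 + Real.log L)) ≤ 2 * (C1 * (3 * Real.sqrt L)) := by
            apply mul_le_mul_of_nonneg_left _ (by norm_num)
            exact mul_le_mul_of_nonneg_left h4 (by linarith)
        _ = (6 * C1) * Real.sqrt L := by ring
        _ ≤ Real.sqrt L * Real.sqrt L := mul_le_mul_of_nonneg_right h2 h5
        _ = L := h3
    set z : ℕ := ⌊Real.exp s⌋₊ with hz
    have hexps : 4 ≤ Real.exp s := by
      have h1 : Real.exp 2 ≤ Real.exp s := Real.exp_le_exp.2 hs2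
      have h2 : Real.exp 2 = Real.exp 1 * Real.exp 1 := by rw [← Real.exp_add]; norm_num
      have h3 := Real.exp_one_gt_d9
      nlinarith
    have hz4 : 4 ≤ z := by
      rw [hz]
      exact Nat.le_floor (by exact_mod_cast hexps)
    have hz3 : 3 ≤ z := by omega
    have hz0 : (0 : ℝ) < z := by
      have : 0 < z := by omega
      exact_mod_cast this
    have hzle : (z : ℝ) ≤ Real.exp s := Nat.floor_le (Real.exp_pos s).le
    have hzge : Real.exp s / 2 ≤ z := by
      have h1 : Real.exp s < z + 1 := Nat.lt_floor_add_one _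
      linarith
    have hlogz_le : Real.log z ≤ s := by
      have := Real.log_le_log hz0 hzle
      rwa [Real.log_exp] at this
    have hlogz_ge : s / 2 ≤ Real.log z := by
      have h1 := Real.log_le_log (by positivity) hzge
      rw [Real.log_div (Real.exp_pos s).ne' (by norm_num), Real.log_exp] at h1
      have h2 : Real.log 2 ≤ 1 := by
        have := Real.log_two_lt_d9
        linarith
      linarith
    have hlogz1 : 1 ≤ Real.log z := by linarith
    have hlogz0 : 0 < Real.log z := by linarith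
    have hsL : s ≤ L := by
      rw [hs]
      apply div_le_self hL0.le
      nlinarith
    have hll : Real.log (Real.log z) ≤ Real.log L :=
      Real.log_le_log hlogz0 (hlogz_le.trans hsL)
    have hll0 : 0 ≤ Real.log (Real.log z) := Real.log_nonneg hlogz1
    have hcond : C1 * Real.log z * (1 + Real.log (Real.log z)) ≤ Real.log X := by
      calc C1 * Real.log z * (1 + Real.log (Real.log z)) ≤ C1 * s * (1 + Real.log L) := by
            apply mul_le_mul _ (by linarith) (by linarith) (by positivity)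
            exact mul_le_mul_of_nonneg_left hlogz_le (by linarith)
        _ = L := by
            rw [hs]
            field_simp
    have h1 := H z X hz3 hcond
    refine h1.trans ?_
    -- estimate the factors
    have e1 : (1 + Real.log (Real.log z)) ^ k ≤ (1 + Real.log L) ^ k :=
      pow_le_pow_left₀ (by linarith) (by linarith) k
    have hhalf : (0:ℝ) ≤ (1 / 2 : ℝ) ^ k := by positivity
    have hhalf1 : (1 / 2 : ℝ) ^ k ≤ 1 := pow_le_one₀ (by norm_num) (by norm_num)
    have e2 : (Real.log z) ^ (-1 + (1 / 2 : ℝ) ^ k : ℝ) ≤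
        2 * C1 * (1 + Real.log L) * L ^ (-1 + ε / 2) := by
      have f1 : (Real.log z) ^ (-1 + (1 / 2 : ℝ) ^ k : ℝ) ≤ (s / 2) ^ (-1 + (1 / 2 : ℝ) ^ k : ℝ) :=
        Real.rpow_le_rpow_of_nonpos (by linarith) hlogz_ge (by linarith)
      refine f1.trans ?_
      have f2 : s / 2 = L / (2 * (C1 * (1 + Real.log L))) := by
        rw [hs, div_div]
        ring_nf
      rw [f2, Real.div_rpow hL0.le (by positivity)]
      have f3 : L ^ (-1 + (1 / 2 : ℝ) ^ k : ℝ) ≤ L ^ (-1 + ε / 2) :=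
        Real.rpow_le_rpow_of_exponent_le hL1 (by linarith)
      have f4 : (1 : ℝ) ≤ 2 * (C1 * (1 + Real.log L)) := by nlinarith
      have f5 : ((2 * (C1 * (1 + Real.log L))) ^ (-1 + (1 / 2 : ℝ) ^ k : ℝ))⁻¹ ≤
          2 * (C1 * (1 + Real.log L)) := by
        rw [← Real.rpow_neg (by linarith)]
        calc (2 * (C1 * (1 + Real.log L))) ^ (-(-1 + (1 / 2 : ℝ) ^ k) : ℝ)
            ≤ (2 * (C1 * (1 + Real.log L))) ^ (1 : ℝ) :=
              Real.rpow_le_rpow_of_exponent_le f4 (by linarith)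
          _ = _ := Real.rpow_one _
      rw [div_eq_mul_inv]
      calc L ^ (-1 + (1 / 2 : ℝ) ^ k : ℝ) *
            ((2 * (C1 * (1 + Real.log L))) ^ (-1 + (1 / 2 : ℝ) ^ k : ℝ))⁻¹
          ≤ L ^ (-1 + ε / 2) * (2 * (C1 * (1 + Real.log L))) :=
            mul_le_mul f3 f5 (by positivity) (by positivity)
        _ = _ := by ring
    have e3 : (1 + Real.log L) ^ (k + 1) ≤ (1 + 1 / a) ^ (k + 1) * L ^ (ε / 2) := by
      have f1 := one_add_log_le a L ha0 hL1
      calc (1 + Real.log L) ^ (k + 1) ≤ ((1 + 1 / a) * L ^ a) ^ (k + 1) :=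
            pow_le_pow_left₀ (by linarith) f1 _
        _ = (1 + 1 / a) ^ (k + 1) * L ^ (ε / 2) := by
            rw [mul_pow, ← Real.rpow_natCast (L ^ a), ← Real.rpow_mul hL0.le]
            congr 2
            rw [ha]
            push_cast
            field_simp
    have e4 : C1 * X * (1 + Real.log (Real.log z)) ^ k *
        (Real.log z) ^ (-1 + (1 / 2 : ℝ) ^ k : ℝ) ≤ C2 * X * L ^ (ε - 1) := by
      calc C1 * X * (1 + Real.log (Real.log z)) ^ k * (Real.log z) ^ (-1 + (1 / 2 : ℝ) ^ k : ℝ)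
          ≤ C1 * X * (1 + Real.log L) ^ k * (2 * C1 * (1 + Real.log L) * L ^ (-1 + ε / 2)) := by
            apply mul_le_mul _ e2 (by positivity) (by positivity)
            exact mul_le_mul_of_nonneg_left e1 (by positivity)
        _ = 2 * C1 ^ 2 * X * (1 + Real.log L) ^ (k + 1) * L ^ (-1 + ε / 2) := by ring
        _ ≤ 2 * C1 ^ 2 * X * ((1 + 1 / a) ^ (k + 1) * L ^ (ε / 2)) * L ^ (-1 + ε / 2) := by
            apply mul_le_mul_of_nonneg_right _ (by positivity)
            exact mul_le_mul_of_nonneg_left e3 (by positivity)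
        _ = C2 * X * (L ^ (ε / 2) * L ^ (-1 + ε / 2)) := by rw [hC2]; ring
        _ = C2 * X * L ^ (ε - 1) := by
            rw [← Real.rpow_add hL0]
            congr 2
            ring
    refine e4.trans ?_
    have h6 : (36 * C1 ^ 2 + C2 + 1) * X * L ^ (ε - 1) =
        C2 * X * L ^ (ε - 1) + (36 * C1 ^ 2 + 1) * X * L ^ (ε - 1) := by ring
    rw [h6]
    have h7 : 0 ≤ (36 * C1 ^ 2 + 1) * X * L ^ (ε - 1) := by positivity
    linarith

end Pool.Agent.H951R4.OD
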