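import Pool.Agent.H951R4.OD.F1
import Pool.Agent.H951R4.OD.Main
import Pool.Agent.H951R4.OD.Design

set_option autoImplicit false

namespace Pool.Agent.H951R4.OD

open Finset

/-- Singer parameters with odd `m` divisible by `3` -/
theorem singer_count (ε : ℝ) (hε : 0 < ε) :
    ∃ C : ℝ, 0 < C ∧ ∀ X : ℕ, 3 ≤ X →
      ({n : ℕ | 2 ≤ n ∧ n ≤ X ∧ ∃ m : ℕ, Odd m ∧ 3 ≤ m ∧ 3 ∣ m ∧
        Pool.Agent.H771R2.SingerDS.HasSinger n m}.ncard : ℝ) ≤ C * X * (Real.log X) ^ (ε - 1) := by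
  obtain ⟨C, hC, H⟩ := main (pol_fl 1 le_rfl) ε hε
  refine ⟨C, hC, fun X hX => le_trans ?_ (H X hX)⟩
  have hfin : {n : ℕ | 1 ≤ n ∧ n ≤ X ∧ Pass (fl 1) (cl 1) n}.Finite :=
    (Set.finite_Iic X).subset fun n hn => hn.2.1
  exact_mod_cast Set.ncard_le_ncard (fun n hn => by
    obtain ⟨h2, hX2, m, hm, hm3, h3, hs⟩ := hn
    exact ⟨by omega, hX2, pass_singer hm hm3 h3 h2 hs⟩) hfin

/-- Hadamard parameters -/
theorem hadamard_count (ε : ℝ) (hε : 0 < ε) :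
    ∃ C : ℝ, 0 < C ∧ ∀ X : ℕ, 3 ≤ X →
      ({w : ℕ | 1 ≤ w ∧ w ≤ X ∧ Pool.Agent.H771R2.HadamardDS.HasHadamard w}.ncard : ℝ) ≤
        C * X * (Real.log X) ^ (ε - 1) := by
  obtain ⟨C, hC, H⟩ := main pol_had ε hε
  refine ⟨C, hC, fun X hX => le_trans ?_ (H X hX)⟩
  have hfin : {n : ℕ | 1 ≤ n ∧ n ≤ X ∧ Pass (fun n => 4 * (n : ℤ) - 1) 2 n}.Finite :=
    (Set.finite_Iic X).subset fun n hn => hn.2.1
  exact_mod_cast Set.ncard_le_ncard (fun n hn => by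
    obtain ⟨h2, hX2, hs⟩ := hn
    exact ⟨h2, hX2, pass_hadamard h2 hs⟩) hfin

/-- some finite group contains a `(v, n + lam, lam)` difference set -/
def HasDS (lam n : ℕ) : Prop :=
  ∃ (G : Type) (_ : Group G) (_ : Fintype G) (_ : DecidableEq G) (D : Finset G),
    D.card = n + lam ∧
    ∀ g : G, g ≠ 1 → ((D ×ˢ D).filter (fun p : G × G => p.1 * p.2⁻¹ = g)).card = lam

lemma square_count (X : ℕ) : {n : ℕ | 1 ≤ n ∧ n ≤ X ∧ IsSquare n}.ncard ≤ Nat.sqrt X := by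
  have h1 : {n : ℕ | 1 ≤ n ∧ n ≤ X ∧ IsSquare n} ⊆
      ((Icc 1 (Nat.sqrt X)).image (fun a => a * a) : Finset ℕ) := by
    rintro n ⟨hn1, hnX, a, rfl⟩
    simp only [coe_image, coe_Icc, Set.mem_image, Set.mem_Icc]
    refine ⟨a, ⟨?_, ?_⟩, rfl⟩
    · by_contra h
      have : a = 0 := by omega
      subst this
      omega
    · exact Nat.le_sqrt.2 hnX
  have h2 := Set.ncard_le_ncard h1 (Finset.finite_toSet _)
  rw [Set.ncard_coe_finset] at h2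
  refine h2.trans (Finset.card_image_le.trans ?_)
  simp

theorem ds_count_le (lam : ℕ) (hl : 1 ≤ lam) (ε : ℝ) (hε : 0 < ε) :
    ∃ C : ℝ, 0 < C ∧ ∀ X : ℕ, 3 ≤ X →
      ({n : ℕ | 1 ≤ n ∧ n ≤ X ∧ HasDS lam n}.ncard : ℝ) ≤ C * X * (Real.log X) ^ (ε - 1) := by
  obtain ⟨C, hC, H⟩ := main (pol_fl lam hl) ε hε
  refine ⟨C + 2, by linarith, fun X hX => ?_⟩
  have hX3 : (3 : ℝ) ≤ X := by exact_mod_cast hX
  have hX0 : (0 : ℝ) < X := by linarith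
  set L := Real.log X with hL
  have hL1 : 1 ≤ L := by
    rw [hL, Real.le_log_iff_exp_le hX0]
    have := Real.exp_one_lt_d9
    linarith
  have hL0 : 0 < L := by linarith
  have hsub : {n : ℕ | 1 ≤ n ∧ n ≤ X ∧ HasDS lam n} ⊆
      {n : ℕ | 1 ≤ n ∧ n ≤ X ∧ Pass (fl lam) (cl lam) n} ∪
      {n : ℕ | 1 ≤ n ∧ n ≤ X ∧ IsSquare n} := by
    rintro n ⟨hn1, hnX, G, hG, hGf, hGd, D, hk, hD⟩
    rcases Nat.even_or_odd (Fintype.card G) with he | ho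
    · exact Or.inr ⟨hn1, hnX, schutz D n lam hn1 hk hD he⟩
    · exact Or.inl ⟨hn1, hnX, pass_lambda D lam n ho hk hD⟩
  have hfin : {n : ℕ | 1 ≤ n ∧ n ≤ X ∧ Pass (fl lam) (cl lam) n}.Finite :=
    (Set.finite_Iic X).subset fun n hn => hn.2.1
  have hfin2 : {n : ℕ | 1 ≤ n ∧ n ≤ X ∧ IsSquare n}.Finite :=
    (Set.finite_Iic X).subset fun n hn => hn.2.1
  have h1 := (Set.ncard_le_ncard hsub (hfin.union hfin2)).trans (Set.ncard_union_le _ _)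
  have h2 : ({n : ℕ | 1 ≤ n ∧ n ≤ X ∧ HasDS lam n}.ncard : ℝ) ≤
      ({n : ℕ | 1 ≤ n ∧ n ≤ X ∧ Pass (fl lam) (cl lam) n}.ncard : ℝ) + Nat.sqrt X := by
    exact_mod_cast h1.trans (Nat.add_le_add_left (square_count X) _)
  have h3 := H X hX
  have h4 : (Nat.sqrt X : ℝ) ≤ 2 * X * L ^ (ε - 1) := by
    have e1 : (Nat.sqrt X : ℝ) ≤ Real.sqrt X := Real.nat_sqrt_le_real_sqrt
    have e2 : L ≤ 2 * Real.sqrt X := by
      have := Real.log_le_rpow_div hX0.le (by norm_num : (0 : ℝ) < 1 / 2)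
      rw [← Real.sqrt_eq_rpow] at this
      linarith
    have e3 : L⁻¹ ≤ L ^ (ε - 1) := by
      rw [← Real.rpow_neg_one]
      exact Real.rpow_le_rpow_of_exponent_le hL1 (by linarith)
    have e4 : Real.sqrt X ≤ 2 * X * L⁻¹ := by
      rw [← div_eq_mul_inv, le_div_iff₀ hL0]
      have e5 : Real.sqrt X * Real.sqrt X = X := Real.mul_self_sqrt hX0.le
      have e6 := Real.sqrt_nonneg (X : ℝ)
      calc Real.sqrt X * L ≤ Real.sqrt X * (2 * Real.sqrt X) := mul_le_mul_of_nonneg_left e2 e6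
        _ = 2 * X := by linear_combination 2 * e5
    calc (Nat.sqrt X : ℝ) ≤ 2 * X * L⁻¹ := e1.trans e4
      _ ≤ 2 * X * L ^ (ε - 1) := mul_le_mul_of_nonneg_left e3 (by positivity)
  have h5 : (C + 2) * X * L ^ (ε - 1) = C * X * L ^ (ε - 1) + 2 * X * L ^ (ε - 1) := by ring
  rw [h5]
  linarith

/-- block sizes of symmetric designs with a regular automorphism group -/
theorem design_count_le (lam : ℕ) (hl : 1 ≤ lam) (ε : ℝ) (hε : 0 < ε) :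
    ∃ C : ℝ, 0 < C ∧ ∀ X : ℕ, 3 ≤ X →
      ({k : ℕ | k ≤ X ∧ ∃ (v : ℕ) (B : Fin v → Finset (Fin v))
        (H : Subgroup (Equiv.Perm (Fin v))), 2 ≤ k ∧ RegDesign v k lam B H}.ncard : ℝ) ≤
      C * X * (Real.log X) ^ (ε - 1) := by
  obtain ⟨C, hC, H⟩ := ds_count_le lam hl ε hε
  refine ⟨C, hC, fun X hX => le_trans ?_ (H X hX)⟩
  have hfin : {n : ℕ | 1 ≤ n ∧ n ≤ X ∧ HasDS lam n}.Finite :=
    (Set.finite_Iic X).subset fun n hn => hn.2.1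
  have key : ∀ k : ℕ, (∃ (v : ℕ) (B : Fin v → Finset (Fin v))
      (H : Subgroup (Equiv.Perm (Fin v))), 2 ≤ k ∧ RegDesign v k lam B H) →
      lam < k ∧ HasDS lam (k - lam) := by
    rintro k ⟨v, B, H, hk2, hd⟩
    obtain ⟨h1, G, i1, i2, i3, D, hD1, hD2⟩ :=
      regdesign_ds hd hl (by have := hd.kv; omega)
    exact ⟨h1, G, i1, i2, i3, D, by omega, hD2⟩
  have h1 := Set.ncard_le_ncard_of_injOn (s := {k : ℕ | k ≤ X ∧ ∃ (v : ℕ)
      (B : Fin v → Finset (Fin v)) (H : Subgroup (Equiv.Perm (Fin v))), 2 ≤ k ∧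
      RegDesign v k lam B H}) (t := {n : ℕ | 1 ≤ n ∧ n ≤ X ∧ HasDS lam n}) (fun k => k - lam)
    (fun k hk => by
      obtain ⟨hkX, hk2⟩ := hk
      obtain ⟨h1, h2⟩ := key k hk2
      exact ⟨by omega, by omega, h2⟩)
    (fun a ha b hb hab => by
      obtain ⟨h1, -⟩ := key a ha.2
      obtain ⟨h2, -⟩ := key b hb.2
      simp only at hab
      omega) hfin
  exact_mod_cast h1

end Pool.Agent.H951R4.OD
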