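import Pool.Agent.H951R4.OD.Tests

set_option autoImplicit false

namespace Pool.Agent.H951R4.OD

open Finset Matrix

/-- the development of `D` -/
def dev {G : Type} [Group G] [DecidableEq G] (D : Finset G) : Matrix G G ℚ :=
  fun g h => if g⁻¹ * h ∈ D then 1 else 0

lemma dev_mul {G : Type} [Group G] [Fintype G] [DecidableEq G] (D : Finset G) (k lam : ℕ)
    (hk : D.card = k)
    (hD : ∀ g : G, g ≠ 1 → ((D ×ˢ D).filter (fun p : G × G => p.1 * p.2⁻¹ = g)).card = lam) :
    dev D * (dev D)ᵀ = ((k : ℚ) - lam) • (1 : Matrix G G ℚ) +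
      replicateCol Unit (fun _ => (lam : ℚ)) * replicateRow Unit (fun _ : G => (1 : ℚ)) := by
  ext g g'
  have h1 : (dev D * (dev D)ᵀ) g g' =
      (((D ×ˢ D).filter (fun p : G × G => p.1 * p.2⁻¹ = g⁻¹ * g')).card : ℚ) := by
    rw [Matrix.mul_apply]
    have h2 : ∀ h : G, dev D g h * (dev D)ᵀ h g' = if (g⁻¹ * h ∈ D ∧ g'⁻¹ * h ∈ D) then 1 else 0 := by
      intro h
      simp only [dev, Matrix.transpose_apply]
      split_ifs <;> simp_all
    rw [Finset.sum_congr rfl (fun h _ => h2 h), Finset.sum_boole]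
    norm_cast
    refine Finset.card_bij (fun h _ => (g⁻¹ * h, g'⁻¹ * h)) ?_ ?_ ?_
    · intro h hh
      simp only [Finset.mem_filter, Finset.mem_univ, true_and] at hh
      simp only [Finset.mem_filter, Finset.mem_product]
      refine ⟨hh, by group⟩
    · intro a _ b _ hab
      simpa using (Prod.mk.inj hab).1
    · rintro ⟨x, y⟩ hxy
      simp only [Finset.mem_filter, Finset.mem_product] at hxy
      have h3 : g'⁻¹ * (g * x) = y := by
        have := hxy.2
        have h4 : x = g⁻¹ * g' * y := by rw [← this]; group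
        rw [h4]; group
      refine ⟨g * x, ?_, ?_⟩
      · simp only [Finset.mem_filter, Finset.mem_univ, true_and, h3, inv_mul_cancel_left]
        exact hxy.1
      · simp only [h3, inv_mul_cancel_left]
  rw [h1]
  simp only [Matrix.add_apply, Matrix.smul_apply, smul_eq_mul, Matrix.mul_apply,
    Matrix.replicateCol_apply, Matrix.replicateRow_apply, Finset.univ_unique, Finset.sum_const,
    Finset.card_singleton, one_smul, mul_one]
  by_cases hg : g = g'
  · subst hg
    rw [inv_mul_cancel, Matrix.one_apply_eq]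
    have h2 : ((D ×ˢ D).filter (fun p : G × G => p.1 * p.2⁻¹ = 1)).card = k := by
      rw [← hk]
      have : (D ×ˢ D).filter (fun p : G × G => p.1 * p.2⁻¹ = 1) = D.image (fun a => (a, a)) := by
        ext ⟨a, b⟩
        simp only [Finset.mem_filter, Finset.mem_product, Finset.mem_image, Prod.mk.injEq]
        constructor
        · rintro ⟨⟨ha, _⟩, h⟩
          exact ⟨a, ha, rfl, (mul_inv_eq_one.1 h)⟩
        · rintro ⟨c, hc, rfl, rfl⟩
          exact ⟨⟨hc, hc⟩, mul_inv_cancel _⟩
      rw [this, Finset.card_image_of_injective _ (fun a b h => (Prod.mk.inj h).1)]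
    rw [h2]
    ring
  · rw [Matrix.one_apply_ne hg, hD _ (by
      intro h
      exact hg (inv_mul_eq_one.1 h))]
    ring

lemma det_dev {G : Type} [Group G] [Fintype G] [DecidableEq G] (D : Finset G) (n lam : ℕ)
    (hn : 1 ≤ n) (hk : D.card = n + lam)
    (hD : ∀ g : G, g ≠ 1 → ((D ×ˢ D).filter (fun p : G × G => p.1 * p.2⁻¹ = g)).card = lam) :
    (dev D).det ^ 2 * n = (n : ℚ) ^ Fintype.card G * ((n : ℚ) + lam) ^ 2 := by
  have hn0 : (n : ℚ) ≠ 0 := by
    have : n ≠ 0 := by omega
    exact_mod_cast this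
  have h1 := dev_mul D (n + lam) lam hk hD
  have h2 := congrArg Matrix.det h1
  rw [Matrix.det_mul, Matrix.det_transpose] at h2
  have h3 : ((((n + lam : ℕ) : ℚ) - lam) • (1 : Matrix G G ℚ) +
      replicateCol Unit (fun _ => (lam : ℚ)) * replicateRow Unit (fun _ : G => (1 : ℚ))) =
      (n : ℚ) • ((1 : Matrix G G ℚ) +
      replicateCol Unit (fun _ => ((lam : ℚ) / n)) * replicateRow Unit (fun _ : G => (1 : ℚ))) := by
    ext i j
    simp only [Matrix.add_apply, Matrix.smul_apply, smul_eq_mul, Matrix.mul_apply,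
      Matrix.replicateCol_apply, Matrix.replicateRow_apply, Finset.univ_unique, Finset.sum_const,
      Finset.card_singleton, one_smul, mul_one]
    push_cast
    field_simp
    ring
  rw [h3, Matrix.det_smul, Matrix.det_one_add_replicateCol_mul_replicateRow] at h2
  have h4 : (fun _ : G => (1 : ℚ)) ⬝ᵥ (fun _ => ((lam : ℚ) / n)) = Fintype.card G * (lam / n) := by
    simp [dotProduct]
  rw [h4] at h2
  have h5 : ((n : ℚ) + lam) ^ 2 = n + lam * Fintype.card G := by
    have hc := ds_count D (n + lam) lam hk hD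
    have hv1 : 1 ≤ Fintype.card G := Fintype.card_pos
    have := congrArg (Nat.cast : ℕ → ℚ) hc
    push_cast [Nat.cast_sub hv1] at this
    linear_combination this
  rw [pow_two, h2, h5]
  field_simp

/-- Schützenberger's theorem for groups of even order -/
theorem schutz {G : Type} [Group G] [Fintype G] [DecidableEq G] (D : Finset G) (n lam : ℕ)
    (hn : 1 ≤ n) (hk : D.card = n + lam)
    (hD : ∀ g : G, g ≠ 1 → ((D ×ˢ D).filter (fun p : G × G => p.1 * p.2⁻¹ = g)).card = lam)
    (heven : Even (Fintype.card G)) : IsSquare n := by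
  have h1 := det_dev D n lam hn hk hD
  obtain ⟨s, hs⟩ := heven
  have hn0 : (n : ℚ) ≠ 0 := by
    have : n ≠ 0 := by omega
    exact_mod_cast this
  have hdet : (dev D).det ≠ 0 := by
    intro h
    rw [h, zero_pow two_ne_zero, zero_mul] at h1
    have : (0 : ℚ) < (n : ℚ) ^ Fintype.card G * ((n : ℚ) + lam) ^ 2 := by
      have : (0 : ℚ) < n := by
        have : 0 < n := by omega
        exact_mod_cast this
      positivity
    linarith
  have h2 : IsSquare (n : ℚ) := by
    refine ⟨(n : ℚ) ^ s * ((n : ℚ) + lam) / (dev D).det, ?_⟩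
    rw [hs] at h1
    field_simp
    rw [pow_add] at h1
    linear_combination h1
  exact Rat.isSquare_natCast_iff.1 h2

end Pool.Agent.H951R4.OD
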