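import Pool.Agent.H951R4.OD.Defs

/-!
# Orders of difference sets: statements of the steps (proved in the other modules)
-/

set_option autoImplicit false

namespace Pool.Agent.H951R4.OD.Stubs

open Finset Pool.Agent.H951R4.OD

/-! ### A: characters -/

theorem ch_chi (D : ℤ) (hD : ¬ IsSquare D) : Chi (ch D) (4 * |(D : ℝ)|) := sorry

theorem ch_mul_left (a b : ℤ) (n : ℕ) : ch (a * b) n = ch a n * ch b n := sorry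

theorem ch_prod_left (ps : Finset ℕ) (n : ℕ) (hn : n % 2 = 1) :
    ch (((∏ p ∈ ps, p : ℕ) : ℕ) : ℤ) n = ∏ p ∈ ps, ch (p : ℤ) n := sorry

theorem ch_val (D : ℤ) (n : ℕ) : ch D n = 0 ∨ ch D n = 1 ∨ ch D n = -1 := sorry

theorem ch_prime_ne_zero (p q : ℕ) (hp : p.Prime) (hq : q.Prime) (hq2 : q ≠ 2) (hpq : p ≠ q) :
    ch (p : ℤ) q ≠ 0 := sorry

theorem ch_eq_neg_one_iff (p q : ℕ) (hq : q.Prime) (hq2 : q ≠ 2) :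
    ch (p : ℤ) q = -1 ↔ (p : ZMod q) ^ ((q - 1) / 2) = -1 := sorry

theorem prod_not_square (ps : Finset ℕ) (hps : ∀ p ∈ ps, p.Prime) (hne : ps.Nonempty) :
    ¬ IsSquare (((∏ p ∈ ps, p : ℕ) : ℕ) : ℤ) := sorry

theorem neg_not_square (d : ℕ) (Δ : ℤ) (hd : 0 < d) (hΔ : Δ < 0) : ¬ IsSquare ((d : ℤ) * Δ) :=
  sorry

/-! ### M: Mertens -/

theorem mert_le : ∃ C : ℝ, 0 ≤ C ∧ ∀ z : ℕ, 3 ≤ z →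
    |∑ q ∈ PI 0 z, (1 : ℝ) / q - Real.log (Real.log z)| ≤ C := sorry

theorem mert_int : ∃ C : ℝ, 0 ≤ C ∧ ∀ y z : ℕ, 2 ≤ y → y ≤ z →
    |∑ q ∈ PI y z, (1 : ℝ) / q - Real.log (Real.log z / Real.log y)| ≤ C := sorry

theorem mert_log : ∃ C : ℝ, 0 ≤ C ∧ ∀ z : ℕ, 2 ≤ z →
    ∑ q ∈ PI 0 z, Real.log q / q ≤ C * Real.log z := sorry

theorem sum_sq_inv : ∃ C : ℝ, 0 ≤ C ∧ ∀ S : Finset ℕ, ∑ q ∈ S, (1 : ℝ) / (q : ℝ) ^ 2 ≤ C := sorry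

/-! ### B: character sums over primes -/

theorem rr_nonneg {χ : ℕ → ℝ} {M : ℝ} (h : Chi χ M) (n : ℕ) : 0 ≤ rr χ n := sorry

theorem rr_one {χ : ℕ → ℝ} {M : ℝ} (h : Chi χ M) : rr χ 1 = 1 := sorry

theorem rr_le {χ : ℕ → ℝ} {M : ℝ} (h : Chi χ M) (n : ℕ) : rr χ n ≤ n.divisors.card := sorry

theorem hyper : ∃ C : ℝ, 1 ≤ C ∧ ∀ (χ : ℕ → ℝ) (M : ℝ), Chi χ M →
    ∃ lam : ℝ, 0 ≤ lam ∧ ∀ N : ℕ, M ≤ N →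
      |∑ n ∈ Icc 1 N, rr χ n - lam * N| ≤ C * Real.sqrt (M * N) := sorry

theorem FF_summable {χ : ℕ → ℝ} {M : ℝ} (h : Chi χ M) (σ : ℝ) (hσ : 1 < σ) :
    Summable (fun n : ℕ => rr χ n * (n : ℝ) ^ (-σ)) := sorry

theorem FF_exp {χ : ℕ → ℝ} {M : ℝ} (h : Chi χ M) (σ : ℝ) (hσ : 1 < σ) :
    FF χ σ = Real.exp (∑' q : Nat.Primes, -Real.log (1 - ((q : ℕ) : ℝ) ^ (-σ))) *
      Real.exp (∑' q : Nat.Primes, -Real.log (1 - χ q * ((q : ℕ) : ℝ) ^ (-σ))) := sorry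

/-- `S(y) = ∑_{n ≤ y} rr n / n` against the residue -/
theorem S_lower : ∃ C : ℝ, 1 ≤ C ∧ ∀ (χ : ℕ → ℝ) (M : ℝ), Chi χ M → ∀ lam : ℝ, 0 ≤ lam →
    ∀ C1 : ℝ, 1 ≤ C1 →
    (∀ N : ℕ, M ≤ N → |∑ n ∈ Icc 1 N, rr χ n - lam * N| ≤ C1 * Real.sqrt (M * N)) →
    ∀ y : ℕ, 3 ≤ y → M ^ 2 ≤ y →
      lam * Real.log y ≤ C * C1 * ∑ n ∈ Icc 1 y, rr χ n / n := sorry

/-- the tail of the Dirichlet series -/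
theorem FF_tail : ∃ C : ℝ, 1 ≤ C ∧ ∀ (χ : ℕ → ℝ) (M : ℝ), Chi χ M → ∀ lam : ℝ, 0 ≤ lam →
    ∀ C1 : ℝ, 1 ≤ C1 →
    (∀ N : ℕ, M ≤ N → |∑ n ∈ Icc 1 N, rr χ n - lam * N| ≤ C1 * Real.sqrt (M * N)) →
    ∀ y z : ℕ, 3 ≤ y → M ^ 2 ≤ y → y ≤ z →
      FF χ (sg z) ≤ ∑ n ∈ Icc 1 y, rr χ n / n +
        C * C1 * (lam + Real.sqrt (M / y)) * Real.log z := sorry

theorem comp : ∃ C : ℝ, 3 ≤ C ∧ ∀ (χ : ℕ → ℝ) (M : ℝ), Chi χ M → ∀ y z : ℕ, C * M ^ 2 ≤ y →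
    y ≤ z → FF χ (sg z) ≤ C * (Real.log z / Real.log y) * FF χ (sg y) := sorry

theorem log_primes : ∃ C : ℝ, 0 ≤ C ∧ ∀ χ : ℕ → ℝ, (∀ n, |χ n| ≤ 1) → ∀ x : ℕ, 3 ≤ x →
    |∑' q : Nat.Primes, -Real.log (1 - χ q * ((q : ℕ) : ℝ) ^ (-(sg x))) -
      ∑ q ∈ PI 0 x, χ q / q| ≤ C := sorry

theorem euler : ∃ C : ℝ, 0 ≤ C ∧ ∀ (χ : ℕ → ℝ) (M : ℝ), Chi χ M → ∀ x : ℕ, 3 ≤ x →
    0 < FF χ (sg x) ∧ |Real.log (FF χ (sg x)) - ∑ q ∈ PI 0 x, (1 + χ q) / q| ≤ C := sorry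

theorem char_sum_le : ∃ C : ℝ, 3 ≤ C ∧ ∀ (χ : ℕ → ℝ) (M : ℝ), Chi χ M → ∀ y z : ℕ,
    C * M ^ 2 ≤ y → y ≤ z → ∑ q ∈ PI y z, χ q / q ≤ C := sorry

theorem char_sum_fixed (D : ℤ) (hD : ¬ IsSquare D) : ∃ C : ℝ, 0 ≤ C ∧ ∀ y z : ℕ,
    |∑ q ∈ PI y z, ch D q / q| ≤ C := sorry

/-! ### C: primes modulo which the elements of `ps` are residues -/

theorem allowed_upper (Δ : ℤ) (hΔ : Δ < 0) (e : ℝ) (he : e = 0 ∨ e = 1) : ∃ C : ℝ, 3 ≤ C ∧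
    ∀ ps : Finset ℕ, (∀ p ∈ ps, p.Prime) → ∀ y z : ℕ, C * (∏ p ∈ ps, (p : ℝ)) ^ 2 ≤ y → y ≤ z →
      ∑ q ∈ Good ps y z, (1 + e * ch Δ q) / q ≤
        (1 / 2) ^ ps.card * ∑ q ∈ PI y z, (1 : ℝ) / q + C := sorry

theorem bad_lower {f : ℕ → ℤ} {c0 : ℕ} {e : ℝ} {Δ : ℤ} (h : Pol f c0 e Δ) : ∃ C : ℝ, 3 ≤ C ∧
    ∀ ps : Finset ℕ, (∀ p ∈ ps, p.Prime) → ∀ y z : ℕ, C * (∏ p ∈ ps, (p : ℝ)) ^ 2 ≤ y → y ≤ z →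
      (1 - (1 / 2) ^ ps.card) * ∑ q ∈ PI y z, (1 : ℝ) / q - C ≤
        ∑ q ∈ Bad c0 ps y z, (1 + e * ch Δ q) / q := sorry

/-! ### D: sieve -/

theorem sieve : ∃ C : ℝ, 1 ≤ C ∧ ∀ z N : ℕ, 3 ≤ z →
    C * Real.log z * (1 + Real.log (Real.log z)) ≤ Real.log N →
    ∀ (S : Finset ℕ) (md : ℕ → ℕ) (h : ℕ → ℕ → ℝ),
    (∀ p ∈ S, p.Prime ∧ p ≤ z ∧ (md p = p ∨ md p = p ^ 2)) →
    (∀ p ∈ S, ∀ n, h p n = 0 ∨ h p n = 1) → (∀ p ∈ S, ∀ n, h p (n + md p) = h p n) →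
    (∀ p ∈ S, (∑ n ∈ range (md p), h p n) / md p ≤ 2 / p) →
    ∑ n ∈ Icc 1 N, ∏ p ∈ S, (1 - h p n) ≤
      C * N * Real.exp (-∑ p ∈ S, (∑ n ∈ range (md p), h p n) / md p) := sorry

theorem countI (c0 : ℕ) (hc0 : 0 < c0) (k : ℕ) : ∃ C : ℝ, 1 ≤ C ∧ ∀ z X : ℕ, 3 ≤ z →
    C * Real.log z * (1 + Real.log (Real.log z)) ≤ Real.log X →
    ∀ ps : Finset ℕ, ps.card ≤ k → (∀ p ∈ ps, p.Prime ∧ p ≤ z) →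
      ({n : ℕ | 1 ≤ n ∧ n ≤ X ∧ (∀ p ∈ ps, Ex c0 n p) ∧
        ∀ p : ℕ, p ≤ z → Ex c0 n p → p ∈ ps}.ncard : ℝ) ≤
      C * (X / ∏ p ∈ ps, (p : ℝ)) / Real.log z := sorry

theorem countII {f : ℕ → ℤ} {c0 : ℕ} {e : ℝ} {Δ : ℤ} (h : Pol f c0 e Δ) (k : ℕ) (hk : 1 ≤ k) :
    ∃ C : ℝ, 1 ≤ C ∧ ∀ z X : ℕ, 3 ≤ z →
    C * Real.log z * (1 + Real.log (Real.log z)) ≤ Real.log X →
    ∀ ps : Finset ℕ, ps.card = k → (∀ p ∈ ps, p.Prime ∧ p ≤ z) →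
      ({n : ℕ | 1 ≤ n ∧ n ≤ X ∧ Pass f c0 n ∧ (∀ p ∈ ps, Ex c0 n p) ∧
        ∀ p : ℕ, Ex c0 n p → p ≤ ps.sup id → p ∈ ps}.ncard : ℝ) ≤
      C * (X / ∏ p ∈ ps, (p : ℝ)) * (Real.log z) ^ (-1 + (1 / 2 : ℝ) ^ k : ℝ) := sorry

theorem sum_inv_prod (k : ℕ) : ∃ C : ℝ, 1 ≤ C ∧ ∀ z : ℕ, 3 ≤ z →
    ∑ ps ∈ (PI 0 z).powersetCard k, 1 / ∏ p ∈ ps, (p : ℝ) ≤
      C * (1 + Real.log (Real.log z)) ^ k := sorry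

/-! ### E: the count -/

theorem combine {f : ℕ → ℤ} {c0 : ℕ} {e : ℝ} {Δ : ℤ} (h : Pol f c0 e Δ) (k : ℕ) (hk : 1 ≤ k) :
    ∃ C : ℝ, 1 ≤ C ∧ ∀ z X : ℕ, 3 ≤ z →
    C * Real.log z * (1 + Real.log (Real.log z)) ≤ Real.log X →
      ({n : ℕ | 1 ≤ n ∧ n ≤ X ∧ Pass f c0 n}.ncard : ℝ) ≤
      C * X * (1 + Real.log (Real.log z)) ^ k * (Real.log z) ^ (-1 + (1 / 2 : ℝ) ^ k : ℝ) := sorry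

/-! ### F: the polynomials and the exclusion tests -/

theorem quad_roots (b c : ℤ) (q : ℕ) (hq : q.Prime) (hq2 : q ≠ 2)
    (hd : ¬ (q : ℤ) ∣ b ^ 2 - 4 * c) :
    (((range q).filter (fun n : ℕ => (q : ℤ) ∣ (n : ℤ) ^ 2 + b * n + c)).card : ℝ) =
      1 + ch (b ^ 2 - 4 * c) q := sorry

theorem pol_fl (lam : ℕ) (hl : 1 ≤ lam) : Pol (fl lam) (cl lam) 1 (1 - 4 * (lam : ℤ)) := sorry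

theorem pol_had : Pol (fun n => 4 * (n : ℤ) - 1) 2 0 (-1) := sorry

end Pool.Agent.H951R4.OD.Stubs
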