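import Pool.Agent.H951R4.OD.Defs
import Pool.Agent.H951R4.OD.A1
import Pool.Agent.H771R2.SingerDS
import Pool.Agent.H771R2.HadamardDS

set_option autoImplicit false

namespace Pool.Agent.H951R4.OD

open Finset

lemma cl_one : cl 1 = 6 := by decide

/-- Singer parameters -/
theorem pass_singer {n m : ℕ} (hm : Odd m) (hm3 : 3 ≤ m) (h3 : 3 ∣ m) (hn : 2 ≤ n)
    (h : Pool.Agent.H771R2.SingerDS.HasSinger n m) : Pass (fl 1) (cl 1) n := by
  intro p q hp hq hqc hqf hch
  obtain ⟨hpp, -, hpn, hpn2⟩ := hp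
  have : Fact q.Prime := ⟨hq⟩
  rw [cl_one] at hqc
  have hq2 : q ≠ 2 := by rintro rfl; exact hqc (by decide)
  have hq3 : q ≠ 3 := by rintro rfl; exact hqc (by decide)
  have h0 : ((n : ZMod q)) ^ 2 + n + 1 = 0 := by
    have h1 : ((fl 1 n : ℤ) : ZMod q) = 0 := (ZMod.intCast_zmod_eq_zero_iff_dvd _ _).2 hqf
    unfold fl at h1
    push_cast at h1
    linear_combination h1
  refine Pool.Agent.H771R2.SingerDS.excluded hm hm3 h3 hn h hq ?_ ?_ hpp hpn hpn2
    ((ch_eq_neg_one_iff p q hq hq2).1 hch)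
  · linear_combination ((n : ZMod q) - 1) * h0
  · intro h1
    rw [h1] at h0
    have h2 : ((3 : ℕ) : ZMod q) = 0 := by
      push_cast
      linear_combination h0
    rw [ZMod.natCast_eq_zero_iff] at h2
    exact hq3 ((Nat.prime_dvd_prime_iff_eq hq (by norm_num)).1 h2)

/-- counting: `k ^ 2 = k + lam (v - 1)` for a difference set -/
lemma ds_count {G : Type} [Group G] [Fintype G] [DecidableEq G] (D : Finset G) (k lam : ℕ)
    (hk : D.card = k)
    (hD : ∀ g : G, g ≠ 1 → ((D ×ˢ D).filter (fun p : G × G => p.1 * p.2⁻¹ = g)).card = lam) :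
    k * k = k + lam * (Fintype.card G - 1) := by
  have h1 : (D ×ˢ D).card =
      ∑ g : G, ((D ×ˢ D).filter (fun p : G × G => p.1 * p.2⁻¹ = g)).card :=
    Finset.card_eq_sum_card_fiberwise (fun _ _ => Finset.mem_coe.2 (Finset.mem_univ _))
  rw [Finset.card_product, hk, ← Finset.add_sum_erase _ _ (Finset.mem_univ (1 : G))] at h1
  have h2 : ((D ×ˢ D).filter (fun p : G × G => p.1 * p.2⁻¹ = 1)).card = k := by
    rw [← hk]
    have : (D ×ˢ D).filter (fun p : G × G => p.1 * p.2⁻¹ = 1) = D.image (fun a => (a, a)) := by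
      ext ⟨a, b⟩
      simp only [Finset.mem_filter, Finset.mem_product, Finset.mem_image, Prod.mk.injEq]
      constructor
      · rintro ⟨⟨ha, _⟩, h⟩
        exact ⟨a, ha, rfl, (mul_inv_eq_one.1 h)⟩
      · rintro ⟨c, hc, rfl, rfl⟩
        exact ⟨⟨hc, hc⟩, mul_inv_cancel _⟩
    rw [this, Finset.card_image_of_injective _ (fun a b h => (Prod.mk.inj h).1)]
  rw [h2, Finset.sum_congr rfl (fun g hg => hD g (Finset.ne_of_mem_erase hg)), Finset.sum_const,
    Finset.card_erase_of_mem (Finset.mem_univ _), Finset.card_univ, smul_eq_mul] at h1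
  rw [h1]
  ring

/-- fixed `lam`, groups of odd order -/
theorem pass_lambda {G : Type} [Group G] [Fintype G] [DecidableEq G] (D : Finset G) (lam n : ℕ)
    (hodd : Odd (Fintype.card G)) (hk : D.card = n + lam)
    (hD : ∀ g : G, g ≠ 1 → ((D ×ˢ D).filter (fun p : G × G => p.1 * p.2⁻¹ = g)).card = lam) :
    Pass (fl lam) (cl lam) n := by
  intro p q hp hq hqc hqf hch
  obtain ⟨hpp, -, hpn, hpn2⟩ := hp
  have : Fact q.Prime := ⟨hq⟩
  have hq2 : q ≠ 2 := by
    rintro rfl
    exact hqc ⟨lam * (4 * lam - 1), by unfold cl; ring⟩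
  have hql : ¬ q ∣ lam := by
    rintro ⟨c, hc⟩
    apply hqc
    unfold cl
    refine Dvd.dvd.mul_right ?_ _
    exact Dvd.dvd.mul_left ⟨c, hc⟩ 2
  have hcount := ds_count D (n + lam) lam hk hD
  have hv1 : 1 ≤ Fintype.card G := Fintype.card_pos
  have hfl : fl lam n = (lam : ℤ) * (Fintype.card G : ℤ) := by
    have h1 : ((n : ℤ) + lam) * (n + lam) = (n + lam) + lam * ((Fintype.card G : ℤ) - 1) := by
      have := congrArg (Nat.cast : ℕ → ℤ) hcount
      push_cast [Nat.cast_sub hv1] at this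
      linarith
    unfold fl
    linear_combination h1
  have hqG : q ∣ Fintype.card G := by
    rw [hfl] at hqf
    have h1 : q ∣ lam * Fintype.card G := by exact_mod_cast hqf
    exact (hq.dvd_mul.1 h1).resolve_left hql
  obtain ⟨u, hu⟩ := hpn
  refine Pool.Agent.H771R2.Lander.no_difference_set D (n + lam) lam hk hD hodd hq hqG hpp
    ((ch_eq_neg_one_iff p q hq hq2).1 hch) (a := 1) odd_one (u := (u : ℤ)) ?_ ?_
  · intro h1
    have h2 : p ∣ u := by exact_mod_cast h1
    obtain ⟨w, hw⟩ := h2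
    exact hpn2 ⟨w, by rw [hu, hw]; ring⟩
  · push_cast
    rw [hu]
    push_cast
    ring

/-- Hadamard (Paley) parameters -/
theorem pass_hadamard {w : ℕ} (hw : 1 ≤ w) (h : Pool.Agent.H771R2.HadamardDS.HasHadamard w) :
    Pass (fun n => 4 * (n : ℤ) - 1) 2 w := by
  intro p q hp hq hqc hqf hch
  obtain ⟨hpp, -, hpn, hpn2⟩ := hp
  have : Fact q.Prime := ⟨hq⟩
  have hq2 : q ≠ 2 := by
    rintro rfl
    exact hqc dvd_rfl
  have h0 : (4 * w : ZMod q) = 1 := by
    have h1 : ((4 * (w : ℤ) - 1 : ℤ) : ZMod q) = 0 :=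
      (ZMod.intCast_zmod_eq_zero_iff_dvd _ _).2 hqf
    push_cast at h1
    linear_combination h1
  exact Pool.Agent.H771R2.HadamardDS.excluded hw h hq h0 hpp hpn hpn2
    ((ch_eq_neg_one_iff p q hq hq2).1 hch)

end Pool.Agent.H951R4.OD
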